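import Pool.Agent.TQG.Defs

/-!
Project TQG, module MTT: the matrix-tree theorem modulo 2 (definitions `arb`, `lap` only).

`mtt`: the rows `j ≠ r` of `lap a` are `∑_{i ≠ j} a j i • (e_i + e_j)` (characteristic 2), row `r` of the
updated matrix is `e_r`. By multilinearity in the rows (`MultilinearMap.map_sum`,
`Matrix.detRowAlternating`) the determinant is the sum over functions `f` with `f r = r`, `f j ≠ j`
for `j ≠ r`, of `∏_{j ≠ r} a j (f j) * det F`, `F` with rows `e_{f j} + e_j` (`j ≠ r`) and `e_r`. If every
`j` reaches `r` under iteration of `f` then `F v = 0` means `v (f j) = v j`, `v r = 0`, so `v = 0` and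
`det F = 1`; otherwise the indicator of the set of `j` which never reach `r` is a nonzero vector in
the kernel and `det F = 0` (`Matrix.exists_mulVec_eq_zero_iff`). (Functions with `f j = j ≠ r` do not
reach `r`.)
`lap_col`: `det (lap a) with column c replaced by l = ∑_r l r * adjugate (lap a) c r`
(`Matrix.cramer`, `Matrix.mulVec`, `Matrix.cramer_eq_adjugate_mulVec`), and
`adjugate (lap a) c r = det (lap a with row r replaced by e_c)` (`Matrix.adjugate_apply`)
`= det (lap a with row r replaced by e_r)`: the difference is the determinant with row `r`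
replaced by `e_c - e_r`, all row sums are zero, so the all-ones vector is in the kernel.
-/

namespace Pool.Agent.TQG

/-- The matrix with rows `e_{f j} + e_j` (`j ≠ r`) and `e_r`. -/
private noncomputable def mttV {ι : Type} [Fintype ι] [DecidableEq ι] (r : ι) (f : ι → ι) :
    Matrix ι ι (ZMod 2) :=
  Matrix.of fun j => if j = r then Pi.single r 1 else Pi.single (f j) 1 + Pi.single j 1

private theorem mttV_mulVec {ι : Type} [Fintype ι] [DecidableEq ι] (r : ι) (f : ι → ι)
    (v : ι → ZMod 2) (j : ι) :
    (mttV r f).mulVec v j = if j = r then v r else v (f j) + v j := by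
  have h0 : (mttV r f).mulVec v j = (mttV r f j) ⬝ᵥ v := rfl
  rw [h0]
  by_cases h : j = r
  · rw [if_pos h, show mttV r f j = Pi.single r 1 from if_pos h, single_dotProduct, one_mul]
  · rw [if_neg h, show mttV r f j = Pi.single (f j) 1 + Pi.single j 1 from if_neg h,
      add_dotProduct, single_dotProduct, single_dotProduct, one_mul, one_mul]

private theorem mttV_det_one {ι : Type} [Fintype ι] [DecidableEq ι] (r : ι) (f : ι → ι)
    (hr : f r = r) (h : ∀ j, ∃ n : ℕ, f^[n] j = r) : (mttV r f).det = 1 := by
  have h0 : (mttV r f).det ≠ 0 := by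
    intro h0
    obtain ⟨v, hv, hv0⟩ := Matrix.exists_mulVec_eq_zero_iff.mpr h0
    apply hv
    have hvr : v r = 0 := by
      have := congrFun hv0 r
      rw [mttV_mulVec] at this
      simpa using this
    have hstep : ∀ j, v (f j) = v j := by
      intro j
      by_cases hj : j = r
      · subst hj; rw [hr]
      · have := congrFun hv0 j
        rw [mttV_mulVec, if_neg hj] at this
        have h2 : v (f j) = - v j := eq_neg_of_add_eq_zero_left this
        rw [h2]
        exact ZMod.neg_eq_self_mod_two _
    have hiter : ∀ n j, v (f^[n] j) = v j := by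
      intro n
      induction n with
      | zero => intro j; rfl
      | succ n ih => intro j; rw [Function.iterate_succ_apply, ih, hstep]
    funext j
    obtain ⟨n, hn⟩ := h j
    rw [← hiter n j, hn, hvr]
    rfl
  have h01 : ∀ x : ZMod 2, x ≠ 0 → x = 1 := by decide
  exact h01 _ h0

private theorem mttV_det_zero {ι : Type} [Fintype ι] [DecidableEq ι] (r : ι) (f : ι → ι)
    (h : ¬ ∀ j, ∃ n : ℕ, f^[n] j = r) : (mttV r f).det = 0 := by
  classical
  push Not at h
  obtain ⟨j0, hj0⟩ := h
  apply Matrix.exists_mulVec_eq_zero_iff.mp
  refine ⟨fun j => if (∃ n : ℕ, f^[n] j = r) then 0 else 1, ?_, ?_⟩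
  · intro h0
    have := congrFun h0 j0
    simp only [Pi.zero_apply] at this
    rw [if_neg (by push Not; exact hj0)] at this
    exact one_ne_zero this
  · funext j
    rw [mttV_mulVec]
    by_cases hj : j = r
    · rw [if_pos hj, if_pos ⟨0, rfl⟩]; rfl
    · rw [if_neg hj]
      have hiff : (∃ n : ℕ, f^[n] (f j) = r) ↔ (∃ n : ℕ, f^[n] j = r) := by
        constructor
        · rintro ⟨n, hn⟩
          exact ⟨n + 1, by rw [Function.iterate_succ_apply]; exact hn⟩
        · rintro ⟨n, hn⟩
          cases n with
          | zero => exact absurd hn hj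
          | succ n => exact ⟨n, by rw [Function.iterate_succ_apply] at hn; exact hn⟩
      by_cases h1 : ∃ n : ℕ, f^[n] j = r
      · rw [if_pos h1, if_pos (hiff.mpr h1)]; rfl
      · rw [if_neg h1, if_neg (fun h2 => h1 (hiff.mp h2))]
        simp only [Pi.zero_apply]
        decide

theorem mtt {ι : Type} [Fintype ι] [DecidableEq ι] (a : ι → ι → ZMod 2) (r : ι) :
    ((lap a).updateRow r (Pi.single r 1)).det = arb a r Finset.univ := by
  classical
  set c : ι → ι → ZMod 2 := fun j i => if j = r then (if i = r then 1 else 0) else a j i with hc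
  set w : ι → ι → (ι → ZMod 2) := fun j i =>
    if j = r then Pi.single r 1 else Pi.single i 1 + Pi.single j 1 with hw
  have hrow : ((lap a).updateRow r (Pi.single r 1)) = fun j => ∑ i, c j i • w j i := by
    funext j
    by_cases hj : j = r
    · subst hj
      simp [hc, hw]
    · funext l
      rw [Matrix.updateRow_ne hj]
      simp only [hc, hw, if_neg hj, lap, Matrix.of_apply, Finset.sum_apply, Pi.smul_apply,
        Pi.add_apply, smul_eq_mul, mul_add, Finset.sum_add_distrib]
      rw [← Finset.sum_mul]
      have h1 : ∑ x, a j x * (Pi.single x (1 : ZMod 2) : ι → ZMod 2) l = a j l := by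
        rw [Finset.sum_eq_single l]
        · simp
        · intro b _ hb
          rw [Pi.single_eq_of_ne hb.symm, mul_zero]
        · intro hl; exact absurd (Finset.mem_univ _) hl
      rw [h1]
      by_cases hjl : j = l
      · subst hjl
        rw [if_pos rfl, Pi.single_eq_same, mul_one,
          ← Finset.add_sum_erase Finset.univ (fun i => a j i) (Finset.mem_univ j), ← add_assoc]
        have : a j j + a j j = 0 := CharTwo.add_self_eq_zero _
        rw [this, zero_add]
      · rw [if_neg hjl, Pi.single_eq_of_ne (Ne.symm hjl), mul_zero, add_zero]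
  have hdet : ((lap a).updateRow r (Pi.single r 1)).det
      = ∑ f : ι → ι, (∏ j, c j (f j)) * Matrix.det (fun j => w j (f j)) := by
    rw [hrow]
    have h1 := (Matrix.detRowAlternating (R := ZMod 2) (n := ι)).toMultilinearMap.map_sum
      (fun j i => c j i • w j i)
    have h2 : ∀ f : ι → ι, (Matrix.detRowAlternating (R := ZMod 2) (n := ι)).toMultilinearMap
        (fun j => c j (f j) • w j (f j)) = (∏ j, c j (f j)) * Matrix.det (fun j => w j (f j)) := by
      intro f
      rw [MultilinearMap.map_smul_univ]
      rfl
    rw [show Matrix.det (fun j => ∑ i, c j i • w j i) =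
      (Matrix.detRowAlternating (R := ZMod 2) (n := ι)).toMultilinearMap
      (fun j => ∑ i, c j i • w j i) from rfl, h1]
    exact Finset.sum_congr rfl fun f _ => h2 f
  rw [hdet]
  unfold arb
  rw [Finset.sum_filter]
  apply Finset.sum_congr (by rfl)
  intro f _
  have hwV : (fun j => w j (f j)) = mttV r f := by
    funext j
    rfl
  rw [hwV]
  by_cases hfr : f r = r
  · by_cases hreach : ∀ j, ∃ n : ℕ, f^[n] j = r
    · rw [if_pos ⟨hfr, by simp, by simp, hreach⟩, mttV_det_one r f hfr hreach, mul_one,
        ← Finset.mul_prod_erase Finset.univ _ (Finset.mem_univ r)]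
      simp only [hc, if_pos hfr, if_true, one_mul]
      apply Finset.prod_congr rfl
      intro j hj
      rw [if_neg (Finset.ne_of_mem_erase hj)]
    · rw [if_neg (fun h => hreach h.2.2.2), mttV_det_zero r f hreach, mul_zero]
  · rw [if_neg (fun h => hfr h.1)]
    rw [Finset.prod_eq_zero (Finset.mem_univ r), zero_mul]
    simp [hc, hfr]

theorem lap_col {ι : Type} [Fintype ι] [DecidableEq ι] (a : ι → ι → ZMod 2) (c : ι)
    (l : ι → ZMod 2) : ((lap a).updateCol c l).det = ∑ r, l r * arb a r Finset.univ := by
  classical
  have hkey : ∀ r, (lap a).adjugate c r = arb a r Finset.univ := by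
    intro r
    rw [Matrix.adjugate_apply, ← mtt a r]
    have h1 : (Pi.single c 1 : ι → ZMod 2) = Pi.single r 1 + (Pi.single c 1 - Pi.single r 1) := by
      abel
    rw [h1, Matrix.det_updateRow_add]
    have h2 : ((lap a).updateRow r (Pi.single c 1 - Pi.single r 1)).det = 0 := by
      apply Matrix.exists_mulVec_eq_zero_iff.mp
      refine ⟨fun _ => 1, ?_, ?_⟩
      · intro h
        have := congrFun h c
        exact one_ne_zero this
      · funext j
        have h0 : (((lap a).updateRow r (Pi.single c 1 - Pi.single r 1)).mulVec
            (fun _ => (1 : ZMod 2))) j =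
            (((lap a).updateRow r (Pi.single c 1 - Pi.single r 1)) j) ⬝ᵥ fun _ => 1 := rfl
        rw [h0]
        by_cases hj : j = r
        · subst hj
          rw [Matrix.updateRow_self, sub_dotProduct, single_dotProduct, single_dotProduct]
          simp
        · rw [Matrix.updateRow_ne hj]
          simp only [dotProduct, mul_one, Pi.zero_apply, lap, Matrix.of_apply]
          rw [← Finset.add_sum_erase Finset.univ _ (Finset.mem_univ j), if_pos rfl]
          have : ∑ x ∈ Finset.univ.erase j, (if j = x then ∑ l ∈ Finset.univ.erase j, a j l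
              else a j x) = ∑ x ∈ Finset.univ.erase j, a j x := by
            apply Finset.sum_congr rfl
            intro x hx
            rw [if_neg (Finset.ne_of_mem_erase hx).symm]
          rw [this]
          exact CharTwo.add_self_eq_zero _
    rw [h2, add_zero]
  rw [← Matrix.cramer_apply, Matrix.cramer_eq_adjugate_mulVec]
  simp only [Matrix.mulVec, dotProduct]
  apply Finset.sum_congr rfl
  intro r _
  rw [hkey r, mul_comm]

end Pool.Agent.TQG
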