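import Pool.Agent.TQG.Defs

/-!
Project TQG, module TUN: Tunnell's numbers in terms of the mirror of `gM`, `m = 1 mod 8`.

`(x, y, z) ∈ D_{2m}`: `2 m = 8 x^2 + 2 y^2 + 16 z^2`, i.e. `m = y^2 + 4 x^2 + 8 z^2`; `y` is odd. The
map `(ε, a) ↦ (imI / 2, ε re, imJ / 2)` from `{1, -1} × MM gM m` (`imJ = imK`, all imaginary
coordinates even, `re > 0` odd) is a bijection onto `D_{2m}`. Same for `C_{2m}`
(`m = y^2 + 4 x^2 + 32 z^2`) with `imJ = imK = 4 z`. See `H24.cardC`, `H24.cardD` in H24/Defs.lean.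
-/

namespace Pool.Agent.TQG

open Pool.Agent.TQS Pool.Agent.H24

private theorem tun_aux (A : Set H) (hA : A.Finite) (D : Set (ℤ × ℤ × ℤ)) (f : H → ℤ × ℤ × ℤ)
    (hf : Set.InjOn f A) (him : f '' A = {p | p ∈ D ∧ 0 < p.2.1})
    (hsym : ∀ x y z : ℤ, (x, y, z) ∈ D → (x, -y, z) ∈ D) (h0 : ∀ p ∈ D, p.2.1 ≠ 0) :
    D.ncard = 2 * Nat.card A := by
  set E : Set (ℤ × ℤ × ℤ) := {p | p ∈ D ∧ 0 < p.2.1} with hE
  have hEfin : E.Finite := by
    rw [← him]
    exact hA.image f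
  let g : ℤ × ℤ × ℤ → ℤ × ℤ × ℤ := fun p => (p.1, -p.2.1, p.2.2)
  have hg : Function.Injective g := by
    rintro ⟨x, y, z⟩ ⟨x', y', z'⟩ h
    simp only [g, Prod.mk.injEq, neg_inj] at h
    obtain ⟨h1, h2, h3⟩ := h
    subst h1 h2 h3
    rfl
  have hD : D = E ∪ g '' E := by
    ext ⟨x, y, z⟩
    constructor
    · intro h
      have hy := h0 _ h
      rcases lt_or_gt_of_ne hy with hy | hy
      · right
        refine ⟨(x, -y, z), ⟨hsym _ _ _ h, ?_⟩, ?_⟩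
        · change 0 < -y
          have : y < 0 := hy
          linarith
        · simp [g]
      · left
        exact ⟨h, hy⟩
    · rintro (h | ⟨⟨x', y', z'⟩, ⟨h, _⟩, he⟩)
      · exact h.1
      · rw [← he]
        exact hsym _ _ _ h
  have hdis : Disjoint E (g '' E) := by
    rw [Set.disjoint_left]
    rintro p ⟨_, h1⟩ ⟨q, ⟨_, h2⟩, he⟩
    rw [← he] at h1
    change 0 < -q.2.1 at h1
    linarith
  rw [hD, Set.ncard_union_eq hdis hEfin (hEfin.image g), Set.ncard_image_of_injective E hg, ← him,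
    hf.ncard_image, Nat.card_coe_set_eq]
  ring

private theorem mem_MM {m : ℕ} (h1 : m % 8 = 1) (a : H) : a ∈ MM gM m ↔
    0 < a.re ∧ a.imI % 2 = 0 ∧ a.imJ % 2 = 0 ∧ a.imK = a.imJ ∧
      (m : ℤ) = a.re ^ 2 + a.imI ^ 2 + 2 * a.imJ ^ 2 := by
  have hact : star (act gM a) = (⟨a.re, a.imI, a.imK, a.imJ⟩ : H) := by
    refine QuaternionAlgebra.ext ?_ ?_ ?_ ?_
    · rw [Quaternion.re_star]
      rfl
    · rw [Quaternion.imI_star]
      exact neg_neg a.imI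
    · rw [Quaternion.imJ_star]
      exact neg_neg a.imK
    · rw [Quaternion.imK_star]
      exact neg_neg a.imJ
  constructor
  · rintro ⟨⟨⟨h2, h3, h4, h5⟩, h6⟩, h7⟩
    rw [hact] at h7
    have hJ : a.imK = a.imJ := congrArg (fun x : H => x.imJ) h7
    rw [Quaternion.normSq_def', hJ] at h5
    have hm : (m : ℤ) = a.re ^ 2 + a.imI ^ 2 + 2 * a.imJ ^ 2 := by linarith
    have hpar : a.imI % 2 = 0 := by
      by_contra hodd
      have hI : a.imI % 2 = 1 := by omega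
      have hJ1 : a.imJ % 2 = 1 := by omega
      have hr : a.re % 2 = 0 := by omega
      obtain ⟨x, hx⟩ : ∃ x, a.re = 2 * x := ⟨a.re / 2, by omega⟩
      obtain ⟨y, hy⟩ : ∃ y, a.imI = 2 * y + 1 := ⟨a.imI / 2, by omega⟩
      obtain ⟨z, hz⟩ : ∃ z, a.imJ = 2 * z + 1 := ⟨a.imJ / 2, by omega⟩
      rw [hx, hy, hz] at hm
      have : (m : ℤ) = 4 * (x ^ 2 + y ^ 2 + y + 2 * z ^ 2 + 2 * z) + 3 := by rw [hm]; ring
      omega
    refine ⟨h6, hpar, by omega, hJ, hm⟩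
  · rintro ⟨h2, h3, h4, h5, h6⟩
    have hr : a.re % 2 = 1 := by
      by_contra hodd
      have hr : a.re % 2 = 0 := by omega
      obtain ⟨x, hx⟩ : ∃ x, a.re = 2 * x := ⟨a.re / 2, by omega⟩
      obtain ⟨y, hy⟩ : ∃ y, a.imI = 2 * y := ⟨a.imI / 2, by omega⟩
      obtain ⟨z, hz⟩ : ∃ z, a.imJ = 2 * z := ⟨a.imJ / 2, by omega⟩
      rw [hx, hy, hz] at h6
      have : (m : ℤ) = 4 * (x ^ 2 + y ^ 2 + 2 * z ^ 2) := by rw [h6]; ring
      omega
    refine ⟨⟨⟨by omega, by omega, by omega, ?_⟩, h2⟩, ?_⟩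
    · rw [Quaternion.normSq_def', h5, h6]
      ring
    · rw [hact]
      ext
      · rfl
      · rfl
      · exact h5
      · exact h5.symm

private theorem MM_finite (m : ℕ) : (MM gM m).Finite :=
  (Pool.Agent.TQS.bounded_finite m).subset (fun _ h => h.1.1.2.2.2)

theorem tun_C {m : ℕ} (h1 : m % 8 = 1) : cardC (2 * m) = 2 * mc0 gM m := by
  unfold cardC mc0
  have hodd : ∀ x y z : ℤ, (m : ℤ) = 4 * x ^ 2 + y ^ 2 + 32 * z ^ 2 → y ≠ 0 := by
    rintro x y z h rfl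
    have : (m : ℤ) = 2 * (2 * x ^ 2 + 16 * z ^ 2) := by rw [h]; ring
    omega
  refine tun_aux {a | a ∈ MM gM m ∧ a.imJ % 4 = 0}
    ((MM_finite m).subset (fun _ h => h.1)) _ (fun a => (a.imI / 2, a.re, a.imJ / 4)) ?_ ?_ ?_ ?_
  · rintro a ⟨ha, ha4⟩ b ⟨hb, hb4⟩ h
    rw [mem_MM h1] at ha hb
    simp only [Prod.mk.injEq] at h
    obtain ⟨e1, e2, e3⟩ := h
    ext
    · exact e2
    · omega
    · omega
    · rw [ha.2.2.2.1, hb.2.2.2.1]
      omega
  · ext ⟨x, y, z⟩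
    constructor
    · rintro ⟨a, ⟨ha, ha4⟩, he⟩
      rw [mem_MM h1] at ha
      simp only [Prod.mk.injEq] at he
      obtain ⟨e1, e2, e3⟩ := he
      obtain ⟨g1, g2, g3, g4, g5⟩ := ha
      have f1 : a.imI = 2 * x := by omega
      have f2 : a.imJ = 4 * z := by omega
      refine ⟨?_, ?_⟩
      · change ((2 * m : ℕ) : ℤ) = 8 * x ^ 2 + 2 * y ^ 2 + 64 * z ^ 2
        rw [f1, f2, e2] at g5
        push_cast
        rw [g5]
        ring
      · change 0 < y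
        rw [← e2]
        exact g1
    · rintro ⟨h, hy⟩
      change ((2 * m : ℕ) : ℤ) = 8 * x ^ 2 + 2 * y ^ 2 + 64 * z ^ 2 at h
      change 0 < y at hy
      push_cast at h
      refine ⟨⟨y, 2 * x, 4 * z, 4 * z⟩, ⟨?_, ?_⟩, ?_⟩
      · refine (mem_MM h1 _).2 ⟨hy, ?_, ?_, rfl, ?_⟩
        · change (2 * x) % 2 = 0
          omega
        · change (4 * z) % 2 = 0
          omega
        · change (m : ℤ) = y ^ 2 + (2 * x) ^ 2 + 2 * (4 * z) ^ 2
          linarith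
      · change (4 * z) % 4 = 0
        omega
      · change ((2 * x) / 2, y, (4 * z) / 4) = (x, y, z)
        rw [Int.mul_ediv_cancel_left _ (by norm_num), Int.mul_ediv_cancel_left _ (by norm_num)]
  · intro x y z h
    change ((2 * m : ℕ) : ℤ) = 8 * x ^ 2 + 2 * y ^ 2 + 64 * z ^ 2 at h
    change ((2 * m : ℕ) : ℤ) = 8 * x ^ 2 + 2 * (-y) ^ 2 + 64 * z ^ 2
    rw [h]
    ring
  · rintro ⟨x, y, z⟩ h
    change ((2 * m : ℕ) : ℤ) = 8 * x ^ 2 + 2 * y ^ 2 + 64 * z ^ 2 at h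
    push_cast at h
    exact hodd x y z (by linarith)

theorem tun_D {m : ℕ} (h1 : m % 8 = 1) : cardD (2 * m) = 2 * mc gM m := by
  unfold cardD mc
  have hodd : ∀ x y z : ℤ, (m : ℤ) = 4 * x ^ 2 + y ^ 2 + 8 * z ^ 2 → y ≠ 0 := by
    rintro x y z h rfl
    have : (m : ℤ) = 2 * (2 * x ^ 2 + 4 * z ^ 2) := by rw [h]; ring
    omega
  refine tun_aux (MM gM m) (MM_finite m) _ (fun a => (a.imI / 2, a.re, a.imJ / 2)) ?_ ?_ ?_ ?_
  · intro a ha b hb h
    rw [mem_MM h1] at ha hb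
    simp only [Prod.mk.injEq] at h
    obtain ⟨e1, e2, e3⟩ := h
    ext
    · exact e2
    · omega
    · omega
    · rw [ha.2.2.2.1, hb.2.2.2.1]
      omega
  · ext ⟨x, y, z⟩
    constructor
    · rintro ⟨a, ha, he⟩
      rw [mem_MM h1] at ha
      simp only [Prod.mk.injEq] at he
      obtain ⟨e1, e2, e3⟩ := he
      obtain ⟨g1, g2, g3, g4, g5⟩ := ha
      have f1 : a.imI = 2 * x := by omega
      have f2 : a.imJ = 2 * z := by omega
      refine ⟨?_, ?_⟩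
      · change ((2 * m : ℕ) : ℤ) = 8 * x ^ 2 + 2 * y ^ 2 + 16 * z ^ 2
        rw [f1, f2, e2] at g5
        push_cast
        rw [g5]
        ring
      · change 0 < y
        rw [← e2]
        exact g1
    · rintro ⟨h, hy⟩
      change ((2 * m : ℕ) : ℤ) = 8 * x ^ 2 + 2 * y ^ 2 + 16 * z ^ 2 at h
      change 0 < y at hy
      push_cast at h
      refine ⟨⟨y, 2 * x, 2 * z, 2 * z⟩, ?_, ?_⟩
      · refine (mem_MM h1 _).2 ⟨hy, ?_, ?_, rfl, ?_⟩
        · change (2 * x) % 2 = 0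
          omega
        · change (2 * z) % 2 = 0
          omega
        · change (m : ℤ) = y ^ 2 + (2 * x) ^ 2 + 2 * (2 * z) ^ 2
          linarith
      · change ((2 * x) / 2, y, (2 * z) / 2) = (x, y, z)
        rw [Int.mul_ediv_cancel_left _ (by norm_num), Int.mul_ediv_cancel_left _ (by norm_num)]
  · intro x y z h
    change ((2 * m : ℕ) : ℤ) = 8 * x ^ 2 + 2 * y ^ 2 + 16 * z ^ 2 at h
    change ((2 * m : ℕ) : ℤ) = 8 * x ^ 2 + 2 * (-y) ^ 2 + 16 * z ^ 2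
    rw [h]
    ring
  · rintro ⟨x, y, z⟩ h
    change ((2 * m : ℕ) : ℤ) = 8 * x ^ 2 + 2 * y ^ 2 + 16 * z ^ 2 at h
    push_cast at h
    exact hodd x y z (by linarith)

end Pool.Agent.TQG
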