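import Pool.Agent.TQG.Num

/-!
Project TQG, module LEG: quadratic residues additively.

`J(- pp S | q) = J(-1 | q) * ∏_{i ∈ S} J(i | q)` (`jacobiSym.mul_left`, induction on `S`), every factor
is `± 1` (`q` prime, `i` a prime different from `q`; `jacobiSym.eq_one_or_neg_one`), and
`J(-1 | q) = -1` iff `q = 7 mod 8` (`jacobiSym.at_neg_one`). Write each sign as `(-1) ^ e`.
-/

namespace Pool.Agent.TQG

private def sg (s : ℤ) : ZMod 2 := if s = -1 then 1 else 0

private theorem sg_mul {s t : ℤ} (hs : s = 1 ∨ s = -1) (ht : t = 1 ∨ t = -1) :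
    sg (s * t) = sg s + sg t := by
  rcases hs with rfl | rfl <;> rcases ht with rfl | rfl <;> simp [sg] <;> decide

private theorem sg_one {s : ℤ} (hs : s = 1 ∨ s = -1) :
    (if s = 1 then (1 : ZMod 2) else 0) = 1 + sg s := by
  rcases hs with rfl | rfl <;> simp [sg] <;> decide

private theorem jac_pm {P : Finset ℕ} (hP : GP P) {q i : ℕ} (hq : q ∈ P) (hi : i ∈ P)
    (h : i ≠ q) : jacobiSym (i : ℤ) q = 1 ∨ jacobiSym (i : ℤ) q = -1 := by
  apply jacobiSym.eq_one_or_neg_one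
  rw [Int.gcd_natCast_natCast]
  exact (Nat.coprime_primes (hP i hi).1 (hP q hq).1).2 h

private theorem jac_pp {P : Finset ℕ} (hP : GP P) {q : ℕ} (hq : q ∈ P) (S : Finset ℕ) :
    S ⊆ P → q ∉ S → (jacobiSym (pp S : ℤ) q = 1 ∨ jacobiSym (pp S : ℤ) q = -1) ∧
      sg (jacobiSym (pp S : ℤ) q) = ∑ i ∈ S, ee q i := by
  induction S using Finset.induction_on with
  | empty =>
    intro _ _
    simp [pp, jacobiSym.one_left, sg]
  | insert i S hi ih =>
    intro hS hqS
    obtain ⟨h1, h2⟩ := ih (fun x hx => hS (Finset.mem_insert_of_mem hx))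
      (fun hx => hqS (Finset.mem_insert_of_mem hx))
    have hiq : i ≠ q := by
      rintro rfl
      exact hqS (Finset.mem_insert_self _ _)
    have hj := jac_pm hP hq (hS (Finset.mem_insert_self i S)) hiq
    have he : jacobiSym ((pp (insert i S) : ℕ) : ℤ) q =
        jacobiSym (i : ℤ) q * jacobiSym (pp S : ℤ) q := by
      have : pp (insert i S) = i * pp S := by
        unfold pp
        rw [Finset.prod_insert hi]
      rw [this, Nat.cast_mul, jacobiSym.mul_left]
    constructor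
    · rw [he]
      rcases hj with hj | hj <;> rcases h1 with h1 | h1 <;> rw [hj, h1] <;> norm_num
    · rw [he, sg_mul hj h1, Finset.sum_insert hi, h2]
      rfl

theorem leg {P S : Finset ℕ} (hP : GP P) (hS : S ⊆ P) {q : ℕ} (hq : q ∈ P) (hqS : q ∉ S) :
    ww S q = 1 + nn q + ∑ i ∈ S, ee q i := by
  obtain ⟨h1, h2⟩ := jac_pp hP hq S hS hqS
  obtain ⟨hqp, hq8⟩ := hP q hq
  have hodd : Odd q := by
    rw [Nat.odd_iff]
    omega
  have hm : (jacobiSym (-1 : ℤ) q = 1 ∨ jacobiSym (-1 : ℤ) q = -1) ∧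
      sg (jacobiSym (-1 : ℤ) q) = nn q := by
    rw [jacobiSym.at_neg_one hodd]
    rcases hq8 with h | h
    · rw [ZMod.χ₄_nat_one_mod_four (by omega)]
      refine ⟨Or.inl rfl, ?_⟩
      simp [sg, nn, h]
    · rw [ZMod.χ₄_nat_three_mod_four (by omega)]
      refine ⟨Or.inr rfl, ?_⟩
      simp [sg, nn, h]
  have he : jacobiSym (-(pp S : ℤ)) q = jacobiSym (-1 : ℤ) q * jacobiSym (pp S : ℤ) q := by
    rw [← jacobiSym.mul_left]
    congr 1
    ring
  have hpm : jacobiSym (-1 : ℤ) q * jacobiSym (pp S : ℤ) q = 1 ∨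
      jacobiSym (-1 : ℤ) q * jacobiSym (pp S : ℤ) q = -1 := by
    rcases hm.1 with hj | hj <;> rcases h1 with h1 | h1 <;> rw [hj, h1] <;> norm_num
  unfold ww
  rw [he, sg_one hpm, sg_mul hm.1 h1, hm.2, h2, add_assoc]

end Pool.Agent.TQG
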