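import Pool.Agent.TQG.Defs

/-!
Project TQG, module TRE (combinatorics, definition `arb` only): the sum over subtrees.

Expand `∏_{j ∈ P \ S} (x j + ∑_{i ∈ S} a j i)` over choices (`Finset.prod_add`/`Finset.prod_univ_sum`,
or `Finset.prod_sum` over `Option`): the left side is the sum of the weights `∏_{j ∈ P \ {r}} w j (g j)`
(`w j none = x j`, `w j (some i) = a j i`) over the pairs `(S, g)`, `r ∈ S ⊆ P`, `g` a function from
`P \ {r}` to `P ∪ {none}`, such that `g j ∈ S` for `j ∈ S \ {r}`, `g j ∈ S ∪ {none}` for `j ∈ P \ S`, and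
every `j ∈ S` reaches `r` under iteration of `g`. For fixed `g` let `D = {j | g j ≠ none}`. If `D = ∅`
the only valid `S` is `{r}`, and the weight is the right side. If `D ≠ ∅` the number of valid `S` is
even: if some `l ∈ D` is not a value of `g` then `S ↦ symmDiff S {l}` is a fixed point free involution
of the valid `S` (if `S` is valid and `l ∉ S`, then `g l ∈ S` and `S ∪ {l}` is valid; if `l ∈ S` then
`S \ {l}` is valid, nobody has parent `l`). Otherwise every element of `D` is a value of `g` on `D`, so
`g` permutes `D`, no element of `D` reaches `r`; but a valid `S` would contain, for `j ∈ D`, the element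
`g j ∈ S ∩ D`, a contradiction: there is no valid `S`. Everything is modulo 2.
Suggestion: both sides are linear in each row `(a j, x j)`, so it suffices to treat the case where each
row is a unit vector; or use `Finset.sum_involution` on the pairs.
-/

namespace Pool.Agent.TQG

/-- The weight of a choice. -/
private def treW {ι : Type} (a : ι → ι → ZMod 2) (x : ι → ZMod 2) (j : ι) : Option ι → ZMod 2
  | none => x j
  | some i => a j i

/-- Valid pairs. -/
private def treV {ι : Type} [DecidableEq ι] (P : Finset ι) (r : ι) (S : Finset ι)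
    (g : ι → Option ι) : Prop :=
  (∀ j, j ∉ P.erase r → g j = none) ∧ (∀ j ∈ S, j ≠ r → ∃ i ∈ S, g j = some i) ∧
    (∀ j ∈ P \ S, g j = none ∨ ∃ i ∈ S, g j = some i) ∧
    (∀ j ∈ S, ∃ n : ℕ, (fun j => (g j).getD r)^[n] j = r)

private theorem tre_iter {ι : Type} (S : Finset ι) (f φ : ι → ι) (h1 : ∀ j ∈ S, f j ∈ S)
    (h2 : ∀ j ∈ S, f j = φ j) : ∀ n : ℕ, ∀ j ∈ S, f^[n] j = φ^[n] j := by
  intro n
  induction n with
  | zero => intro j _; rfl
  | succ n ih =>
    intro j hj
    rw [Function.iterate_succ_apply, Function.iterate_succ_apply, ih _ (h1 j hj), h2 j hj]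

private theorem tre_one {ι : Type} [Fintype ι] [DecidableEq ι] (a : ι → ι → ZMod 2)
    (x : ι → ZMod 2) (r : ι) (P S : Finset ι) (hrS : r ∈ S) (hSP : S ⊆ P)
    [DecidablePred fun g => treV P r S g] :
    arb a r S * ∏ j ∈ P \ S, (x j + ∑ i ∈ S, a j i) =
      ∑ g : ι → Option ι with treV P r S g, ∏ j ∈ P.erase r, treW a x j (g j) := by
  classical
  have hprod : ∏ j ∈ P \ S, (x j + ∑ i ∈ S, a j i) =
      ∑ h ∈ Fintype.piFinset (fun j => if j ∈ P \ S then insert none (S.image some)
        else ({none} : Finset (Option ι))), ∏ j ∈ P \ S, treW a x j (h j) := by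
    have h1 := Finset.prod_univ_sum (fun j => if j ∈ P \ S then insert none (S.image some)
        else ({none} : Finset (Option ι)))
        (fun j o => if j ∈ P \ S then treW a x j o else (1 : ZMod 2))
    have h2 : ∀ h : ι → Option ι, ∏ j, (if j ∈ P \ S then treW a x j (h j) else (1 : ZMod 2)) =
        ∏ j ∈ P \ S, treW a x j (h j) := by
      intro h
      rw [Finset.prod_ite_mem, Finset.univ_inter]
    simp only [h2] at h1
    rw [← h1, ← Finset.prod_subset (Finset.subset_univ (P \ S))]
    · apply Finset.prod_congr rfl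
      intro j hj
      rw [if_pos hj]
      simp only [if_pos hj]
      rw [Finset.sum_insert (by simp), Finset.sum_image (by intro _ _ _ _ h; exact Option.some.inj h)]
      rfl
    · intro j _ hj
      simp [hj]
  rw [hprod]
  unfold arb
  rw [Finset.sum_mul_sum, ← Finset.sum_product']
  refine Finset.sum_bij' (fun q _ => fun j => if j ∈ S.erase r then some (q.1 j) else q.2 j)
    (fun g _ => (fun j => if j ∈ S.erase r then (g j).getD r else r,
      fun j => if j ∈ P \ S then g j else none)) ?_ ?_ ?_ ?_ ?_
  · rintro ⟨f, h⟩ hq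
    simp only [Finset.mem_product, Finset.mem_filter, Finset.mem_univ, true_and,
      Fintype.mem_piFinset] at hq
    obtain ⟨⟨hf1, hf2, hf3, hf4⟩, hh⟩ := hq
    simp only [Finset.mem_filter, Finset.mem_univ, true_and]
    have hhn : ∀ j, j ∉ P \ S → h j = none := by
      intro j hj
      have := hh j
      rw [if_neg hj] at this
      simpa using this
    refine ⟨?_, ?_, ?_, ?_⟩
    · intro j hj
      have hjS : j ∉ S.erase r := fun h' => hj (Finset.erase_subset_erase r hSP h')
      beta_reduce
      rw [if_neg hjS]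
      apply hhn
      intro h'
      rw [Finset.mem_sdiff] at h'
      apply hj
      rw [Finset.mem_erase]
      exact ⟨fun h3 => h'.2 (h3 ▸ hrS), h'.1⟩
    · intro j hj hjr
      exact ⟨f j, hf3 j hj, if_pos (Finset.mem_erase.mpr ⟨hjr, hj⟩)⟩
    · intro j hj
      have hjS : j ∉ S.erase r := fun h' => (Finset.mem_sdiff.mp hj).2 (Finset.mem_of_mem_erase h')
      beta_reduce
      rw [if_neg hjS]
      have := hh j
      rw [if_pos hj] at this
      simp only [Finset.mem_insert, Finset.mem_image] at this
      rcases this with h' | ⟨i, hi, h'⟩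
      · exact Or.inl h'
      · exact Or.inr ⟨i, hi, h'.symm⟩
    · intro j hj
      obtain ⟨n, hn⟩ := hf4 j
      refine ⟨n, ?_⟩
      rw [← tre_iter S f _ hf3 ?_ n j hj]
      · exact hn
      · intro i hi
        beta_reduce
        by_cases hir : i = r
        · subst hir
          rw [if_neg (by simp), hhn i (by simp [hrS]), hf1]
          rfl
        · rw [if_pos (Finset.mem_erase.mpr ⟨hir, hi⟩)]
          rfl
  · intro g hg
    simp only [Finset.mem_filter, Finset.mem_univ, true_and] at hg
    obtain ⟨hg1, hg2, hg3, hg4⟩ := hg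
    simp only [Finset.mem_product, Finset.mem_filter, Finset.mem_univ, true_and,
      Fintype.mem_piFinset]
    have hstep : ∀ j ∈ S, (if j ∈ S.erase r then (g j).getD r else r) ∈ S := by
      intro j hj
      by_cases hjr : j = r
      · rw [if_neg (by simp [hjr])]; exact hrS
      · rw [if_pos (Finset.mem_erase.mpr ⟨hjr, hj⟩)]
        obtain ⟨i, hi, hi2⟩ := hg2 j hj hjr
        rw [hi2]
        exact hi
    refine ⟨⟨?_, ?_, hstep, ?_⟩, ?_⟩
    · simp
    · intro j hj
      rw [if_neg (fun h' => hj (Finset.mem_of_mem_erase h'))]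
    · intro j
      by_cases hj : j ∈ S
      · obtain ⟨n, hn⟩ := hg4 j hj
        refine ⟨n, ?_⟩
        rw [tre_iter S _ (fun j => (g j).getD r) hstep ?_ n j hj]
        · exact hn
        · intro i hi
          by_cases hir : i = r
          · rw [if_neg (by simp [hir]), hg1 i (by simp [hir])]
            rfl
          · rw [if_pos (Finset.mem_erase.mpr ⟨hir, hi⟩)]
      · refine ⟨1, ?_⟩
        rw [Function.iterate_one, if_neg (fun h' => hj (Finset.mem_of_mem_erase h'))]
    · intro j
      by_cases hj : j ∈ P \ S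
      · rw [if_pos hj, if_pos hj]
        simp only [Finset.mem_insert, Finset.mem_image]
        rcases hg3 j hj with h' | ⟨i, hi, h'⟩
        · exact Or.inl h'
        · exact Or.inr ⟨i, hi, h'.symm⟩
      · rw [if_neg hj, if_neg hj]
        simp
  · rintro ⟨f, h⟩ hq
    simp only [Finset.mem_product, Finset.mem_filter, Finset.mem_univ, true_and,
      Fintype.mem_piFinset] at hq
    obtain ⟨⟨hf1, hf2, hf3, hf4⟩, hh⟩ := hq
    have hhn : ∀ j, j ∉ P \ S → h j = none := by
      intro j hj
      have := hh j
      rw [if_neg hj] at this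
      simpa using this
    ext1
    · funext j
      show (if j ∈ S.erase r then (if j ∈ S.erase r then some (f j) else h j).getD r else r) = f j
      by_cases hj : j ∈ S.erase r
      · rw [if_pos hj, if_pos hj]; rfl
      · rw [if_neg hj]
        by_cases hjr : j = r
        · rw [hjr, hf1]
        · exact (hf2 j (fun h' => hj (Finset.mem_erase.mpr ⟨hjr, h'⟩))).symm
    · funext j
      show (if j ∈ P \ S then (if j ∈ S.erase r then some (f j) else h j) else none) = h j
      by_cases hj : j ∈ P \ S
      · rw [if_pos hj, if_neg (fun h' => (Finset.mem_sdiff.mp hj).2 (Finset.mem_of_mem_erase h'))]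
      · rw [if_neg hj, hhn j hj]
  · intro g hg
    simp only [Finset.mem_filter, Finset.mem_univ, true_and] at hg
    obtain ⟨hg1, hg2, hg3, hg4⟩ := hg
    funext j
    show (if j ∈ S.erase r then some (if j ∈ S.erase r then (g j).getD r else r)
      else (if j ∈ P \ S then g j else none)) = g j
    by_cases hj : j ∈ S.erase r
    · rw [if_pos hj, if_pos hj]
      obtain ⟨i, _, hi2⟩ := hg2 j (Finset.mem_of_mem_erase hj) (Finset.ne_of_mem_erase hj)
      rw [hi2]
      rfl
    · rw [if_neg hj]
      by_cases hj2 : j ∈ P \ S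
      · rw [if_pos hj2]
      · rw [if_neg hj2]
        symm
        apply hg1
        intro h'
        apply hj
        rw [Finset.mem_erase] at h' ⊢
        refine ⟨h'.1, ?_⟩
        by_contra h3
        exact hj2 (Finset.mem_sdiff.mpr ⟨h'.2, h3⟩)
  · rintro ⟨f, h⟩ _
    show (∏ j ∈ S.erase r, a j (f j)) * ∏ j ∈ P \ S, treW a x j (h j) =
      ∏ j ∈ P.erase r, treW a x j (if j ∈ S.erase r then some (f j) else h j)
    have hu : P.erase r = (S.erase r) ∪ (P \ S) := by
      ext j
      simp only [Finset.mem_erase, Finset.mem_union, Finset.mem_sdiff]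
      constructor
      · rintro ⟨h1, h2⟩
        by_cases h3 : j ∈ S
        · exact Or.inl ⟨h1, h3⟩
        · exact Or.inr ⟨h2, h3⟩
      · rintro (⟨h1, h2⟩ | ⟨h1, h2⟩)
        · exact ⟨h1, hSP h2⟩
        · exact ⟨fun h3 => h2 (h3 ▸ hrS), h1⟩
    have hd : Disjoint (S.erase r) (P \ S) := by
      rw [Finset.disjoint_left]
      intro j h1 h2
      exact (Finset.mem_sdiff.mp h2).2 (Finset.mem_of_mem_erase h1)
    rw [hu, Finset.prod_union hd]
    congr 1
    · apply Finset.prod_congr rfl
      intro j hj
      rw [if_pos hj]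
      rfl
    · apply Finset.prod_congr rfl
      intro j hj
      rw [if_neg (fun h' => (Finset.mem_sdiff.mp hj).2 (Finset.mem_of_mem_erase h'))]

private theorem tre_count {ι : Type} [Fintype ι] [DecidableEq ι] (r : ι) (P : Finset ι)
    (g : ι → Option ι) (hg0 : ∀ j, j ∉ P.erase r → g j = none)
    (hg : ∃ j, g j ≠ none) [DecidablePred fun S => treV P r S g] :
    ∑ S ∈ P.powerset with r ∈ S, (if treV P r S g then (1 : ZMod 2) else 0) = 0 := by
  classical
  by_cases hA : ∃ l, g l ≠ none ∧ ∀ j, g j ≠ some l
  · obtain ⟨l, hl, hl2⟩ := hA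
    have hlP : l ∈ P.erase r := by
      by_contra h
      exact hl (hg0 l h)
    have hlr : l ≠ r := Finset.ne_of_mem_erase hlP
    have hlP' : l ∈ P := Finset.mem_of_mem_erase hlP
    rw [← Finset.sum_filter]
    -- the involution
    have hmem : ∀ S, S ∈ (P.powerset.filter (fun S => r ∈ S)).filter (fun S => treV P r S g) →
        (if l ∈ S then S.erase l else insert l S) ∈
          (P.powerset.filter (fun S => r ∈ S)).filter (fun S => treV P r S g) := by
      intro S hS
      simp only [Finset.mem_filter, Finset.mem_powerset] at hS ⊢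
      obtain ⟨⟨hSP, hrS⟩, hg1, hg2, hg3, hg4⟩ := hS
      by_cases hlS : l ∈ S
      · rw [if_pos hlS]
        refine ⟨⟨(Finset.erase_subset _ _).trans hSP, Finset.mem_erase.mpr ⟨hlr.symm, hrS⟩⟩,
          hg1, ?_, ?_, ?_⟩
        · intro j hj hjr
          obtain ⟨i, hi, hi2⟩ := hg2 j (Finset.mem_of_mem_erase hj) hjr
          exact ⟨i, Finset.mem_erase.mpr ⟨fun h => hl2 j (h ▸ hi2), hi⟩, hi2⟩
        · intro j hj
          rw [Finset.mem_sdiff, Finset.mem_erase] at hj
          by_cases hjl : j = l
          · subst hjl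
            obtain ⟨i, hi, hi2⟩ := hg2 j hlS hlr
            exact Or.inr ⟨i, Finset.mem_erase.mpr ⟨fun h => hl2 j (h ▸ hi2), hi⟩, hi2⟩
          · rcases hg3 j (Finset.mem_sdiff.mpr ⟨hj.1, fun h => hj.2 ⟨hjl, h⟩⟩) with h' | ⟨i, hi, hi2⟩
            · exact Or.inl h'
            · exact Or.inr ⟨i, Finset.mem_erase.mpr ⟨fun h => hl2 j (h ▸ hi2), hi⟩, hi2⟩
        · intro j hj
          exact hg4 j (Finset.mem_of_mem_erase hj)
      · rw [if_neg hlS]
        have hl3 : ∃ i ∈ S, g l = some i := by
          rcases hg3 l (Finset.mem_sdiff.mpr ⟨hlP', hlS⟩) with h' | h'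
          · exact absurd h' hl
          · exact h'
        obtain ⟨i0, hi0, hi02⟩ := hl3
        refine ⟨⟨Finset.insert_subset hlP' hSP, Finset.mem_insert_of_mem hrS⟩, hg1, ?_, ?_, ?_⟩
        · intro j hj hjr
          rcases Finset.mem_insert.mp hj with h | h
          · exact ⟨i0, Finset.mem_insert_of_mem hi0, h ▸ hi02⟩
          · obtain ⟨i, hi, hi2⟩ := hg2 j h hjr
            exact ⟨i, Finset.mem_insert_of_mem hi, hi2⟩
        · intro j hj
          rw [Finset.mem_sdiff, Finset.mem_insert] at hj
          rcases hg3 j (Finset.mem_sdiff.mpr ⟨hj.1, fun h => hj.2 (Or.inr h)⟩) with h' | ⟨i, hi, hi2⟩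
          · exact Or.inl h'
          · exact Or.inr ⟨i, Finset.mem_insert_of_mem hi, hi2⟩
        · intro j hj
          rcases Finset.mem_insert.mp hj with h | h
          · obtain ⟨n, hn⟩ := hg4 i0 hi0
            refine ⟨n + 1, ?_⟩
            rw [Function.iterate_succ_apply, h]
            show (fun j => (g j).getD r)^[n] ((g l).getD r) = r
            rw [hi02]
            exact hn
          · exact hg4 j h
    refine Finset.sum_involution (fun S _ => if l ∈ S then S.erase l else insert l S) ?_ ?_ ?_ ?_
    · intro S _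
      decide
    · intro S _ _ h
      by_cases hlS : l ∈ S
      · rw [if_pos hlS] at h
        have := Finset.notMem_erase l S
        rw [h] at this
        exact this hlS
      · rw [if_neg hlS] at h
        apply hlS
        rw [← h]
        exact Finset.mem_insert_self l S
    · intro S hS
      exact hmem S hS
    · intro S _
      by_cases hlS : l ∈ S
      · simp only [if_pos hlS, if_neg (Finset.notMem_erase l S)]
        exact Finset.insert_erase hlS
      · simp only [if_neg hlS, if_pos (Finset.mem_insert_self l S)]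
        exact Finset.erase_insert hlS
  · push Not at hA
    -- every element of D is a value of g
    apply Finset.sum_eq_zero
    intro S hS
    rw [if_neg]
    rintro ⟨hg1, hg2, hg3, hg4⟩
    simp only [Finset.mem_filter, Finset.mem_powerset] at hS
    obtain ⟨hSP, hrS⟩ := hS
    set D : Finset ι := Finset.univ.filter (fun j => g j ≠ none) with hD
    set φ : ι → ι := fun j => (g j).getD r with hφ
    have hgr : g r = none := hg0 r (by simp)
    have hsub : D ⊆ D.image φ := by
      intro l hl
      rw [hD, Finset.mem_filter] at hl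
      obtain ⟨j, hj⟩ := hA l hl.2
      rw [Finset.mem_image]
      refine ⟨j, ?_, ?_⟩
      · rw [hD, Finset.mem_filter]
        exact ⟨Finset.mem_univ _, by rw [hj]; simp⟩
      · rw [hφ]; simp [hj]
    have heq : D = D.image φ := Finset.eq_of_subset_of_card_le hsub Finset.card_image_le
    have hDst : ∀ j ∈ D, φ j ∈ D := by
      intro j hj
      rw [heq]
      exact Finset.mem_image_of_mem φ hj
    have hDit : ∀ n : ℕ, ∀ j ∈ D, φ^[n] j ∈ D := by
      intro n
      induction n with
      | zero => intro j hj; exact hj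
      | succ n ih =>
        intro j hj
        rw [Function.iterate_succ_apply]
        exact ih _ (hDst j hj)
    have hrD : r ∉ D := by
      rw [hD, Finset.mem_filter]
      push Not
      intro _
      exact hgr
    have hfin : ∀ j ∈ S, j ∉ D := by
      intro j hj hjD
      obtain ⟨n, hn⟩ := hg4 j hj
      apply hrD
      rw [← hn]
      exact hDit n j hjD
    obtain ⟨j, hj⟩ := hg
    have hjD : j ∈ D := by rw [hD, Finset.mem_filter]; exact ⟨Finset.mem_univ _, hj⟩
    have hjP : j ∈ P := by
      by_contra h
      exact hj (hg0 j (fun h' => h (Finset.mem_of_mem_erase h')))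
    have hjS : j ∉ S := fun h => hfin j h hjD
    rcases hg3 j (Finset.mem_sdiff.mpr ⟨hjP, hjS⟩) with h' | ⟨i, hi, hi2⟩
    · exact hj h'
    · apply hfin i hi
      have : φ j = i := by rw [hφ]; simp [hi2]
      rw [← this]
      exact hDst j hjD

private theorem tre_count_none {ι : Type} [Fintype ι] [DecidableEq ι] (r : ι) (P : Finset ι)
    (hr : r ∈ P) [DecidablePred fun S => treV P r S (fun _ => none)] :
    ∑ S ∈ P.powerset with r ∈ S, (if treV P r S (fun _ => none) then (1 : ZMod 2) else 0) = 1 := by
  classical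
  rw [Finset.sum_eq_single {r}]
  · rw [if_pos]
    refine ⟨fun _ _ => rfl, ?_, fun _ _ => Or.inl rfl, ?_⟩
    · intro j hj hjr
      exact absurd (Finset.mem_singleton.mp hj) hjr
    · intro j hj
      exact ⟨0, Finset.mem_singleton.mp hj⟩
  · intro S hS hSr
    simp only [Finset.mem_filter, Finset.mem_powerset] at hS
    rw [if_neg]
    rintro ⟨_, hg2, _, _⟩
    apply hSr
    ext j
    rw [Finset.mem_singleton]
    constructor
    · intro hj
      by_contra hjr
      obtain ⟨i, _, hi⟩ := hg2 j hj hjr
      exact absurd hi (by simp)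
    · intro hj
      rw [hj]
      exact hS.2
  · intro h
    exfalso
    apply h
    simp [hr]

theorem tre {ι : Type} [Fintype ι] [DecidableEq ι] (a : ι → ι → ZMod 2) (x : ι → ZMod 2) (r : ι)
    (P : Finset ι) (hr : r ∈ P) :
    ∑ S ∈ P.powerset with r ∈ S, arb a r S * ∏ j ∈ P \ S, (x j + ∑ i ∈ S, a j i) =
      ∏ j ∈ P.erase r, x j := by
  classical
  have h1 : ∑ S ∈ P.powerset with r ∈ S, arb a r S * ∏ j ∈ P \ S, (x j + ∑ i ∈ S, a j i) =
      ∑ S ∈ P.powerset with r ∈ S, ∑ g : ι → Option ι,
        (if treV P r S g then (1 : ZMod 2) else 0) * ∏ j ∈ P.erase r, treW a x j (g j) := by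
    apply Finset.sum_congr rfl
    intro S hS
    simp only [Finset.mem_filter, Finset.mem_powerset] at hS
    rw [tre_one a x r P S hS.2 hS.1, Finset.sum_filter]
    apply Finset.sum_congr rfl
    intro g _
    split_ifs <;> simp
  rw [h1, Finset.sum_comm]
  have h2 : ∀ g : ι → Option ι, ∑ S ∈ P.powerset with r ∈ S,
      (if treV P r S g then (1 : ZMod 2) else 0) * ∏ j ∈ P.erase r, treW a x j (g j) =
      (∑ S ∈ P.powerset with r ∈ S, (if treV P r S g then (1 : ZMod 2) else 0)) *
        ∏ j ∈ P.erase r, treW a x j (g j) := by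
    intro g
    rw [Finset.sum_mul]
  simp only [h2]
  rw [Finset.sum_eq_single (fun _ => none)]
  · rw [tre_count_none r P hr, one_mul]
    rfl
  · intro g _ hg
    have hex : ∃ j, g j ≠ none := by
      by_contra h
      push Not at h
      exact hg (funext h)
    by_cases hg0 : ∀ j, j ∉ P.erase r → g j = none
    · rw [tre_count r P g hg0 hex, zero_mul]
    · rw [Finset.sum_eq_zero, zero_mul]
      intro S _
      rw [if_neg]
      intro h
      exact hg0 h.1
  · intro h
    exact absurd (Finset.mem_univ _) h

end Pool.Agent.TQG
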