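import Pool.Agent.TQG.Yrc
import Pool.Agent.TQG.Leg
import Pool.Agent.TQG.Tre

/-!
Project TQG, module YFI: the numbers `yy` are sums over arborescences.

`a j i = ee (p j) (p i)`, `λ r = lam (p r)`. Strong induction on `|U|`, `U` a nonempty subset of `ι`,
`P = U.image p`, `GP P`. The claimed value `K U = ∑_{r ∈ U} λ r * arb a r U` satisfies the recursion of
`yrc`: `∑_{∅ ≠ V ⊆ U} K V * ∏_{j ∈ U \ V} ww (V.image p) (p j)
= ∑_{r ∈ U} λ r ∑_{r ∈ V ⊆ U} arb a r V * ∏_{j ∈ U \ V} (1 + nn (p j) + ∑_{i ∈ V} a j i)` (`leg`)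
`= ∑_{r ∈ U} λ r ∏_{j ∈ U \ {r}} (1 + nn (p j))` (`tre` with `x j = 1 + nn (p j)`) `= cc (U.image p)`.
The subsets of `U.image p` are the images of the subsets of `U` (`p` injective). As the term `V = U`
has coefficient 1, the recursions give `yy (U.image p) = K U`.
-/

namespace Pool.Agent.TQG

private theorem yfi_prod {ι : Type} [Fintype ι] [DecidableEq ι] (p : ι → ℕ)
    (hp : Function.Injective p)
    (hP : ∀ i, (p i).Prime ∧ (p i % 8 = 1 ∨ p i % 8 = 7)) (U V : Finset ι) (hV : V ⊆ U) :
    ∏ q ∈ U.image p \ V.image p, ww (V.image p) q =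
      ∏ j ∈ U \ V, ((1 + nn (p j)) + ∑ i ∈ V, ee (p j) (p i)) := by
  have hGP : GP (U.image p) := by
    intro q hq
    obtain ⟨i, _, rfl⟩ := Finset.mem_image.mp hq
    exact hP i
  have h1 : U.image p \ V.image p = (U \ V).image p := by
    rw [Finset.image_sdiff _ _ hp]
  rw [h1, Finset.prod_image (fun _ _ _ _ h => hp h)]
  apply Finset.prod_congr rfl
  intro j hj
  rw [leg hGP (Finset.image_subset_image hV) (Finset.mem_image_of_mem p (Finset.mem_sdiff.mp hj).1)
    ?_, Finset.sum_image (fun _ _ _ _ h => hp h)]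
  intro h
  obtain ⟨i, hi, hij⟩ := Finset.mem_image.mp h
  rw [hp hij] at hi
  exact (Finset.mem_sdiff.mp hj).2 hi

private theorem yfi_rec {ι : Type} [Fintype ι] [DecidableEq ι] (p : ι → ℕ)
    (hp : Function.Injective p)
    (hP : ∀ i, (p i).Prime ∧ (p i % 8 = 1 ∨ p i % 8 = 7)) (U : Finset ι) :
    ∑ V ∈ U.powerset with V.Nonempty,
      (∑ r ∈ V, lam (p r) * arb (fun j i => ee (p j) (p i)) r V) *
        ∏ q ∈ U.image p \ V.image p, ww (V.image p) q = cc (U.image p) := by
  classical
  set a : ι → ι → ZMod 2 := fun j i => ee (p j) (p i) with ha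
  set x : ι → ZMod 2 := fun j => 1 + nn (p j) with hx
  have h1 : ∑ V ∈ U.powerset with V.Nonempty, (∑ r ∈ V, lam (p r) * arb a r V) *
        ∏ q ∈ U.image p \ V.image p, ww (V.image p) q =
      ∑ V ∈ U.powerset, ∑ r ∈ U, if r ∈ V then
        lam (p r) * (arb a r V * ∏ j ∈ U \ V, (x j + ∑ i ∈ V, a j i)) else 0 := by
    rw [Finset.sum_filter]
    apply Finset.sum_congr rfl
    intro V hV
    rw [Finset.mem_powerset] at hV
    rw [← Finset.sum_filter]
    have h2 : (U.filter fun r => r ∈ V) = V := by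
      ext i
      rw [Finset.mem_filter]
      exact ⟨fun h => h.2, fun h => ⟨hV h, h⟩⟩
    rw [h2]
    by_cases hne : V.Nonempty
    · rw [if_pos hne, yfi_prod p hp hP U V hV, Finset.sum_mul]
      apply Finset.sum_congr rfl
      intro r _
      rw [mul_assoc]
    · rw [if_neg hne, Finset.not_nonempty_iff_eq_empty.mp hne, Finset.sum_empty]
  rw [h1, Finset.sum_comm]
  unfold cc
  rw [Finset.sum_image (fun _ _ _ _ h => hp h)]
  apply Finset.sum_congr rfl
  intro r hr
  rw [← Finset.sum_filter, ← Finset.mul_sum, tre a x r U hr]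
  congr 1
  rw [← Finset.image_erase hp, Finset.prod_image (fun _ _ _ _ h => hp h)]

theorem yfi {ι : Type} [Fintype ι] [DecidableEq ι] (p : ι → ℕ) (hp : Function.Injective p)
    (hP : ∀ i, (p i).Prime ∧ (p i % 8 = 1 ∨ p i % 8 = 7)) (U : Finset ι) (hU : U.Nonempty) :
    (yy (U.image p) : ZMod 2) =
      ∑ r ∈ U, lam (p r) * arb (fun j i => ee (p j) (p i)) r U := by
  classical
  induction U using Finset.strongInduction with
  | H U ih =>
    have hGP : GP (U.image p) := by
      intro q hq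
      obtain ⟨i, _, rfl⟩ := Finset.mem_image.mp hq
      exact hP i
    have h1 := yrc hGP (hU.image p)
    have h2 := yfi_rec p hp hP U
    have hfil : (U.image p).powerset.filter (fun S => S.Nonempty) =
        (U.powerset.filter (fun V => V.Nonempty)).image (Finset.image p) := by
      ext S
      rw [Finset.mem_filter, Finset.powerset_image, Finset.mem_image, Finset.mem_image]
      constructor
      · rintro ⟨⟨V, hV, rfl⟩, hS⟩
        exact ⟨V, Finset.mem_filter.mpr ⟨hV, Finset.image_nonempty.mp hS⟩, rfl⟩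
      · rintro ⟨V, hV, rfl⟩
        rw [Finset.mem_filter] at hV
        exact ⟨⟨V, hV.1, rfl⟩, hV.2.image p⟩
    rw [hfil, Finset.sum_image (fun _ _ _ _ h => Finset.image_injective hp h)] at h1
    have hmem : U ∈ U.powerset.filter (fun V => V.Nonempty) :=
      Finset.mem_filter.mpr ⟨Finset.mem_powerset_self U, hU⟩
    rw [← Finset.add_sum_erase _ _ hmem] at h1 h2
    have h3 : ∑ V ∈ (U.powerset.filter (fun V => V.Nonempty)).erase U,
        (yy (V.image p) : ZMod 2) * ∏ q ∈ U.image p \ V.image p, ww (V.image p) q =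
        ∑ V ∈ (U.powerset.filter (fun V => V.Nonempty)).erase U,
          (∑ r ∈ V, lam (p r) * arb (fun j i => ee (p j) (p i)) r V) *
          ∏ q ∈ U.image p \ V.image p, ww (V.image p) q := by
      apply Finset.sum_congr rfl
      intro V hV
      rw [Finset.mem_erase, Finset.mem_filter, Finset.mem_powerset] at hV
      rw [ih V (Finset.ssubset_iff_subset_ne.mpr ⟨hV.2.1, hV.1⟩) hV.2.2]
    rw [h3, ← h2] at h1
    have h4 := add_right_cancel h1
    simpa using h4

end Pool.Agent.TQG
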