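import Pool.Agent.TQG.Ind
import Pool.Agent.TQG.Tun
import Pool.Agent.TQG.Yfi
import Pool.Agent.TQG.Mtt

/-!
Project TQG, module FIN: the theorem.

`P = univ.image p`, `pp P = ∏ p i`, `|P| = k + 1`. `2 |C| - |D| = 4 mc0 - 2 (mc0 + mc1) = 2 (mc0 - mc1)`
(`tun_C`, `tun_D`, `mc_add`), congruent to `TT (pp P) = 2 ^ (|P| + 2) * yy P` modulo `2 ^ (|P| + 3)`
(`ind`, `yrc_dvd`), and `yy P` is congruent modulo 2 to the determinant (`yfi`, `lap_col`).
-/

namespace Pool.Agent.TQG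

open Pool.Agent.H24

theorem fin (k : ℕ) (p : Fin (k + 1) → ℕ) (hp : ∀ i, (p i).Prime)
    (hinj : Function.Injective p) (h8 : ∀ i, p i % 8 = 1 ∨ p i % 8 = 7)
    (hm : (∏ i, p i) % 8 = 1) :
    2 * (cardC (2 * ∏ i, p i) : ℤ) - (cardD (2 * ∏ i, p i) : ℤ) ≡
      2 ^ (k + 3) * ((((lap fun j i => ee (p j) (p i)).updateCol 0 fun i => lam (p i)).det).val : ℤ)
      [ZMOD 2 ^ (k + 4)] := by
  classical
  have hcard : (Finset.univ.image p).card = k + 1 := by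
    rw [Finset.card_image_of_injective _ hinj, Finset.card_univ, Fintype.card_fin]
  have hpp : pp (Finset.univ.image p) = ∏ i, p i := by
    unfold pp
    rw [Finset.prod_image (fun x _ y _ h => hinj h)]
  have hGP : GP (Finset.univ.image p) := by
    intro q hq
    obtain ⟨i, _, rfl⟩ := Finset.mem_image.1 hq
    exact ⟨hp i, h8 i⟩
  have hne : (Finset.univ.image p).Nonempty :=
    ⟨p 0, Finset.mem_image.2 ⟨0, Finset.mem_univ _, rfl⟩⟩
  have hy := yfi p hinj (fun i => ⟨hp i, h8 i⟩) Finset.univ Finset.univ_nonempty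
  rw [← lap_col (fun j i => ee (p j) (p i)) 0 (fun i => lam (p i))] at hy
  obtain ⟨y, hy'⟩ := yrc_dvd hGP hne
  have hyy : yy (Finset.univ.image p) = y := by
    unfold yy
    rw [hy', Nat.mul_div_cancel_left _ (by positivity)]
  rw [hyy] at hy
  have hI := ind hGP hne (by rw [hpp]; exact hm)
  rw [hpp, hcard] at hI hy'
  rw [tun_C hm, tun_D hm, mc_add hm (Or.inr rfl)]
  rw [← hy]
  have hpar : ((2 : ℕ) : ℤ) ∣ (y : ℤ) - (((y : ZMod 2).val : ℕ) : ℤ) := by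
    rw [← ZMod.intCast_zmod_eq_zero_iff_dvd _ 2] at *
    push_cast
    rw [ZMod.natCast_zmod_val, sub_self]
  obtain ⟨z, hz⟩ := hpar
  obtain ⟨t, ht⟩ := hI
  rw [hy'] at ht
  refine Int.modEq_iff_dvd.2 ⟨-(t + z), ?_⟩
  push_cast at ht hz ⊢
  have h1 : (2 : ℤ) ^ (k + 4) = 2 * 2 ^ (k + 3) := by ring
  have h2 : (2 : ℤ) ^ (k + 1 + 3) = 2 * 2 ^ (k + 3) := by ring
  have h3 : (2 : ℤ) ^ (k + 1 + 2) = 2 ^ (k + 3) := by ring
  rw [h2, h3] at ht
  rw [h1]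
  linear_combination -ht - 2 ^ (k + 3) * hz

end Pool.Agent.TQG
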