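import Mathlib
import Pool.Agent.TQS.Base
import Pool.Agent.H24.Defs

/-!
Project TQG (MP_f126a2_nt, Tunnell converse for even n, ALL numbers of prime factors), definitions.

`P` is always a finite set of primes which are 1 or 7 modulo 8, `pp P` its product.
`QQ m`: integral quaternions of norm `m` congruent to `1` or `i + j + k` modulo 2;
`NN m`: those with positive real part. `act` (from TQS) is the action of the dihedral group
`G = DihedralGroup 4` by automorphisms; `nm` (from TQS) changes the sign so that `re > 0`.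
-/

namespace Pool.Agent.TQG

open Pool.Agent.TQS Quaternion

/-- The product of a finite set of natural numbers. -/
def pp (S : Finset ℕ) : ℕ := ∏ q ∈ S, q

/-- A finite set of primes which are 1 or 7 modulo 8. -/
def GP (P : Finset ℕ) : Prop := ∀ q ∈ P, q.Prime ∧ (q % 8 = 1 ∨ q % 8 = 7)

/-- Integral quaternions of norm `m` congruent to `1` or `i + j + k` modulo 2. -/
def QQ (m : ℕ) : Set H :=
  {a | (a.re + a.imI) % 2 = 1 ∧ (a.imI + a.imJ) % 2 = 0 ∧ (a.imI + a.imK) % 2 = 0 ∧
    normSq a = (m : ℤ)}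

/-- Those with positive real part. -/
def NN (m : ℕ) : Set H := {a | a ∈ QQ m ∧ 0 < a.re}

/-- The left divisor of `a` in `NN (pp S)` (unique for `a` in `QQ (pp P)`, `S ⊆ P`). -/
noncomputable def L (S : Finset ℕ) (a : H) : H := by
  classical exact if h : ∃ b ∈ NN (pp S), b ∣ a then h.choose else 1

/-- The cofactor: `a = L S a * R S a`. -/
noncomputable def R (S : Finset ℕ) (a : H) : H := by
  classical exact if h : ∃ c, a = L S a * c then h.choose else a

/-- The swap: `b * c` becomes `c * b`, where `b = L S a`. -/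
noncomputable def sw (S : Finset ℕ) (a : H) : H := R S a * L S a

/-- The change of base vertex. -/
noncomputable def rho (P S : Finset ℕ) (a : H) : H := nm (star (L S a) * L (P \ S) a)

/-- The mirror of `g` in `NN m`. -/
def MM (g : G) (m : ℕ) : Set H := {a | a ∈ NN m ∧ star (act g a) = a}

/-- Size of the mirror. -/
noncomputable def mc (g : G) (m : ℕ) : ℕ := Nat.card (MM g m)

/-- The part of the mirror with third coordinate 0 modulo 4. -/
noncomputable def mc0 (g : G) (m : ℕ) : ℕ := Nat.card {a | a ∈ MM g m ∧ a.imJ % 4 = 0}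

/-- The part of the mirror with third coordinate 2 modulo 4. -/
noncomputable def mc1 (g : G) (m : ℕ) : ℕ := Nat.card {a | a ∈ MM g m ∧ a.imJ % 4 = 2}

/-- Rotation by two right angles about the first axis; mirror: `imI = 0`. -/
def gI : G := DihedralGroup.r 2

/-- Mirror of `gM`: `imJ = imK`. -/
def gM : G := DihedralGroup.sr 1

/-- Mirror of `gP`: `imJ = - imK`. -/
def gP : G := DihedralGroup.sr 3

/-- The number `T(m)`; `2|C| - |D|` is congruent to it modulo `2 ^ (k + 3)`. -/
noncomputable def TT (m : ℕ) : ℕ := 3 * mc gI m + 2 * mc gM m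

/-- The class `(0, 2, 2)` modulo 4. -/
def YY : Set H := {a | a.imI % 4 = 0 ∧ a.imJ % 4 = 2 ∧ a.imK % 4 = 2}

/-- The half of `YY` with `imJ * imK = 4` modulo 16. -/
def YP : Set H := {a | a ∈ YY ∧ (a.imJ * a.imK) % 16 = 4}

/-- The fixed points of the reflection of `g` composed with the swap of `S`, in `YY`. -/
noncomputable def FY (g : G) (P S : Finset ℕ) : ℕ :=
  Nat.card {a | a ∈ NN (pp P) ∧ a ∈ YY ∧ star (act g (sw S a)) = a}

/-- A vector on the axis of `g`: `act g a * vv g = vv g * a`. -/
def vv : G → H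
  | DihedralGroup.r i =>
    if i = 0 then 1 else if i = 1 then ⟨1, 1, 0, 0⟩ else if i = 2 then ⟨0, 1, 0, 0⟩
    else ⟨1, -1, 0, 0⟩
  | DihedralGroup.sr i =>
    if i = 0 then ⟨0, 0, 1, 0⟩ else if i = 1 then ⟨0, 0, 1, -1⟩ else if i = 2 then ⟨0, 0, 0, 1⟩
    else ⟨0, 0, 1, 1⟩

/-- `1` when `q = 7, 9` modulo 16. -/
def lam (q : ℕ) : ZMod 2 := if q % 16 = 7 ∨ q % 16 = 9 then 1 else 0

/-- `1` when `q = 7` modulo 8. -/
def nn (q : ℕ) : ZMod 2 := if q % 8 = 7 then 1 else 0

/-- `1` when `i` is a quadratic nonresidue modulo `q`. -/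
def ee (q i : ℕ) : ZMod 2 := if jacobiSym (i : ℤ) q = -1 then 1 else 0

/-- `1` when `- pp S` is a quadratic residue modulo `q`. -/
def ww (S : Finset ℕ) (q : ℕ) : ZMod 2 := if jacobiSym (-(pp S : ℤ)) q = 1 then 1 else 0

/-- The normalised number `y`. -/
noncomputable def yy (P : Finset ℕ) : ℕ := TT (pp P) / 2 ^ (P.card + 2)

section tree

variable {ι : Type} [Fintype ι] [DecidableEq ι]

/-- The weighted number modulo 2 of arborescences with vertex set `S` and root `r`: `f j` is the
parent of `j` (normalised to be `r` outside `S`). -/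
noncomputable def arb (a : ι → ι → ZMod 2) (r : ι) (S : Finset ι) : ZMod 2 := by
  classical exact ∑ f : ι → ι with (f r = r ∧ (∀ j, j ∉ S → f j = r) ∧ (∀ j ∈ S, f j ∈ S) ∧
    ∀ j, ∃ n : ℕ, f^[n] j = r), ∏ j ∈ S.erase r, a j (f j)

/-- The square matrix with the given entries off the diagonal and row sums zero (in
characteristic 2). -/
def lap (a : ι → ι → ZMod 2) : Matrix ι ι (ZMod 2) :=
  Matrix.of fun j i => if j = i then ∑ l ∈ Finset.univ.erase j, a j l else a j i

end tree

end Pool.Agent.TQG
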