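import Mathlib

/-!
Project TQG, module ABA (Mathlib only): counting lemma for a commutative group inverted by an
involution.

`s S` (`S ⊆ P`) are permutations of the finite set `X`, multiplicative on disjoint sets, `AG` the
group they generate; it is commutative. `t` is a permutation with `t * s S * t⁻¹ = (s S)⁻¹` for
`S ⊆ P`, hence `t * h * t⁻¹ = h⁻¹` for all `h ∈ AG`.
CLAIM (`aba`): `∑_{S ⊆ P} #{x | t (s S x) = x} = 2 ^ |P| * #{orbits of AG stable under t}`.
PROOF. For `h ∈ AG` let `M h = #{(S, x) | S ⊆ P, t (s S x) = h x}`.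
(1) `M (h * (s {i})⁻¹) = M h` for `i ∈ P`. So `M` is constant on `AG`.
(2) `|AG| * M 1 = ∑_h M h = ∑_S ∑_x #{h ∈ AG | t (s S x) = h x}`. The inner number is `0` if
`t x` is not in the orbit of `x` (`t (s S x) = (s S)⁻¹ (t x)`), and otherwise the size of the
stabiliser of `x`. Divide by `|AG|`. (`M 1` is the left side of the claim.)
-/

namespace Pool.Agent.TQG

/-- The group generated by the permutations `s S`, `S ⊆ P`. -/
def AG {X : Type} (P : Finset ℕ) (s : Finset ℕ → Equiv.Perm X) : Subgroup (Equiv.Perm X) :=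
  Subgroup.closure {f | ∃ S, S ⊆ P ∧ f = s S}

/-- Its orbits. -/
abbrev OQ {X : Type} (P : Finset ℕ) (s : Finset ℕ → Equiv.Perm X) : Type :=
  MulAction.orbitRel.Quotient (AG P s) X

/-- The orbit of a point. -/
def omk {X : Type} (P : Finset ℕ) (s : Finset ℕ → Equiv.Perm X) (x : X) : OQ P s :=
  Quotient.mk _ x

lemma aba_ias {X : Type} (f : Equiv.Perm X) (x : X) : f⁻¹ (f x) = x := f.symm_apply_apply x

lemma aba_ais {X : Type} (f : Equiv.Perm X) (x : X) : f (f⁻¹ x) = x := f.apply_symm_apply x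

lemma aba_mem {X : Type} {P : Finset ℕ} {s : Finset ℕ → Equiv.Perm X} {S : Finset ℕ}
    (h : S ⊆ P) : s S ∈ AG P s := Subgroup.subset_closure ⟨S, h, rfl⟩

lemma aba_omk_iff {X : Type} {P : Finset ℕ} {s : Finset ℕ → Equiv.Perm X} {x y : X} :
    omk P s x = omk P s y ↔ ∃ g ∈ AG P s, g y = x := by
  unfold omk
  rw [Quotient.eq]
  constructor
  · intro h
    have h' : x ∈ MulAction.orbit (AG P s) y := h
    obtain ⟨g, hg⟩ := h'
    exact ⟨g, g.2, hg⟩
  · rintro ⟨g, hg, h⟩
    show x ∈ MulAction.orbit (AG P s) y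
    exact ⟨⟨g, hg⟩, h⟩

lemma aba_comm_gen {X : Type} {P : Finset ℕ} {s : Finset ℕ → Equiv.Perm X}
    (hs : ∀ S T, S ⊆ P → T ⊆ P → Disjoint S T → s (S ∪ T) = s S * s T) {S T : Finset ℕ}
    (hS : S ⊆ P) (hT : T ⊆ P) : Commute (s S) (s T) := by
  have hd : ∀ A B : Finset ℕ, A ⊆ P → B ⊆ P → Disjoint A B → Commute (s A) (s B) := by
    intro A B hA hB hAB
    have h1 := hs A B hA hB hAB
    have h2 := hs B A hB hA hAB.symm
    rw [Finset.union_comm] at h2
    exact h1.symm.trans h2
  have hA : S ∩ T ⊆ P := Finset.inter_subset_left.trans hS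
  have hB : S \ T ⊆ P := Finset.sdiff_subset.trans hS
  have hC : T \ S ⊆ P := Finset.sdiff_subset.trans hT
  have dAB : Disjoint (S ∩ T) (S \ T) := by
    rw [Finset.disjoint_left]
    intro a ha hb
    exact (Finset.mem_sdiff.1 hb).2 (Finset.mem_inter.1 ha).2
  have dAC : Disjoint (S ∩ T) (T \ S) := by
    rw [Finset.disjoint_left]
    intro a ha hb
    exact (Finset.mem_sdiff.1 hb).2 (Finset.mem_inter.1 ha).1
  have dBC : Disjoint (S \ T) (T \ S) := by
    rw [Finset.disjoint_left]
    intro a ha hb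
    exact (Finset.mem_sdiff.1 hb).2 (Finset.mem_sdiff.1 ha).1
  have eS : s S = s (S ∩ T) * s (S \ T) := by
    rw [← hs _ _ hA hB dAB]
    congr 1
    ext a
    simp only [Finset.mem_union, Finset.mem_inter, Finset.mem_sdiff]
    tauto
  have eT : s T = s (S ∩ T) * s (T \ S) := by
    rw [← hs _ _ hA hC dAC]
    congr 1
    ext a
    simp only [Finset.mem_union, Finset.mem_inter, Finset.mem_sdiff]
    tauto
  rw [eS, eT]
  exact ((Commute.refl _).mul_right (hd _ _ hA hC dAC)).mul_left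
    ((hd _ _ hA hB dAB).symm.mul_right (hd _ _ hB hC dBC))

lemma aba_comm {X : Type} {P : Finset ℕ} {s : Finset ℕ → Equiv.Perm X}
    (hs : ∀ S T, S ⊆ P → T ⊆ P → Disjoint S T → s (S ∪ T) = s S * s T) {g h : Equiv.Perm X}
    (hg : g ∈ AG P s) (hh : h ∈ AG P s) : Commute g h := by
  have h1 : ∀ S, S ⊆ P → ∀ g ∈ AG P s, Commute g (s S) := by
    intro S hS g hg
    refine Subgroup.closure_induction (p := fun g _ => Commute g (s S)) ?_ ?_ ?_ ?_ hg
    · rintro f ⟨T, hT, rfl⟩
      exact aba_comm_gen hs hT hS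
    · exact Commute.one_left _
    · intro a b _ _ ha hb
      exact ha.mul_left hb
    · intro a _ ha
      exact ha.inv_left
  refine Subgroup.closure_induction (p := fun h _ => Commute g h) ?_ ?_ ?_ ?_ hh
  · rintro f ⟨T, hT, rfl⟩
    exact h1 T hT g hg
  · exact Commute.one_right _
  · intro a b _ _ ha hb
    exact ha.mul_right hb
  · intro a _ ha
    exact ha.inv_right

lemma aba_conj {X : Type} {P : Finset ℕ} {s : Finset ℕ → Equiv.Perm X} {t : Equiv.Perm X}
    (ht : (∀ S, S ⊆ P → t * s S * t⁻¹ = (s S)⁻¹) ∨ (∀ S, S ⊆ P → t * s S * t⁻¹ = s S))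
    {g : Equiv.Perm X} (hg : g ∈ AG P s) : t * g * t⁻¹ ∈ AG P s := by
  refine Subgroup.closure_induction (p := fun g _ => t * g * t⁻¹ ∈ AG P s) ?_ ?_ ?_ ?_ hg
  · rintro f ⟨T, hT, rfl⟩
    rcases ht with h | h
    · rw [h T hT]
      exact (AG P s).inv_mem (aba_mem hT)
    · rw [h T hT]
      exact aba_mem hT
  · rw [mul_one, mul_inv_cancel]
    exact (AG P s).one_mem
  · intro a b _ _ ha hb
    have : t * (a * b) * t⁻¹ = (t * a * t⁻¹) * (t * b * t⁻¹) := by group
    rw [this]
    exact (AG P s).mul_mem ha hb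
  · intro a _ ha
    have : t * a⁻¹ * t⁻¹ = (t * a * t⁻¹)⁻¹ := by group
    rw [this]
    exact (AG P s).inv_mem ha

lemma aba_conj' {X : Type} {P : Finset ℕ} {s : Finset ℕ → Equiv.Perm X} {t : Equiv.Perm X}
    (ht : (∀ S, S ⊆ P → t * s S * t⁻¹ = (s S)⁻¹) ∨ (∀ S, S ⊆ P → t * s S * t⁻¹ = s S))
    {g : Equiv.Perm X} (hg : g ∈ AG P s) : t⁻¹ * g * t ∈ AG P s := by
  have h1 : (∀ S, S ⊆ P → t⁻¹ * s S * (t⁻¹)⁻¹ = (s S)⁻¹) ∨
      (∀ S, S ⊆ P → t⁻¹ * s S * (t⁻¹)⁻¹ = s S) := by
    rcases ht with h | h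
    · left
      intro S hS
      have h2 : s S = t⁻¹ * (s S)⁻¹ * t := by
        rw [← h S hS]
        group
      calc t⁻¹ * s S * (t⁻¹)⁻¹ = (t⁻¹ * (s S)⁻¹ * t)⁻¹ := by group
        _ = (s S)⁻¹ := by rw [← h2]
    · right
      intro S hS
      have h2 : s S = t * s S * t⁻¹ := (h S hS).symm
      calc t⁻¹ * s S * (t⁻¹)⁻¹ = t⁻¹ * (t * s S * t⁻¹) * (t⁻¹)⁻¹ := by rw [← h2]
        _ = s S := by group
  have h3 := aba_conj h1 hg
  rwa [inv_inv] at h3

lemma aba_inv {X : Type} {P : Finset ℕ} {s : Finset ℕ → Equiv.Perm X}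
    (hs : ∀ S T, S ⊆ P → T ⊆ P → Disjoint S T → s (S ∪ T) = s S * s T) {t : Equiv.Perm X}
    (ht : ∀ S, S ⊆ P → t * s S * t⁻¹ = (s S)⁻¹) {g : Equiv.Perm X} (hg : g ∈ AG P s) :
    t * g * t⁻¹ = g⁻¹ := by
  refine Subgroup.closure_induction (p := fun g _ => t * g * t⁻¹ = g⁻¹) ?_ ?_ ?_ ?_ hg
  · rintro f ⟨T, hT, rfl⟩
    exact ht T hT
  · group
  · intro a b ha' hb' ha hb
    have : t * (a * b) * t⁻¹ = (t * a * t⁻¹) * (t * b * t⁻¹) := by group
    rw [this, ha, hb, mul_inv_rev]
    exact ((aba_comm hs ha' hb').inv_inv).eq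
  · intro a _ ha
    have : t * a⁻¹ * t⁻¹ = (t * a * t⁻¹)⁻¹ := by group
    rw [this, ha]

/-- the number of solutions of `t (s S x) = h x` -/
noncomputable def abaM {X : Type} (P : Finset ℕ) (s : Finset ℕ → Equiv.Perm X)
    (t h : Equiv.Perm X) : ℕ := ∑ S ∈ P.powerset, Nat.card {x : X // t (s S x) = h x}

lemma aba_step {X : Type} {P : Finset ℕ} {s : Finset ℕ → Equiv.Perm X}
    (hs : ∀ S T, S ⊆ P → T ⊆ P → Disjoint S T → s (S ∪ T) = s S * s T) {t : Equiv.Perm X}
    (ht : ∀ S, S ⊆ P → t * s S * t⁻¹ = (s S)⁻¹) {i : ℕ} (hi : i ∈ P) {h : Equiv.Perm X}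
    (hh : h ∈ AG P s) : abaM P s t (h * (s {i})⁻¹) = abaM P s t h := by
  have hi' : ({i} : Finset ℕ) ⊆ P := Finset.singleton_subset_iff.2 hi
  have hc : ∀ x, h ((s {i})⁻¹ x) = (s {i})⁻¹ (h x) := by
    intro x
    have := (aba_comm hs hh ((AG P s).inv_mem (aba_mem hi'))).eq
    exact congrArg (fun f : Equiv.Perm X => f x) this
  have hti : ∀ x, t (s {i} x) = (s {i})⁻¹ (t x) := by
    intro x
    have h1 := ht {i} hi'
    have h2 : t * s {i} = (s {i})⁻¹ * t := by
      rw [← h1]
      group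
    exact congrArg (fun f : Equiv.Perm X => f x) h2
  obtain ⟨P', hP', rfl⟩ : ∃ P', i ∉ P' ∧ P = insert i P' :=
    ⟨P.erase i, Finset.notMem_erase i P, (Finset.insert_erase hi).symm⟩
  have hins : ∀ S ∈ P'.powerset, ∀ x, s (insert i S) x = s {i} (s S x) ∧
      s (insert i S) x = s S (s {i} x) := by
    intro S hS x
    have hS' : S ⊆ insert i P' := (Finset.mem_powerset.1 hS).trans (Finset.subset_insert _ _)
    have hd : Disjoint ({i} : Finset ℕ) S := by
      rw [Finset.disjoint_singleton_left]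
      exact fun hh => hP' (Finset.mem_powerset.1 hS hh)
    have h1 : s (insert i S) = s {i} * s S := by
      rw [Finset.insert_eq]
      exact hs _ _ hi' hS' hd
    have h2 := (aba_comm_gen hs hi' hS').eq
    constructor
    · rw [h1]; rfl
    · rw [h1, h2]; rfl
  unfold abaM
  rw [Finset.sum_powerset_insert hP', Finset.sum_powerset_insert hP', add_comm]
  congr 1
  · refine Finset.sum_congr rfl fun S hS => Nat.card_congr (Equiv.subtypeEquivRight fun x => ?_)
    rw [(hins S hS x).1, hti, Equiv.Perm.mul_apply, hc]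
    exact (s {i})⁻¹.injective.eq_iff
  · refine Finset.sum_congr rfl fun S hS =>
      (Nat.card_congr ((s {i}).subtypeEquiv fun x => ?_)).symm
    rw [(hins S hS x).2, Equiv.Perm.mul_apply, aba_ias]

lemma aba_const {X : Type} {P : Finset ℕ} {s : Finset ℕ → Equiv.Perm X} (h0 : s ∅ = 1)
    (hs : ∀ S T, S ⊆ P → T ⊆ P → Disjoint S T → s (S ∪ T) = s S * s T) {t : Equiv.Perm X}
    (ht : ∀ S, S ⊆ P → t * s S * t⁻¹ = (s S)⁻¹) {h : Equiv.Perm X} (hh : h ∈ AG P s) :
    abaM P s t h = abaM P s t 1 := by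
  have h1 : ∀ S : Finset ℕ, S ⊆ P → ∀ h ∈ AG P s, abaM P s t (h * (s S)⁻¹) = abaM P s t h := by
    intro S
    induction S using Finset.induction_on with
    | empty =>
      intro _ h _
      rw [h0, inv_one, mul_one]
    | insert i S hi ih =>
      intro hS h hh
      have hi' : i ∈ P := hS (Finset.mem_insert_self i S)
      have hS' : S ⊆ P := (Finset.subset_insert i S).trans hS
      have h2 : s (insert i S) = s {i} * s S := by
        rw [Finset.insert_eq]
        exact hs _ _ (Finset.singleton_subset_iff.2 hi') hS'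
          (Finset.disjoint_singleton_left.2 hi)
      rw [h2, mul_inv_rev, ← mul_assoc,
        aba_step hs ht hi' ((AG P s).mul_mem hh ((AG P s).inv_mem (aba_mem hS'))), ih hS' h hh]
  have h2 : ∀ g ∈ AG P s, ∀ h ∈ AG P s, abaM P s t (h * g) = abaM P s t h := by
    intro g hg
    refine Subgroup.closure_induction
      (p := fun g _ => ∀ h ∈ AG P s, abaM P s t (h * g) = abaM P s t h) ?_ ?_ ?_ ?_ hg
    · rintro f ⟨S, hS, rfl⟩ h hh
      have h3 := h1 S hS (h * s S) ((AG P s).mul_mem hh (aba_mem hS))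
      rw [mul_inv_cancel_right] at h3
      exact h3.symm
    · intro h _
      rw [mul_one]
    · intro a b ha' hb' ha hb h hh
      rw [← mul_assoc, hb _ ((AG P s).mul_mem hh ha'), ha _ hh]
    · intro a ha' ha h hh
      have h3 := ha (h * a⁻¹) ((AG P s).mul_mem hh ((AG P s).inv_mem ha'))
      rw [inv_mul_cancel_right] at h3
      exact h3.symm
  have h3 := h2 h hh 1 (AG P s).one_mem
  rwa [one_mul] at h3

/-- the number of elements which send `x` to a point of its orbit -/
lemma aba_trans {G X : Type} [Group G] [MulAction G X] (x y : X)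
    (h : ∃ g : G, g • x = y) : Nat.card {g : G // y = g • x} =
      Nat.card (MulAction.stabilizer G x) := by
  obtain ⟨k, rfl⟩ := h
  refine Nat.card_congr ⟨fun g => ⟨k⁻¹ * g.1, ?_⟩, fun g => ⟨k * g.1, ?_⟩, ?_, ?_⟩
  · rw [MulAction.mem_stabilizer_iff, mul_smul, ← g.2, inv_smul_smul]
  · have := g.2
    rw [MulAction.mem_stabilizer_iff] at this
    rw [mul_smul, this]
  · intro g
    apply Subtype.ext
    simp
  · intro g
    apply Subtype.ext
    simp

lemma aba_orb {G X : Type} [Group G] [Finite G] [Fintype X] [MulAction G X]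
    [DecidableEq (MulAction.orbitRel.Quotient G X)] (o : MulAction.orbitRel.Quotient G X) :
    ∑ x ∈ (Finset.univ : Finset X).filter (fun x => (Quotient.mk _ x :
      MulAction.orbitRel.Quotient G X) = o), Nat.card (MulAction.stabilizer G x) = Nat.card G := by
  obtain ⟨x₀, rfl⟩ := Quotient.exists_rep o
  have hst : ∀ x ∈ (Finset.univ : Finset X).filter (fun x => (Quotient.mk _ x :
      MulAction.orbitRel.Quotient G X) = Quotient.mk _ x₀),
      Nat.card (MulAction.stabilizer G x) =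
        Nat.card G / Nat.card (MulAction.orbit G x₀) := by
    intro x hx
    rw [Finset.mem_filter, Quotient.eq] at hx
    have h1 : x ∈ MulAction.orbit G x₀ := hx.2
    have h2 : MulAction.orbit G x = MulAction.orbit G x₀ := MulAction.orbit_eq_iff.2 h1
    have h3 : Nat.card (MulAction.orbit G x) * Nat.card (MulAction.stabilizer G x) =
        Nat.card G := by
      rw [Nat.card_congr (MulAction.orbitEquivQuotientStabilizer G x)]
      exact (MulAction.stabilizer G x).card_eq_card_quotient_mul_card_subgroup.symm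
    rw [← h3, h2, Nat.mul_div_cancel_left]
    rw [← h2]
    have hne : Nonempty (MulAction.orbit G x) := ⟨⟨x, MulAction.mem_orbit_self x⟩⟩
    exact Nat.card_pos
  rw [Finset.sum_congr rfl hst, Finset.sum_const, smul_eq_mul]
  have hcard : ((Finset.univ : Finset X).filter (fun x => (Quotient.mk _ x :
      MulAction.orbitRel.Quotient G X) = Quotient.mk _ x₀)).card =
      Nat.card (MulAction.orbit G x₀) := by
    classical
    rw [Nat.card_eq_fintype_card, ← Set.toFinset_card]
    congr 1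
    ext x
    rw [Finset.mem_filter, Set.mem_toFinset, Quotient.eq]
    constructor
    · exact fun h => h.2
    · exact fun h => ⟨Finset.mem_univ _, h⟩
  rw [hcard]
  have h3 : Nat.card (MulAction.orbit G x₀) * Nat.card (MulAction.stabilizer G x₀) =
      Nat.card G := by
    rw [Nat.card_congr (MulAction.orbitEquivQuotientStabilizer G x₀)]
    exact (MulAction.stabilizer G x₀).card_eq_card_quotient_mul_card_subgroup.symm
  exact Nat.mul_div_cancel' ⟨_, h3.symm⟩

theorem aba {X : Type} [Finite X] (P : Finset ℕ) (s : Finset ℕ → Equiv.Perm X) (h0 : s ∅ = 1)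
    (hs : ∀ S T, S ⊆ P → T ⊆ P → Disjoint S T → s (S ∪ T) = s S * s T) (t : Equiv.Perm X)
    (ht : ∀ S, S ⊆ P → t * s S * t⁻¹ = (s S)⁻¹) :
    ∑ S ∈ P.powerset, Nat.card {x : X // t (s S x) = x} =
      2 ^ P.card * Nat.card {o : OQ P s // ∃ x : X, omk P s x = o ∧ omk P s (t x) = o} := by
  classical
  let _ := Fintype.ofFinite X
  let _ := Fintype.ofFinite (AG P s)
  let _ : Fintype (OQ P s) := Fintype.ofFinite _
  set n := Nat.card {o : OQ P s // ∃ x : X, omk P s x = o ∧ omk P s (t x) = o} with hn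
  have hM1 : ∑ S ∈ P.powerset, Nat.card {x : X // t (s S x) = x} = abaM P s t 1 := rfl
  rw [hM1]
  have hpos : 0 < Nat.card (AG P s) := Nat.card_pos
  refine Nat.eq_of_mul_eq_mul_left hpos ?_
  have hsum : ∑ h : AG P s, abaM P s t h = Nat.card (AG P s) * abaM P s t 1 := by
    rw [Finset.sum_congr rfl (fun h _ => aba_const h0 hs ht h.2), Finset.sum_const,
      smul_eq_mul, Finset.card_univ, Nat.card_eq_fintype_card]
  rw [← hsum]
  have hS : ∀ S ∈ P.powerset, ∑ h : AG P s, Nat.card {x : X // t (s S x) =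
      (h : Equiv.Perm X) x} = Nat.card (AG P s) * n := by
    intro S hS
    have hS' := Finset.mem_powerset.1 hS
    have hts : ∀ x, t (s S x) = (s S)⁻¹ (t x) := by
      intro x
      have h2 : t * s S = (s S)⁻¹ * t := by
        rw [← ht S hS']
        group
      exact congrArg (fun f : Equiv.Perm X => f x) h2
    have h1 : ∑ h : AG P s, Nat.card {x : X // t (s S x) = (h : Equiv.Perm X) x} =
        ∑ x : X, Nat.card {h : AG P s // t (s S x) = (h : Equiv.Perm X) x} := by
      simp only [Nat.card_eq_fintype_card, Fintype.card_subtype, Finset.card_filter]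
      exact Finset.sum_comm
    rw [h1]
    have h2 : ∀ x : X, Nat.card {h : AG P s // t (s S x) = (h : Equiv.Perm X) x} =
        if omk P s (t x) = omk P s x then Nat.card (MulAction.stabilizer (AG P s) x) else 0 := by
      intro x
      split_ifs with hx
      · obtain ⟨g, hg, hgx⟩ := aba_omk_iff.1 hx
        refine aba_trans (G := AG P s) x (t (s S x))
          ⟨⟨(s S)⁻¹ * g, (AG P s).mul_mem ((AG P s).inv_mem (aba_mem hS')) hg⟩, ?_⟩
        show ((s S)⁻¹ * g) x = t (s S x)
        rw [Equiv.Perm.mul_apply, hgx, hts]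
      · rw [Nat.card_eq_zero]
        left
        constructor
        rintro ⟨g, hg⟩
        apply hx
        rw [aba_omk_iff]
        refine ⟨s S * g, (AG P s).mul_mem (aba_mem hS') g.2, ?_⟩
        rw [Equiv.Perm.mul_apply, ← hg, hts, aba_ais]
    rw [Finset.sum_congr rfl (fun x _ => h2 x), ← Finset.sum_fiberwise Finset.univ (omk P s)]
    have h3 : ∀ o : OQ P s, ∑ x ∈ Finset.univ.filter (fun x => omk P s x = o),
        (if omk P s (t x) = omk P s x then Nat.card (MulAction.stabilizer (AG P s) x) else 0) =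
        if ∃ x : X, omk P s x = o ∧ omk P s (t x) = o then Nat.card (AG P s) else 0 := by
      intro o
      split_ifs with ho
      · obtain ⟨x₁, hx₁, hx₂⟩ := ho
        rw [← aba_orb (G := AG P s) o]
        refine Finset.sum_congr rfl fun x hx => ?_
        rw [if_pos]
        rw [Finset.mem_filter] at hx
        obtain ⟨g, hg, hgx⟩ := aba_omk_iff.1 (hx.2.trans hx₁.symm)
        have h4 : t x = g⁻¹ (t x₁) := by
          have h5 := aba_inv hs ht hg
          have h6 : t * g = g⁻¹ * t := by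
            rw [← h5]
            group
          rw [← hgx]
          exact congrArg (fun f : Equiv.Perm X => f x₁) h6
        have h7 : omk P s (t x) = omk P s (t x₁) :=
          aba_omk_iff.2 ⟨g⁻¹, (AG P s).inv_mem hg, h4.symm⟩
        exact h7.trans (hx₂.trans hx.2.symm)
      · refine Finset.sum_eq_zero fun x hx => ?_
        rw [if_neg]
        intro h4
        rw [Finset.mem_filter] at hx
        exact ho ⟨x, hx.2, h4.trans hx.2⟩
    rw [Finset.sum_congr rfl (fun o _ => h3 o), ← Finset.sum_filter, Finset.sum_const,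
      smul_eq_mul, mul_comm, hn, Nat.card_eq_fintype_card (α := {o : OQ P s // _}),
      Fintype.card_subtype]
  calc ∑ h : AG P s, abaM P s t h
      = ∑ S ∈ P.powerset, ∑ h : AG P s, Nat.card {x : X // t (s S x) =
          (h : Equiv.Perm X) x} := Finset.sum_comm
    _ = ∑ S ∈ P.powerset, Nat.card (AG P s) * n := Finset.sum_congr rfl hS
    _ = Nat.card (AG P s) * (2 ^ P.card * n) := by
        rw [Finset.sum_const, Finset.card_powerset, smul_eq_mul]
        ring

/-- A permutation which inverts, or which centralises, all `s S` descends to the orbits. -/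
theorem aba_desc {X : Type} (P : Finset ℕ) (s : Finset ℕ → Equiv.Perm X) (t : Equiv.Perm X)
    (ht : (∀ S, S ⊆ P → t * s S * t⁻¹ = (s S)⁻¹) ∨ (∀ S, S ⊆ P → t * s S * t⁻¹ = s S)) :
    ∃ f : Equiv.Perm (OQ P s), ∀ x : X, f (omk P s x) = omk P s (t x) := by
  refine ⟨Quotient.congr t fun a b => ?_, fun x => rfl⟩
  constructor
  · intro h
    have h' : omk P s a = omk P s b := Quotient.sound h
    obtain ⟨g, hg, hgx⟩ := aba_omk_iff.1 h'
    refine Quotient.exact (aba_omk_iff.2 ⟨t * g * t⁻¹, aba_conj ht hg, ?_⟩)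
    rw [Equiv.Perm.mul_apply, Equiv.Perm.mul_apply, aba_ias, hgx]
  · intro h
    have h' : omk P s (t a) = omk P s (t b) := Quotient.sound h
    obtain ⟨g, hg, hgx⟩ := aba_omk_iff.1 h'
    refine Quotient.exact (aba_omk_iff.2 ⟨t⁻¹ * g * t, aba_conj' ht hg, ?_⟩)
    rw [Equiv.Perm.mul_apply, Equiv.Perm.mul_apply, hgx, aba_ias]

end Pool.Agent.TQG
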