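import Mathlib

/-!
Project TQG, module ABB (Mathlib only): two commuting involutions of a finite set.

Burnside for the Klein four group. Elementary proof: let `I` be the set fixed by `f` and `g`; `g`
acts without fixed points on the complement of `I` in `Fix f`, so its size is even, the same for
`Fix g` and `Fix (f * g)` (which contains `I`, and meets `Fix f` in `I`); the complement of the union
of the three sets is a union of free orbits of size 4. (Or use
`MulAction.sum_card_fixedBy_eq_card_orbits_mul_card_group` for `ℤˣ × ℤˣ` or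
`Multiplicative (ZMod 2) × Multiplicative (ZMod 2)`.)
-/

namespace Pool.Agent.TQG

/-- the action of two commuting involutions -/
@[implicit_reducible]
private def kact {Q : Type} (f g : Equiv.Perm Q) (hf : ∀ x, f (f x) = x) (hg : ∀ x, g (g x) = x)
    (hc : ∀ x, f (g x) = g (f x)) : AddAction (ZMod 2 × ZMod 2) Q where
  vadd a x := (if a.1 = 0 then id else f) ((if a.2 = 0 then id else g) x)
  zero_vadd x := rfl
  add_vadd := by
    rintro ⟨a, b⟩ ⟨c, d⟩ x
    change (if a + c = 0 then id else ⇑f) ((if b + d = 0 then id else ⇑g) x) =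
      (if a = 0 then id else ⇑f) ((if b = 0 then id else ⇑g)
        ((if c = 0 then id else ⇑f) ((if d = 0 then id else ⇑g) x)))
    have h2 : ∀ a : ZMod 2, a = 0 ∨ a = 1 := by decide
    have h11 : (1 : ZMod 2) + 1 = 0 := by decide
    rcases h2 a with rfl | rfl <;> rcases h2 b with rfl | rfl <;> rcases h2 c with rfl | rfl <;>
      rcases h2 d with rfl | rfl <;> simp [h11, hf, hg, hc]

theorem abb {Q : Type} [Finite Q] (f g : Equiv.Perm Q) (hf : f * f = 1) (hg : g * g = 1)
    (hfg : f * g = g * f) :
    4 ∣ Nat.card Q + Nat.card {x : Q // f x = x} + Nat.card {x : Q // g x = x} +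
      Nat.card {x : Q // f (g x) = x} := by
  classical
  haveI := Fintype.ofFinite Q
  have hf' : ∀ x, f (f x) = x := fun x => by
    have := congrArg (fun e : Equiv.Perm Q => e x) hf
    simpa [Equiv.Perm.mul_apply] using this
  have hg' : ∀ x, g (g x) = x := fun x => by
    have := congrArg (fun e : Equiv.Perm Q => e x) hg
    simpa [Equiv.Perm.mul_apply] using this
  have hc' : ∀ x, f (g x) = g (f x) := fun x => by
    have := congrArg (fun e : Equiv.Perm Q => e x) hfg
    simpa [Equiv.Perm.mul_apply] using this
  letI := kact f g hf' hg' hc'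
  have key := AddAction.sum_card_fixedBy_eq_card_orbits_mul_card_addGroup (ZMod 2 × ZMod 2) Q
  have hcard : Fintype.card (ZMod 2 × ZMod 2) = 4 := by decide
  rw [hcard] at key
  rw [Fintype.sum_prod_type] at key
  have huniv : (Finset.univ : Finset (ZMod 2)) = {0, 1} := by decide
  rw [huniv, Finset.sum_pair (by decide), Finset.sum_pair (by decide),
    Finset.sum_pair (by decide)] at key
  have e00 : Fintype.card (AddAction.fixedBy Q ((0 : ZMod 2), (0 : ZMod 2))) = Nat.card Q := by
    rw [← Nat.card_eq_fintype_card]
    exact Nat.card_congr (Equiv.subtypeUnivEquiv fun x => rfl)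
  have e10 : Fintype.card (AddAction.fixedBy Q ((1 : ZMod 2), (0 : ZMod 2))) =
      Nat.card {x : Q // f x = x} := by
    rw [← Nat.card_eq_fintype_card]
    rfl
  have e01 : Fintype.card (AddAction.fixedBy Q ((0 : ZMod 2), (1 : ZMod 2))) =
      Nat.card {x : Q // g x = x} := by
    rw [← Nat.card_eq_fintype_card]
    rfl
  have e11 : Fintype.card (AddAction.fixedBy Q ((1 : ZMod 2), (1 : ZMod 2))) =
      Nat.card {x : Q // f (g x) = x} := by
    rw [← Nat.card_eq_fintype_card]
    rfl
  rw [e00, e10, e01, e11] at key
  have h4 := Dvd.intro_left _ key.symm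
  omega

/-- An involution without fixed points acts on the fixed points of a commuting permutation. -/
theorem abb_even {Q : Type} [Finite Q] (f c : Equiv.Perm Q) (hc : c * c = 1)
    (hfc : f * c = c * f) (hfree : ∀ x, c x ≠ x) : 2 ∣ Nat.card {x : Q // f x = x} := by
  classical
  haveI := Fintype.ofFinite Q
  have hc' : ∀ x, c (c x) = x := fun x => by
    have := congrArg (fun e : Equiv.Perm Q => e x) hc
    simpa [Equiv.Perm.mul_apply] using this
  have hfc' : ∀ x, f (c x) = c (f x) := fun x => by
    have := congrArg (fun e : Equiv.Perm Q => e x) hfc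
    simpa [Equiv.Perm.mul_apply] using this
  let e : Equiv.Perm {x : Q // f x = x} :=
    { toFun := fun x => ⟨c x.1, by rw [hfc', x.2]⟩
      invFun := fun x => ⟨c x.1, by rw [hfc', x.2]⟩
      left_inv := fun x => Subtype.ext (hc' x.1)
      right_inv := fun x => Subtype.ext (hc' x.1) }
  have he : e ^ 2 = 1 := by
    ext x
    simp only [pow_two, Equiv.Perm.mul_apply, Equiv.Perm.one_apply]
    exact hc' x.1
  have h := Equiv.Perm.two_dvd_card_support he
  have hs : e.support = Finset.univ := by
    ext x
    simp only [Equiv.Perm.mem_support, Finset.mem_univ, iff_true]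
    intro hx
    exact hfree x.1 (congrArg Subtype.val hx)
  rw [hs, Finset.card_univ, ← Nat.card_eq_fintype_card] at h
  exact h

end Pool.Agent.TQG
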