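import Pool.Agent.TQG.Num

/-!
Project TQG, module ARI: the constant term of the recursion.

Let `k = |P| ≥ 1`. `J(-1 | q) = 1` for `q = 1 mod 8` and `-1` for `q = 7 mod 8`
(`jacobiSym.at_neg_one`, `ZMod.χ₄`).
No `q = 7 mod 8`: `q + 1 = 2 (1 + 4 b)`, `q = 1 + 8 b`, `lam q = b mod 2`;
`∏ (q + 1) = 2 ^ k ∏ (1 + 4 b) = 2 ^ k (1 + 4 ∑ b)` mod `2 ^ (k + 3)`, second product `2 ^ k`; total
`2 ^ k (8 + 4 ∑ b) = 2 ^ (k + 2) ∑ b`, and `cc P = ∑ lam`.
Exactly one `p = 7 mod 8`: `p + 1 = 8 b`, `lam p = b mod 2`, the other `q + 1` are `2 * odd`: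
`∏ (q + 1) = 2 ^ (k + 2) * b * odd`, second product `0`, and `cc P = lam p` (the other terms have the
factor `1 + nn p = 0`). At least two: `∏ (q + 1)` is divisible by `2 ^ (k - 2) * 64`, second product
`0`, and `cc P = 0`. (An induction on `P` may be shorter.)
-/

namespace Pool.Agent.TQG

/-- The constant term. -/
def cc (P : Finset ℕ) : ZMod 2 := ∑ r ∈ P, lam r * ∏ j ∈ P.erase r, (1 + nn j)

private theorem cc_insert {q : ℕ} {P : Finset ℕ} (hq : q ∉ P) :
    cc (insert q P) = lam q * (∏ j ∈ P, (1 + nn j)) + (1 + nn q) * cc P := by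
  unfold cc
  rw [Finset.sum_insert hq, Finset.erase_insert hq, Finset.mul_sum]
  congr 1
  refine Finset.sum_congr rfl fun r hr => ?_
  have hrq : q ≠ r := fun h => hq (h ▸ hr)
  rw [Finset.erase_insert_of_ne hrq, Finset.prod_insert (fun h => hq (Finset.mem_of_mem_erase h))]
  ring

private theorem ari_aux (P : Finset ℕ) : GP P →
    ∃ c z : ℕ, (c : ZMod 2) = cc P ∧ (z : ZMod 2) = (∏ j ∈ P, (1 + nn j)) ∧
      (∏ q ∈ P, (1 + jacobiSym (-1) q) = 2 ^ P.card * (z : ℤ)) ∧
      ∃ w : ℤ, ∏ q ∈ P, ((q : ℤ) + 1) =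
        2 ^ P.card * (z : ℤ) + 2 ^ (P.card + 2) * (c : ℤ) + 2 ^ (P.card + 3) * w := by
  induction P using Finset.induction_on with
  | empty =>
    intro _
    exact ⟨0, 1, by simp [cc], by simp, by simp, 0, by simp⟩
  | insert q P hq ih =>
    intro hP
    obtain ⟨c, z, hc, hz, hB, w, hA⟩ := ih (fun r hr => hP r (Finset.mem_insert_of_mem hr))
    have hq8 := (hP q (Finset.mem_insert_self q P)).2
    rw [Finset.card_insert_of_notMem hq, cc_insert hq, Finset.prod_insert hq,
      Finset.prod_insert hq, Finset.prod_insert hq]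
    have hodd : Odd q := by
      rw [Nat.odd_iff]
      omega
    rcases hq8 with h1 | h7
    · obtain ⟨b, hb⟩ : ∃ b, q = 1 + 8 * b := ⟨q / 8, by omega⟩
      have hJ : jacobiSym (-1) q = 1 := by
        rw [jacobiSym.at_neg_one hodd, ZMod.χ₄_nat_one_mod_four (by omega)]
      have hnn : nn q = 0 := by
        unfold nn
        rw [if_neg (by omega)]
      have hlam : lam q = (b : ZMod 2) := by
        unfold lam
        rcases Nat.even_or_odd b with hbe | hbo
        · rw [if_neg (by rcases hbe with ⟨t, ht⟩; omega)]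
          exact ((ZMod.natCast_eq_zero_iff_even).mpr hbe).symm
        · rw [if_pos (by rcases hbo with ⟨t, ht⟩; omega)]
          exact ((ZMod.natCast_eq_one_iff_odd).mpr hbo).symm
      refine ⟨c + b * z, z, ?_, ?_, ?_, w + 2 * b * c + 4 * b * w, ?_⟩
      · rw [hlam, hnn, ← hz, ← hc]
        push_cast
        ring
      · rw [hnn, ← hz]
        ring
      · rw [hJ, hB]
        ring
      · rw [hA, hb]
        push_cast
        ring
    · obtain ⟨b, hb⟩ : ∃ b, q + 1 = 8 * b := ⟨(q + 1) / 8, by omega⟩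
      have hJ : jacobiSym (-1) q = -1 := by
        rw [jacobiSym.at_neg_one hodd, ZMod.χ₄_nat_three_mod_four (by omega)]
      have hnn : nn q = 1 := by
        unfold nn
        rw [if_pos h7]
      have hlam : lam q = (b : ZMod 2) := by
        unfold lam
        rcases Nat.even_or_odd b with hbe | hbo
        · rw [if_neg (by rcases hbe with ⟨t, ht⟩; omega)]
          exact ((ZMod.natCast_eq_zero_iff_even).mpr hbe).symm
        · rw [if_pos (by rcases hbo with ⟨t, ht⟩; omega)]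
          exact ((ZMod.natCast_eq_one_iff_odd).mpr hbo).symm
      have h11 : (1 : ZMod 2) + 1 = 0 := by decide
      refine ⟨b * z, 0, ?_, ?_, ?_, 2 * b * c + 4 * b * w, ?_⟩
      · rw [hlam, hnn, h11, ← hz]
        push_cast
        ring
      · rw [hnn, h11]
        push_cast
        ring
      · rw [hJ]
        push_cast
        ring
      · have hb' : (q : ℤ) + 1 = 8 * b := by exact_mod_cast hb
        rw [hA, hb']
        push_cast
        ring

theorem ari {P : Finset ℕ} (hP : GP P) (hne : P.Nonempty) :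
    ∃ c : ℕ, (c : ZMod 2) = cc P ∧ ((2 ^ (P.card + 3) : ℕ) : ℤ) ∣
      ∏ q ∈ P, ((q : ℤ) + 1) + 7 * ∏ q ∈ P, (1 + jacobiSym (-1) q) - 2 ^ (P.card + 2) * (c : ℤ) := by
  obtain ⟨c, z, hc, -, hB, w, hA⟩ := ari_aux P hP
  refine ⟨c, hc, z + w, ?_⟩
  rw [hA, hB]
  push_cast
  ring

end Pool.Agent.TQG
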