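import Pool.Agent.TQG.Num

/-!
Project TQG, module BAS: the sets `QQ m`, `NN m` and the normalisation `nm`.

`mul_QQ`: write `a = s + t (i + j + k) + 2 (..)` with `s + t` odd; in practice: put
`a.imI = a.re + 1 + 2 x` etc. and compute, or do the four cases of parities (`Int.emod_emod_of_dvd`,
`Int.even_or_odd'`), everything modulo 2; `normSq` is multiplicative (`map_mul`).
`norm_mod`: `a ∈ QQ m` has either one odd coordinate `re` and three even ones, or `re` even and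
three odd ones; so `m = 3 mod 4` in the second case and then `re = 2 mod 4` when `m = 7 mod 8`
(`3 + re ^ 2 = 7 mod 8`), so in all cases `re ≠ 0` when `m = 1, 7 mod 8`.
`unit_right`: `star b * a = n u` with `n = normSq b` odd, `star b * a ∈ QQ (n * m)` so the parities
of `u` are those of `1` or `i + j + k`; a quaternion of norm 1 has one coordinate `± 1` and the
others `0`, so `u = ± 1`, and `u = 1` because the real parts of `a, b` are positive.
`NN_eq`: from `star a * b = (m : H) * u` take norms: `normSq u = 1`; multiply by `a` on the left: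
`m * b = m * (a * u)`, cancel, use `unit_right`.
`cof_QQ`: `star b * a = (m : H) * c`, `m` odd: parities of `c` are those of `star b * a`; norm:
`normSq b * normSq c = m * n`, cancel `m`.
-/

namespace Pool.Agent.TQG

open Pool.Agent.TQS Quaternion

private theorem bas_re (a b : H) :
    (a * b).re = a.re * b.re - a.imI * b.imI - a.imJ * b.imJ - a.imK * b.imK := by
  simp

private theorem bas_I (a b : H) :
    (a * b).imI = a.re * b.imI + a.imI * b.re + a.imJ * b.imK - a.imK * b.imJ := by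
  simp

private theorem bas_J (a b : H) :
    (a * b).imJ = a.re * b.imJ - a.imI * b.imK + a.imJ * b.re + a.imK * b.imI := by
  simp

private theorem bas_K (a b : H) :
    (a * b).imK = a.re * b.imK + a.imI * b.imJ - a.imJ * b.imI + a.imK * b.re := by
  simp

private theorem bas_emod_one (x : ℤ) : x % 2 = 1 ↔ (x : ZMod 2) = 1 := by
  have h := ZMod.intCast_eq_intCast_iff' x 1 2
  simp only [Int.cast_one] at h
  rw [h]; norm_num

private theorem bas_emod_zero (x : ℤ) : x % 2 = 0 ↔ (x : ZMod 2) = 0 := by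
  have h := ZMod.intCast_eq_intCast_iff' x 0 2
  simp only [Int.cast_zero] at h
  rw [h]; norm_num

private theorem bas_mem (m : ℕ) (a : H) : a ∈ QQ m ↔ ((a.re : ZMod 2) = 1 + (a.imI : ZMod 2) ∧
    (a.imJ : ZMod 2) = (a.imI : ZMod 2) ∧ (a.imK : ZMod 2) = (a.imI : ZMod 2) ∧
    normSq a = (m : ℤ)) := by
  unfold QQ
  rw [Set.mem_ofPred_eq, bas_emod_one, bas_emod_zero, bas_emod_zero]
  push_cast
  generalize (a.re : ZMod 2) = r
  generalize (a.imI : ZMod 2) = x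
  generalize (a.imJ : ZMod 2) = y
  generalize (a.imK : ZMod 2) = z
  have h : ∀ r x y z : ZMod 2, (r + x = 1 ∧ x + y = 0 ∧ x + z = 0) ↔ (r = 1 + x ∧ y = x ∧ z = x) := by
    decide
  have := h r x y z
  tauto

theorem mul_QQ {m n : ℕ} {a b : H} (ha : a ∈ QQ m) (hb : b ∈ QQ n) : a * b ∈ QQ (m * n) := by
  rw [bas_mem] at *
  obtain ⟨h1, h2, h3, h4⟩ := ha
  obtain ⟨k1, k2, k3, k4⟩ := hb
  refine ⟨?_, ?_, ?_, by rw [map_mul, h4, k4]; push_cast; ring⟩ <;>
  · simp only [bas_re, bas_I, bas_J, bas_K]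
    push_cast
    rw [h1, h2, h3, k1, k2, k3]
    generalize (a.imI : ZMod 2) = x
    generalize (b.imI : ZMod 2) = y
    revert x y
    decide

theorem star_QQ {m : ℕ} {a : H} (ha : a ∈ QQ m) : star a ∈ QQ m := by
  obtain ⟨h1, h2, h3, h4⟩ := ha
  refine ⟨?_, ?_, ?_, by rw [Quaternion.normSq_star]; exact h4⟩ <;> simp <;> omega

theorem neg_QQ {m : ℕ} {a : H} (ha : a ∈ QQ m) : -a ∈ QQ m := by
  obtain ⟨h1, h2, h3, h4⟩ := ha
  refine ⟨?_, ?_, ?_, by rw [Quaternion.normSq_neg]; exact h4⟩ <;> simp <;> omega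

private theorem bas_rot (i : ZMod 4) {m : ℕ} {a : H} (ha : a ∈ QQ m) : rot i a ∈ QQ m := by
  obtain ⟨h1, h2, h3, h4⟩ := ha
  refine ⟨?_, ?_, ?_, by rw [rot_norm]; exact h4⟩
  all_goals rcases cases4 i with rfl | rfl | rfl | rfl <;> simp only [rot0, rot1, rot2, rot3] <;> omega

theorem act_QQ (g : G) {m : ℕ} {a : H} (ha : a ∈ QQ m) : act g a ∈ QQ m := by
  rcases g with i | i
  · exact bas_rot i ha
  · have h' := bas_rot i ha
    obtain ⟨h0, h1, h2, h3⟩ := h'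
    refine ⟨?_, ?_, ?_, by rw [act_norm]; exact ha.2.2.2⟩
    all_goals simp only [act, flp]; omega

theorem one_QQ : (1 : H) ∈ QQ 1 := by
  refine ⟨?_, ?_, ?_, ?_⟩ <;> simp

theorem star_mul_QQ {m : ℕ} {a : H} (ha : a ∈ QQ m) : star a * a = (m : H) := by
  rw [Quaternion.star_mul_self, ha.2.2.2]; rfl

theorem mul_star_QQ {m : ℕ} {a : H} (ha : a ∈ QQ m) : a * star a = (m : H) := by
  rw [Quaternion.self_mul_star, ha.2.2.2]; rfl

theorem ne_zero_QQ {m : ℕ} (hm : 0 < m) {a : H} (ha : a ∈ QQ m) : a ≠ 0 := by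
  rintro rfl
  have h := ha.2.2.2
  rw [map_zero] at h
  exact absurd h.symm (by exact_mod_cast hm.ne')

private theorem bas_cases {m : ℕ} {a : H} (ha : a ∈ QQ m) :
    (∃ w x y z : ℤ, a.re = 2 * w + 1 ∧ a.imI = 2 * x ∧ a.imJ = 2 * y ∧ a.imK = 2 * z) ∨
    (∃ w x y z : ℤ, a.re = 2 * w ∧ a.imI = 2 * x + 1 ∧ a.imJ = 2 * y + 1 ∧
      a.imK = 2 * z + 1) := by
  obtain ⟨h1, h2, h3, -⟩ := ha
  rcases Int.emod_two_eq_zero_or_one a.imI with h | h
  · left
    exact ⟨a.re / 2, a.imI / 2, a.imJ / 2, a.imK / 2, by omega, by omega, by omega, by omega⟩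
  · right
    exact ⟨a.re / 2, a.imI / 2, a.imJ / 2, a.imK / 2, by omega, by omega, by omega, by omega⟩

private theorem bas_oct (w : ℤ) : ∃ v : ℤ, w ^ 2 + w = 2 * v := by
  rcases Int.even_or_odd' w with ⟨c, rfl | rfl⟩
  · exact ⟨2 * c ^ 2 + c, by ring⟩
  · exact ⟨2 * c ^ 2 + 3 * c + 1, by ring⟩

/-- The two types modulo 4, for `m = 1, 7` modulo 8. -/
theorem type_QQ {m : ℕ} {a : H} (ha : a ∈ QQ m) :
    (m % 8 = 1 → a.re % 2 = 1 ∧ a.imI % 2 = 0 ∧ a.imJ % 2 = 0 ∧ a.imK % 2 = 0 ∧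
      (a.imI + a.imJ + a.imK) % 4 = 0) ∧
    (m % 8 = 7 → a.re % 4 = 2 ∧ a.imI % 2 = 1 ∧ a.imJ % 2 = 1 ∧ a.imK % 2 = 1) := by
  have h4 := ha.2.2.2
  rw [normSq_eq] at h4
  rcases bas_cases ha with ⟨w, x, y, z, h1, h2, h3, h5⟩ | ⟨w, x, y, z, h1, h2, h3, h5⟩
  · obtain ⟨v, hv⟩ := bas_oct w
    rw [h1, h2, h3, h5] at h4
    have e : (m : ℤ) = 8 * v + 1 + 4 * (x ^ 2 + y ^ 2 + z ^ 2) := by
      have : (2 * w + 1) ^ 2 = 4 * (w ^ 2 + w) + 1 := by ring
      rw [← h4, this, hv]; ring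
    obtain ⟨a1, ha1⟩ := bas_oct x
    obtain ⟨a2, ha2⟩ := bas_oct y
    obtain ⟨a3, ha3⟩ := bas_oct z
    have e' : (m : ℤ) = 8 * v + 1 + 4 * (2 * a1 - x + (2 * a2 - y) + (2 * a3 - z)) := by
      rw [e, ← ha1, ← ha2, ← ha3]; ring
    refine ⟨fun hm => ⟨by omega, by omega, by omega, by omega, by omega⟩, fun hm => by omega⟩
  · obtain ⟨a1, ha1⟩ := bas_oct x
    obtain ⟨a2, ha2⟩ := bas_oct y
    obtain ⟨a3, ha3⟩ := bas_oct z
    obtain ⟨a0, ha0⟩ := bas_oct w
    rw [h1, h2, h3, h5] at h4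
    have e : (m : ℤ) = 4 * (2 * a0 - w) + 3 + 8 * (a1 + a2 + a3) := by
      have k1 : (2 * x + 1) ^ 2 = 4 * (x ^ 2 + x) + 1 := by ring
      have k2 : (2 * y + 1) ^ 2 = 4 * (y ^ 2 + y) + 1 := by ring
      have k3 : (2 * z + 1) ^ 2 = 4 * (z ^ 2 + z) + 1 := by ring
      rw [← h4, k1, k2, k3, ha1, ha2, ha3, ← ha0]; ring
    refine ⟨fun hm => by omega, fun hm => ⟨by omega, by omega, by omega, by omega⟩⟩

theorem re_ne {m : ℕ} (hm : m % 8 = 1 ∨ m % 8 = 7) {a : H} (ha : a ∈ QQ m) : a.re ≠ 0 := by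
  have h := type_QQ ha
  rcases hm with hm | hm
  · have := (h.1 hm).1; omega
  · have := (h.2 hm).1; omega

theorem nm_or (a : H) : nm a = a ∨ nm a = -a := by
  unfold nm; split_ifs
  · left; rfl
  · right; rfl

theorem nm_self {a : H} (h : 0 < a.re) : nm a = a := if_pos h

theorem nm_neg {a : H} (h : a.re ≠ 0) : nm (-a) = nm a := by
  unfold nm
  rw [Quaternion.re_neg]
  rcases lt_or_gt_of_ne h with h | h
  · rw [if_pos (by omega), if_neg (by omega)]
  · rw [if_neg (by omega), if_pos h, neg_neg]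

theorem nm_NN {m : ℕ} (hm : m % 8 = 1 ∨ m % 8 = 7) {a : H} (ha : a ∈ QQ m) : nm a ∈ NN m := by
  have h := re_ne hm ha
  unfold nm
  split_ifs with h1
  · exact ⟨ha, h1⟩
  · refine ⟨neg_QQ ha, ?_⟩
    rw [Quaternion.re_neg]; omega

/-- Two quaternions with nonzero real part, equal up to sign, have the same normalisation. -/
theorem nm_congr {a b : H} (h : a.re ≠ 0) (e : a = b ∨ a = -b) : nm a = nm b := by
  rcases e with rfl | rfl
  · rfl
  · exact nm_neg (by intro h'; apply h; rw [Quaternion.re_neg, h', neg_zero])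

theorem nm_act (g : G) (a : H) : nm (act g a) = act g (nm a) := by
  unfold nm
  rw [act_re]
  split_ifs
  · rfl
  · rw [act_neg]

theorem nm_star (a : H) : nm (star a) = star (nm a) := by
  unfold nm
  rw [Quaternion.re_star]
  split_ifs
  · rfl
  · rw [star_neg]

theorem dvd_nm (a b : H) : a ∣ nm b ↔ a ∣ b := by
  rcases nm_or b with h | h <;> rw [h]
  exact dvd_neg

theorem nm_dvd (a b : H) : nm a ∣ b ↔ a ∣ b := by
  rcases nm_or a with h | h <;> rw [h]
  exact neg_dvd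

theorem star_NN {m : ℕ} {a : H} (ha : a ∈ NN m) : star a ∈ NN m :=
  ⟨star_QQ ha.1, by rw [Quaternion.re_star]; exact ha.2⟩

theorem act_NN (g : G) {m : ℕ} {a : H} (ha : a ∈ NN m) : act g a ∈ NN m :=
  ⟨act_QQ g ha.1, by rw [act_re]; exact ha.2⟩

/-- A quaternion of norm one with the parities of an element of `QQ` is plus or minus one. -/
private theorem bas_unit {u : H} (h1 : (u.re + u.imI) % 2 = 1) (h2 : (u.imI + u.imJ) % 2 = 0)
    (h3 : (u.imI + u.imK) % 2 = 0) (h4 : normSq u = 1) : u = 1 ∨ u = -1 := by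
  rw [normSq_eq] at h4
  have b0 : -1 ≤ u.re ∧ u.re ≤ 1 := by
    constructor <;> nlinarith [sq_nonneg u.re, sq_nonneg u.imI, sq_nonneg u.imJ, sq_nonneg u.imK]
  have b1 : -1 ≤ u.imI ∧ u.imI ≤ 1 := by
    constructor <;> nlinarith [sq_nonneg u.re, sq_nonneg u.imI, sq_nonneg u.imJ, sq_nonneg u.imK]
  have b2 : -1 ≤ u.imJ ∧ u.imJ ≤ 1 := by
    constructor <;> nlinarith [sq_nonneg u.re, sq_nonneg u.imI, sq_nonneg u.imJ, sq_nonneg u.imK]
  have b3 : -1 ≤ u.imK ∧ u.imK ≤ 1 := by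
    constructor <;> nlinarith [sq_nonneg u.re, sq_nonneg u.imI, sq_nonneg u.imJ, sq_nonneg u.imK]
  have c1 : u.imI = 0 := by
    by_contra hI
    have q1 : u.imI ^ 2 ≥ 1 := by nlinarith [Int.one_le_abs hI, sq_abs u.imI, abs_nonneg u.imI]
    have hJ : u.imJ ≠ 0 := by omega
    have q2 : u.imJ ^ 2 ≥ 1 := by nlinarith [Int.one_le_abs hJ, sq_abs u.imJ, abs_nonneg u.imJ]
    nlinarith [sq_nonneg u.re, sq_nonneg u.imK]
  have c2 : u.imJ = 0 := by omega
  have c3 : u.imK = 0 := by omega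
  have c0 : u.re = 1 ∨ u.re = -1 := by omega
  rcases c0 with c0 | c0
  · left
    ext <;> simp [c0, c1, c2, c3]
  · right
    ext <;> simp [c0, c1, c2, c3]

theorem NN_one : NN 1 = {1} := by
  ext a
  rw [Set.mem_singleton_iff]
  constructor
  · rintro ⟨⟨h1, h2, h3, h4⟩, h0⟩
    rcases bas_unit h1 h2 h3 (by simpa using h4) with rfl | rfl
    · rfl
    · simp at h0
  · rintro rfl
    exact ⟨one_QQ, by simp⟩

/-- The parities of the cofactor. -/
private theorem bas_cofpar {m n : ℕ} {a b c : H} (ha : a ∈ QQ n) (hb : b ∈ QQ m)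
    (h : a = b * c) (hm : m % 2 = 1) :
    (c.re + c.imI) % 2 = 1 ∧ (c.imI + c.imJ) % 2 = 0 ∧ (c.imI + c.imK) % 2 = 0 := by
  have e : star b * a ∈ QQ (m * n) := mul_QQ (star_QQ hb) ha
  have e2 : star b * a = (m : H) * c := by
    rw [h, ← mul_assoc, star_mul_QQ hb]
  rw [e2] at e
  obtain ⟨k1, k2, k3, -⟩ := e
  have r0 : ((m : H) * c).re = (m : ℤ) * c.re := by simp
  have r1 : ((m : H) * c).imI = (m : ℤ) * c.imI := by simp
  have r2 : ((m : H) * c).imJ = (m : ℤ) * c.imJ := by simp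
  have r3 : ((m : H) * c).imK = (m : ℤ) * c.imK := by simp
  rw [r0, r1, ← mul_add, Int.mul_emod] at k1
  rw [r1, r2, ← mul_add, Int.mul_emod] at k2
  rw [r1, r3, ← mul_add, Int.mul_emod] at k3
  have hm' : (m : ℤ) % 2 = 1 := by omega
  rw [hm'] at k1 k2 k3
  refine ⟨by omega, by omega, by omega⟩

private theorem bas_odd {m : ℕ} {a : H} (ha : a ∈ QQ m) : m % 2 = 1 := by
  have h4 := ha.2.2.2
  rw [normSq_eq] at h4
  have key : (m : ℤ) % 2 = 1 := by
    rcases bas_cases ha with ⟨w, x, y, z, h1, h2, h3, h5⟩ | ⟨w, x, y, z, h1, h2, h3, h5⟩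
    · rw [h1, h2, h3, h5] at h4
      have : (m : ℤ) = 2 * (2 * w ^ 2 + 2 * w + 2 * x ^ 2 + 2 * y ^ 2 + 2 * z ^ 2) + 1 := by
        rw [← h4]; ring
      omega
    · rw [h1, h2, h3, h5] at h4
      have : (m : ℤ) = 2 * (2 * w ^ 2 + 2 * x ^ 2 + 2 * x + 2 * y ^ 2 + 2 * y + 2 * z ^ 2 +
          2 * z + 1) + 1 := by
        rw [← h4]; ring
      omega
  omega

theorem unit_right {m n : ℕ} {a b u : H} (ha : a ∈ NN m) (hb : b ∈ NN n) (hu : normSq u = 1)
    (h : a = b * u) : a = b := by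
  obtain ⟨h1, h2, h3⟩ := bas_cofpar ha.1 hb.1 h (bas_odd hb.1)
  rcases bas_unit h1 h2 h3 hu with rfl | rfl
  · rw [h, mul_one]
  · exfalso
    have h0 := ha.2
    rw [h, mul_neg, mul_one, Quaternion.re_neg] at h0
    have := hb.2
    omega

/-- Two elements of `NN m` with `star a * b` divisible by `m` are equal. -/
theorem NN_eq {m : ℕ} (hm : 0 < m) {a b : H} (ha : a ∈ NN m) (hb : b ∈ NN m)
    (h : ∃ u : H, star a * b = (m : H) * u) : a = b := by
  obtain ⟨u, hu⟩ := h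
  have hm' : (m : ℤ) ≠ 0 := by exact_mod_cast hm.ne'
  have hn : normSq u = 1 := by
    have e := congrArg normSq hu
    rw [map_mul, map_mul, Quaternion.normSq_star, ha.1.2.2.2, hb.1.2.2.2,
      Quaternion.normSq_natCast] at e
    have : (m : ℤ) ^ 2 * normSq u = (m : ℤ) ^ 2 * 1 := by rw [← e]; ring
    exact mul_left_cancel₀ (pow_ne_zero 2 hm') this
  have e2 : (m : H) * b = (m : H) * (a * u) := by
    calc (m : H) * b = a * (star a * b) := by rw [← mul_assoc, mul_star_QQ ha.1]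
      _ = a * ((m : H) * u) := by rw [hu]
      _ = (a * (m : H)) * u := by rw [mul_assoc]
      _ = ((m : H) * a) * u := by rw [(Nat.cast_commute m a).eq]
      _ = (m : H) * (a * u) := by rw [mul_assoc]
  have e3 : b = a * u := by
    have hmH : (m : H) ≠ 0 := by
      intro h0
      have h00 : (m : H).re = (0 : H).re := by rw [h0]
      simp at h00
      omega
    exact mul_left_cancel₀ hmH e2
  exact (unit_right hb ha hn e3).symm

theorem cof_QQ {m n : ℕ} (hm : m % 2 = 1) {a b c : H} (ha : a ∈ QQ (m * n)) (hb : b ∈ QQ m)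
    (h : a = b * c) : c ∈ QQ n := by
  obtain ⟨h1, h2, h3⟩ := bas_cofpar ha hb h hm
  refine ⟨h1, h2, h3, ?_⟩
  have e := ha.2.2.2
  rw [h, map_mul, hb.2.2.2] at e
  push_cast at e
  exact mul_left_cancel₀ (by omega) e

/-- Coordinatewise divisibility. -/
theorem natdvd_iff (n : ℕ) (a : H) : (∃ u : H, a = (n : H) * u) ↔
    ((n : ℤ) ∣ a.re ∧ (n : ℤ) ∣ a.imI ∧ (n : ℤ) ∣ a.imJ ∧ (n : ℤ) ∣ a.imK) := by
  constructor
  · rintro ⟨u, rfl⟩
    refine ⟨⟨u.re, by simp⟩, ⟨u.imI, by simp⟩, ⟨u.imJ, by simp⟩, ⟨u.imK, by simp⟩⟩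
  · rintro ⟨⟨w, hw⟩, ⟨x, hx⟩, ⟨y, hy⟩, ⟨z, hz⟩⟩
    have e : ∀ u : H, ((n : H) * u).re = (n : ℤ) * u.re ∧ ((n : H) * u).imI = (n : ℤ) * u.imI ∧
        ((n : H) * u).imJ = (n : ℤ) * u.imJ ∧ ((n : H) * u).imK = (n : ℤ) * u.imK := by
      intro u; simp
    obtain ⟨e0, e1, e2, e3⟩ := e ⟨w, x, y, z⟩
    refine ⟨⟨w, x, y, z⟩, ?_⟩
    ext
    · rw [e0, hw]
    · rw [e1, hx]
    · rw [e2, hy]
    · rw [e3, hz]

end Pool.Agent.TQG
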