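import Mathlib

/-!
Project TQG, module BUR (Mathlib only): Burnside for the group (subsets of `P`) × (dihedral group).

Let the group `(P → ℤˣ) × DihedralGroup 4` (or `Multiplicative (P → ZMod 2) × ..`), of order
`2 ^ |P| * 8`, act on `X` by `(v, g) x = r (S v) (α g x)`, `S v = {i ∈ P | v i = -1}`, with
`S (v * w) = symmDiff (S v) (S w)`. Then use
`MulAction.sum_card_fixedBy_eq_card_orbits_mul_card_group` and the bijection `v ↦ S v` with
`P.powerset`.
-/

namespace Pool.Agent.TQG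

private def burS (P : Finset ℕ) (v : ↥P → ℤˣ) : Finset ℕ :=
  (Finset.univ.filter fun i => v i = -1).map ⟨Subtype.val, Subtype.val_injective⟩

private lemma bur_mem {P : Finset ℕ} {v : ↥P → ℤˣ} {i : ℕ} :
    i ∈ burS P v ↔ ∃ h : i ∈ P, v ⟨i, h⟩ = -1 := by
  unfold burS
  rw [Finset.mem_map]
  constructor
  · rintro ⟨⟨j, hj⟩, h1, rfl⟩
    rw [Finset.mem_filter] at h1
    exact ⟨hj, h1.2⟩
  · rintro ⟨h, h1⟩
    exact ⟨⟨i, h⟩, by simpa using h1, rfl⟩

private lemma bur_sub (P : Finset ℕ) (v : ↥P → ℤˣ) : burS P v ⊆ P := by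
  intro i hi
  obtain ⟨h, -⟩ := bur_mem.1 hi
  exact h

private lemma bur_one (P : Finset ℕ) : burS P 1 = ∅ := by
  ext i
  rw [bur_mem]
  simp

private lemma bur_units (a b : ℤˣ) : a * b = -1 ↔ (a = -1 ∧ ¬ b = -1 ∨ b = -1 ∧ ¬ a = -1) := by
  rcases Int.units_eq_one_or a with rfl | rfl <;> rcases Int.units_eq_one_or b with rfl | rfl <;>
    decide

private lemma bur_mul (P : Finset ℕ) (v w : ↥P → ℤˣ) :
    burS P (v * w) = symmDiff (burS P v) (burS P w) := by
  ext i
  rw [Finset.mem_symmDiff, bur_mem, bur_mem, bur_mem]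
  by_cases h : i ∈ P
  · have e : (∃ h : i ∈ P, (v * w) ⟨i, h⟩ = -1) ↔ v ⟨i, h⟩ * w ⟨i, h⟩ = -1 := by
      constructor
      · rintro ⟨_, h1⟩; exact h1
      · intro h1; exact ⟨h, h1⟩
    have e1 : (∃ h : i ∈ P, v ⟨i, h⟩ = -1) ↔ v ⟨i, h⟩ = -1 :=
      ⟨fun ⟨_, h1⟩ => h1, fun h1 => ⟨h, h1⟩⟩
    have e2 : (∃ h : i ∈ P, w ⟨i, h⟩ = -1) ↔ w ⟨i, h⟩ = -1 :=
      ⟨fun ⟨_, h1⟩ => h1, fun h1 => ⟨h, h1⟩⟩
    rw [e, e1, e2]
    exact bur_units _ _
  · simp [h]

theorem bur {X : Type} [Finite X] (P : Finset ℕ) (r : Finset ℕ → X → X)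
    (h0 : ∀ x, r ∅ x = x)
    (hr : ∀ S T, S ⊆ P → T ⊆ P → ∀ x, r T (r S x) = r (symmDiff S T) x)
    (α : DihedralGroup 4 → X → X) (a1 : ∀ x, α 1 x = x)
    (am : ∀ g h x, α (g * h) x = α g (α h x))
    (comm : ∀ S, S ⊆ P → ∀ g x, r S (α g x) = α g (r S x)) :
    2 ^ (P.card + 3) ∣ ∑ S ∈ P.powerset, ∑ g : DihedralGroup 4,
      Nat.card {x : X // r S (α g x) = x} := by
  classical
  haveI : Fintype X := Fintype.ofFinite X
  letI act : MulAction ((↥P → ℤˣ) × DihedralGroup 4) X :=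
    { smul := fun a x => r (burS P a.1) (α a.2 x)
      one_smul := fun x => by
        change r (burS P 1) (α 1 x) = x
        rw [bur_one, a1, h0]
      mul_smul := fun a b x => by
        change r (burS P (a.1 * b.1)) (α (a.2 * b.2) x) =
          r (burS P a.1) (α a.2 (r (burS P b.1) (α b.2 x)))
        rw [← comm _ (bur_sub P b.1), hr _ _ (bur_sub P b.1) (bur_sub P a.1), bur_mul, am,
          symmDiff_comm] }
  have hB := MulAction.sum_card_fixedBy_eq_card_orbits_mul_card_group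
    ((↥P → ℤˣ) × DihedralGroup 4) X
  have hcard : Fintype.card ((↥P → ℤˣ) × DihedralGroup 4) = 2 ^ (P.card + 3) := by
    rw [Fintype.card_prod, DihedralGroup.card, Fintype.card_fun, Fintype.card_units_int,
      Fintype.card_coe, pow_add]
    norm_num
  rw [hcard] at hB
  have hfix : ∀ a : (↥P → ℤˣ) × DihedralGroup 4,
      Fintype.card (MulAction.fixedBy X a) =
        Nat.card {x : X // r (burS P a.1) (α a.2 x) = x} := fun a => by
    rw [← Nat.card_eq_fintype_card]
    rfl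
  have hsum : ∑ S ∈ P.powerset, ∑ g : DihedralGroup 4,
      Nat.card {x : X // r S (α g x) = x} =
      ∑ a : (↥P → ℤˣ) × DihedralGroup 4, Fintype.card (MulAction.fixedBy X a) := by
    rw [Fintype.sum_prod_type]
    simp_rw [hfix]
    symm
    refine Finset.sum_nbij' (fun v => burS P v)
      (fun S i => if (i : ℕ) ∈ S then -1 else 1) ?_ ?_ ?_ ?_ ?_
    · intro v _
      exact Finset.mem_powerset.2 (bur_sub P v)
    · intro S _
      exact Finset.mem_univ _
    · intro v _
      funext i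
      obtain ⟨i, hi⟩ := i
      by_cases h : v ⟨i, hi⟩ = -1
      · have : i ∈ burS P v := bur_mem.2 ⟨hi, h⟩
        simp [this, h]
      · have h1 : i ∉ burS P v := fun hc => by
          obtain ⟨_, h2⟩ := bur_mem.1 hc
          exact h h2
        have h2 : v ⟨i, hi⟩ = 1 := (Int.units_eq_one_or _).resolve_right h
        simp [h1, h2]
    · intro S hS
      rw [Finset.mem_powerset] at hS
      ext i
      rw [bur_mem]
      constructor
      · rintro ⟨_, h1⟩
        by_contra hc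
        simp only [hc, if_false] at h1
        exact absurd h1 (by decide)
      · intro hi
        exact ⟨hS hi, by simp [hi]⟩
    · intro v _
      rfl
  rw [hsum, hB]
  exact Dvd.intro_left _ rfl

end Pool.Agent.TQG
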