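import Pool.Agent.TQG.Crd
import Pool.Agent.TQS.Tau

/-!
Project TQG, module EIG: the number of `c ∈ NN q` with `c ∣ w * c`, for a prime `q` and a pure `w`.

`c ∣ w * c` iff `q` divides (the coordinates of) `star c * w * c` (multiply by `star c`, cancel).
Use the matrices of TQS/Tau.lean: `F = ZMod q`, `x ^ 2 + y ^ 2 = -1` in `F` (`ZMod.sq_add_sq`),
`phm x y : H → Mat_2(F)` multiplicative (`phm_mul`), `det = normSq` (`phm_det`), `star` goes to the
adjugate (`phm_star`). For `c ∈ NN q` let `pt c` be the point of the projective line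
`OnePoint F` with `phm (star c) (vec (pt c)) = 0` (`exists_pt`). `pt` is injective (`dvd_of_kernel`
applied to `star c`, `star c'`: `q ∣ star c * c'`, then `NN_eq`) and `NN q` has `q + 1` elements
(`card_NN`), so `pt : NN q → OnePoint F` is bijective, as in `Tau.exists_tau0`.
Now `q ∣ star c * w * c` iff `phm w` maps the line of `vec (pt c)` to itself, i.e.
`phm (star c) (phm w (vec (pt c))) = 0`: (if) `dvd_of_kernel` with `star c * w` and `star c`;
(only if) `phm (star c) * phm w * phm c = 0`; a nonzero column `u` of `phm c` lies in the kernel of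
`phm (star c)`, so it is proportional to `vec (pt c)` (the kernel is one-dimensional).
COUNT the fixed lines of the matrix `phm w = !![a, b; c, -a]` (trace `2 re w = 0`) with
determinant `n = normSq w ≠ 0`: the line `∞` is fixed iff `c = 0`; the line of `(x, 1)` iff
`c x^2 - 2 a x - b = 0`. If `c ≠ 0` the discriminant `4 (a^2 + b c) = - 4 n` is nonzero, the number of
roots is `1 + χ(- n)`; if `c = 0` then `- n = a^2` is a nonzero square and there are `2 = 1 + χ(-n)`
fixed lines. (`χ` = `quadraticChar`, `quadraticChar_eq_one_iff..`; `jacobiSym.legendreSym.to_jacobiSym`.)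
-/

namespace Pool.Agent.TQG

open Pool.Agent.TQS Quaternion

private theorem eig_im {F : Type} [Field F] {M : Matrix (Fin 2) (Fin 2) F} (hM : M ≠ 0)
    {v : Fin 2 → F} (h : M.adjugate.mulVec v = 0) : ∃ u, M.mulVec u = v := by
  rw [Matrix.adjugate_fin_two] at h
  have h0 : M 1 1 * v 0 = M 0 1 * v 1 := by
    have := congrFun h 0
    simp [Matrix.mulVec, dotProduct, Fin.sum_univ_two] at this
    linear_combination this
  have h1 : M 0 0 * v 1 = M 1 0 * v 0 := by
    have := congrFun h 1
    simp [Matrix.mulVec, dotProduct, Fin.sum_univ_two] at this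
    linear_combination this
  by_cases h00 : M 0 0 = 0
  · by_cases h01 : M 0 1 = 0
    · by_cases h10 : M 1 0 = 0
      · by_cases h11 : M 1 1 = 0
        · exfalso
          apply hM
          ext i j
          fin_cases i <;> fin_cases j <;> simp [h00, h01, h10, h11]
        · refine ⟨![0, v 1 / M 1 1], ?_⟩
          ext i
          fin_cases i
          · simp [Matrix.mulVec, dotProduct, Fin.sum_univ_two]
            field_simp
            rw [← h0]
          · simp [Matrix.mulVec, dotProduct, Fin.sum_univ_two]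
            field_simp
      · refine ⟨![v 1 / M 1 0, 0], ?_⟩
        ext i
        fin_cases i
        · simp [Matrix.mulVec, dotProduct, Fin.sum_univ_two]
          field_simp
          rw [h1]
        · simp [Matrix.mulVec, dotProduct, Fin.sum_univ_two]
          field_simp
    · refine ⟨![0, v 0 / M 0 1], ?_⟩
      ext i
      fin_cases i
      · simp [Matrix.mulVec, dotProduct, Fin.sum_univ_two]
        field_simp
      · simp [Matrix.mulVec, dotProduct, Fin.sum_univ_two]
        field_simp
        rw [h0]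
  · refine ⟨![v 0 / M 0 0, 0], ?_⟩
    ext i
    fin_cases i
    · simp [Matrix.mulVec, dotProduct, Fin.sum_univ_two]
      field_simp
    · simp [Matrix.mulVec, dotProduct, Fin.sum_univ_two]
      field_simp
      rw [← h1]

private theorem eig_ker {F : Type} [Field F] {N : Matrix (Fin 2) (Fin 2) F} (hN : N ≠ 0)
    {v v' : Fin 2 → F} (hv : v ≠ 0) (h : N.mulVec v = 0) :
    N.mulVec v' = 0 ↔ v 0 * v' 1 - v 1 * v' 0 = 0 := by
  have e : ∀ i, N i 0 * v 0 + N i 1 * v 1 = 0 := by
    intro i
    have := congrFun h i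
    simpa [Matrix.mulVec, dotProduct, Fin.sum_univ_two] using this
  constructor
  · intro h'
    have e' : ∀ i, N i 0 * v' 0 + N i 1 * v' 1 = 0 := by
      intro i
      have := congrFun h' i
      simpa [Matrix.mulVec, dotProduct, Fin.sum_univ_two] using this
    obtain ⟨i, hi⟩ : ∃ i, N i 0 ≠ 0 ∨ N i 1 ≠ 0 := by
      by_contra hcon
      push Not at hcon
      apply hN
      ext i j
      fin_cases j
      · simpa using (hcon i).1
      · simpa using (hcon i).2
    refine Tau.orth_aux hi ?_ ?_
    · linear_combination e i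
    · linear_combination e' i
  · intro hc
    ext i
    simp only [Matrix.mulVec, dotProduct, Fin.sum_univ_two, Pi.zero_apply]
    have hv' : v 0 ≠ 0 ∨ v 1 ≠ 0 := by
      by_contra hcon
      push Not at hcon
      apply hv
      ext i
      fin_cases i
      · simpa using hcon.1
      · simpa using hcon.2
    rcases hv' with h0 | h0
    · apply mul_left_cancel₀ h0
      linear_combination (N i 1) * hc + (v' 0) * e i
    · apply mul_left_cancel₀ h0
      linear_combination -(N i 0) * hc + (v' 1) * e i

private theorem eig_option {F : Type} [Fintype F] (P : Option F → Prop) [Decidable (P none)] :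
    Nat.card {z : Option F // P z} =
      (if P none then 1 else 0) + Nat.card {t : F // P (some t)} := by
  classical
  rw [Nat.card_eq_fintype_card, Nat.card_eq_fintype_card, Fintype.card_subtype,
    Fintype.card_subtype, Finset.card_filter, Finset.card_filter, Fintype.sum_option]
  congr 1
  split_ifs <;> rfl

private theorem eig_count {q : ℕ} [Fact q.Prime] (h2 : q ≠ 2) (α β γ : ZMod q)
    (hd : α ^ 2 + β * γ ≠ 0) :
    (Nat.card {z : OnePoint (ZMod q) //
      Tau.vec z 0 * (γ * Tau.vec z 0 - α * Tau.vec z 1) -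
        Tau.vec z 1 * (α * Tau.vec z 0 + β * Tau.vec z 1) = 0} : ℤ) =
      1 + quadraticChar (ZMod q) (α ^ 2 + β * γ) := by
  classical
  have h2' : (2 : ZMod q) ≠ 0 := by
    have h3 : ((2 : ℕ) : ZMod q) ≠ 0 := by
      rw [Ne, ZMod.natCast_eq_zero_iff]
      intro h4
      exact h2 ((Nat.prime_dvd_prime_iff_eq (Fact.out : q.Prime) Nat.prime_two).1 h4)
    exact_mod_cast h3
  have key := eig_option (F := ZMod q) (fun z : OnePoint (ZMod q) =>
    Tau.vec z 0 * (γ * Tau.vec z 0 - α * Tau.vec z 1) -
        Tau.vec z 1 * (α * Tau.vec z 0 + β * Tau.vec z 1) = 0)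
  have hnone : (Tau.vec (OnePoint.infty : OnePoint (ZMod q)) 0 *
      (γ * Tau.vec (OnePoint.infty : OnePoint (ZMod q)) 0 -
        α * Tau.vec (OnePoint.infty : OnePoint (ZMod q)) 1) -
        Tau.vec (OnePoint.infty : OnePoint (ZMod q)) 1 *
        (α * Tau.vec (OnePoint.infty : OnePoint (ZMod q)) 0 +
          β * Tau.vec (OnePoint.infty : OnePoint (ZMod q)) 1) = 0) ↔ γ = 0 := by
    rw [Tau.vec_infty]
    simp
  have hsome : ∀ t : ZMod q, (Tau.vec (t : OnePoint (ZMod q)) 0 *
      (γ * Tau.vec (t : OnePoint (ZMod q)) 0 -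
        α * Tau.vec (t : OnePoint (ZMod q)) 1) -
        Tau.vec (t : OnePoint (ZMod q)) 1 *
        (α * Tau.vec (t : OnePoint (ZMod q)) 0 +
          β * Tau.vec (t : OnePoint (ZMod q)) 1) = 0) ↔ γ * t ^ 2 - 2 * α * t - β = 0 := by
    intro t
    rw [Tau.vec_coe]
    simp only [Matrix.cons_val_zero, Matrix.cons_val_one]
    constructor
    · intro h
      linear_combination h
    · intro h
      linear_combination h
  have hcard : Nat.card {z : OnePoint (ZMod q) //
      Tau.vec z 0 * (γ * Tau.vec z 0 - α * Tau.vec z 1) -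
        Tau.vec z 1 * (α * Tau.vec z 0 + β * Tau.vec z 1) = 0} =
      (if γ = 0 then 1 else 0) + Nat.card {t : ZMod q // γ * t ^ 2 - 2 * α * t - β = 0} := by
    refine key.trans ?_
    congr 1
    · exact if_congr hnone rfl rfl
    · exact Nat.card_congr (Equiv.subtypeEquivRight hsome)
  rw [hcard]
  by_cases hγ : γ = 0
  · rw [if_pos hγ]
    subst hγ
    have hα : α ≠ 0 := by
      rintro rfl
      apply hd
      ring
    have h1 : Nat.card {t : ZMod q // 0 * t ^ 2 - 2 * α * t - β = 0} = 1 := by
      rw [Nat.card_eq_one_iff_unique]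
      refine ⟨⟨fun x y => ?_⟩, ⟨⟨-β / (2 * α), ?_⟩⟩⟩
      · apply Subtype.ext
        apply mul_left_cancel₀ (mul_ne_zero h2' hα)
        linear_combination -x.2 + y.2
      · field_simp
        ring
    have h3 : α ^ 2 + β * 0 = α ^ 2 := by ring
    rw [h1, h3, quadraticChar_sq_one' hα]
    norm_num
  · rw [if_neg hγ, zero_add]
    have h1 : Nat.card {t : ZMod q // γ * t ^ 2 - 2 * α * t - β = 0} =
        Nat.card {s : ZMod q // s ^ 2 = α ^ 2 + β * γ} := by
      refine Nat.card_congr ⟨fun t => ⟨γ * t.1 - α, ?_⟩, fun s => ⟨(s.1 + α) / γ, ?_⟩, ?_, ?_⟩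
      · linear_combination γ * t.2
      · have h4 := s.2
        have h5 : γ * ((s.1 + α) / γ) = s.1 + α := mul_div_cancel₀ _ hγ
        apply mul_left_cancel₀ hγ
        linear_combination (γ * ((s.1 + α) / γ) + s.1 + α - 2 * α) * h5 + h4
      · intro t
        apply Subtype.ext
        show (γ * t.1 - α + α) / γ = t.1
        rw [sub_add_cancel, mul_div_cancel_left₀ _ hγ]
      · intro s
        apply Subtype.ext
        show γ * ((s.1 + α) / γ) - α = s.1
        rw [mul_div_cancel₀ _ hγ, add_sub_cancel_right]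
    have h3 := quadraticChar_card_sqrts (F := ZMod q)
      (by rw [ZMod.ringChar_zmod_n]; exact h2) (α ^ 2 + β * γ)
    rw [h1, add_comm (1 : ℤ) _, ← h3, Set.toFinset_card, Nat.card_eq_fintype_card]
    rfl

theorem eig_prime {q : ℕ} (hq : q.Prime) (h8 : q % 8 = 1 ∨ q % 8 = 7) {w : H} (hw : w.re = 0)
    (hn : ¬ (q : ℤ) ∣ normSq w) :
    (Nat.card {c : H | c ∈ NN q ∧ c ∣ w * c} : ℤ) = 1 + jacobiSym (-(normSq w)) q := by
  classical
  have : Fact q.Prime := ⟨hq⟩
  have h2 : q ≠ 2 := by
    rintro rfl
    omega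
  have hq0 : (q : ℤ) ≠ 0 := by
    exact_mod_cast hq.ne_zero
  have hqH : (q : H) ≠ 0 := by
    intro h0
    have h1 : ((q : H)).re = (0 : ℤ) := by rw [h0]; rfl
    rw [Quaternion.re_natCast] at h1
    exact hq0 h1
  obtain ⟨a, b, hab⟩ := ZMod.sq_add_sq q (-1)
  -- the point of the projective line
  have hex : ∀ c : NN q, ∃ y : OnePoint (ZMod q), (Tau.phm a b (star (c : H))).mulVec (Tau.vec y) = 0 := by
    intro c
    apply Tau.exists_pt
    rw [Tau.phm_det hab, Quaternion.normSq_star, c.2.1.2.2.2]
    simp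
  choose pt hpt using hex
  have hinj : Function.Injective pt := by
    intro x y hxy
    obtain ⟨u, hu⟩ := Tau.dvd_of_kernel h2 hab (hpt x) (by rw [hxy]; exact hpt y)
    rw [star_star] at hu
    exact Subtype.ext (NN_eq hq.pos x.2 y.2 ⟨u, hu⟩)
  have : Fintype (NN q) := Fintype.ofFinite _
  have hbij : Function.Bijective pt := by
    rw [Fintype.bijective_iff_injective_and_card]
    refine ⟨hinj, ?_⟩
    rw [← Nat.card_eq_fintype_card, card_NN q h8]
    show _ = Fintype.card (Option (ZMod q))
    rw [Fintype.card_option, ZMod.card, ArithmeticFunction.sigma_one_apply, hq.sum_divisors,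
      add_comm]
  set e : NN q ≃ OnePoint (ZMod q) := Equiv.ofBijective pt hbij with he
  -- the matrix of `w`
  set α : ZMod q := a * w.imJ - b * w.imK with hα
  set β : ZMod q := -(w.imI : ZMod q) + b * w.imJ + a * w.imK with hβ
  set γ : ZMod q := (w.imI : ZMod q) + b * w.imJ + a * w.imK with hγ
  have hphw : Tau.phm a b w = !![α, β; γ, -α] := by
    rw [Tau.phm, hw, hα, hβ, hγ]
    ext i j
    fin_cases i <;> fin_cases j <;> simp
    ring
  have hdet : α ^ 2 + β * γ = ((-(normSq w) : ℤ) : ZMod q) := by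
    have h1 := Tau.phm_det hab w
    rw [hphw, Matrix.det_fin_two_of] at h1
    push_cast
    linear_combination -h1
  have hd : α ^ 2 + β * γ ≠ 0 := by
    rw [hdet, Ne, ZMod.intCast_zmod_eq_zero_iff_dvd, dvd_neg]
    exact hn
  -- divisibility and the lines
  have hiff : ∀ c : NN q, ((c : H) ∣ w * (c : H)) ↔
      (Tau.vec (pt c) 0 * (γ * Tau.vec (pt c) 0 - α * Tau.vec (pt c) 1) -
        Tau.vec (pt c) 1 * (α * Tau.vec (pt c) 0 + β * Tau.vec (pt c) 1) = 0) := by
    intro c
    have hc : star (c : H) * (c : H) = (q : H) := star_mul_QQ c.2.1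
    have hc' : (c : H) * star (c : H) = (q : H) := mul_star_QQ c.2.1
    have hcne : (c : H) ≠ 0 := ne_zero_QQ hq.pos c.2.1
    have hsne : star (c : H) ≠ 0 := by
      intro h0
      apply hcne
      rw [← star_star (c : H), h0, star_zero]
    have hphc : ∀ d : H, normSq d = (q : ℤ) → Tau.phm a b d ≠ 0 := by
      intro d hd1 h0
      obtain ⟨u, hu⟩ := Tau.phm_eq_zero h2 hab h0
      have e1 := congrArg normSq hu
      rw [map_mul, hd1, Tau.normSq_natCast] at e1
      have e2 : (q : ℤ) * 1 = q * (q * normSq u) := by linear_combination e1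
      have e3 := mul_left_cancel₀ hq0 e2
      have e4 : (q : ℤ) ∣ 1 := ⟨_, e3⟩
      have e5 : q ∣ 1 := by exact_mod_cast e4
      exact hq.one_lt.ne' (Nat.dvd_one.1 e5)
    have hn1 : normSq (c : H) = (q : ℤ) := c.2.1.2.2.2
    have hn2 : normSq (star (c : H)) = (q : ℤ) := by rw [Quaternion.normSq_star, hn1]
    -- first step
    have s1 : ((c : H) ∣ w * (c : H)) ↔ ∃ u : H, star (c : H) * w * (c : H) = (q : H) * u := by
      constructor
      · rintro ⟨d, hd1⟩
        refine ⟨d, ?_⟩
        rw [mul_assoc, hd1, ← mul_assoc, hc]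
      · rintro ⟨u, hu⟩
        refine ⟨u, ?_⟩
        apply mul_left_cancel₀ hsne
        rw [← mul_assoc, hu, ← mul_assoc, hc]
    have s2 : (∃ u : H, star (c : H) * w * (c : H) = (q : H) * u) ↔
        (Tau.phm a b (star (c : H))).mulVec ((Tau.phm a b w).mulVec (Tau.vec (pt c))) = 0 := by
      constructor
      · rintro ⟨u, hu⟩
        have h3 : (Tau.phm a b (c : H)).adjugate.mulVec (Tau.vec (pt c)) = 0 := by
          rw [← Tau.phm_star]
          exact hpt c
        obtain ⟨v, hv⟩ := eig_im (hphc _ hn1) h3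
        rw [← hv, Matrix.mulVec_mulVec, Matrix.mulVec_mulVec, ← Tau.phm_mul hab,
          ← Tau.phm_mul hab, hu, Tau.phm_natCast, Matrix.zero_mulVec]
      · intro h3
        have h4 : (Tau.phm a b (star (c : H) * w)).mulVec (Tau.vec (pt c)) = 0 := by
          rw [Tau.phm_mul hab, ← Matrix.mulVec_mulVec]
          exact h3
        obtain ⟨u, hu⟩ := Tau.dvd_of_kernel h2 hab h4 (hpt c)
        rw [star_star] at hu
        exact ⟨u, hu⟩
    rw [s1, s2, eig_ker (hphc _ hn2) (Tau.vec_ne (pt c)) (hpt c), hphw]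
    simp only [Matrix.mulVec, dotProduct, Fin.sum_univ_two, Matrix.of_apply, Matrix.cons_val',
      Matrix.cons_val_zero, Matrix.cons_val_one, Matrix.cons_val_fin_one]
    constructor
    · intro h
      linear_combination h
    · intro h
      linear_combination h
  have hcount : Nat.card {c : H | c ∈ NN q ∧ c ∣ w * c} =
      Nat.card {z : OnePoint (ZMod q) //
      Tau.vec z 0 * (γ * Tau.vec z 0 - α * Tau.vec z 1) -
        Tau.vec z 1 * (α * Tau.vec z 0 + β * Tau.vec z 1) = 0} := by
    have e1 : Nat.card {c : H | c ∈ NN q ∧ c ∣ w * c} =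
        Nat.card {c : NN q // (c : H) ∣ w * (c : H)} :=
      Nat.card_congr (Equiv.subtypeSubtypeEquivSubtypeInter (· ∈ NN q)
        (fun c : H => c ∣ w * c)).symm
    rw [e1]
    exact Nat.card_congr (e.subtypeEquiv hiff)
  rw [hcount, eig_count h2 α β γ hd, hdet, ← jacobiSym.legendreSym.to_jacobiSym]
  rfl

end Pool.Agent.TQG
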