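import Pool.Agent.TQG.Crt
import Pool.Agent.TQG.Eig

/-!
Project TQG, module EGC: the same count for `NN (pp P)`.

For `c ∈ NN (pp P)`, `c ∣ w * c` iff `pp P` divides the coordinates of `star c * w * c`, iff every
`q ∈ P` does (`pp_dvd_int`, `natdvd_iff`). With `x = L {q} c`, `c = x * d`, `normSq d = pp (P \ {q})`
prime to `q`: `star c * w * c = star d * (star x * w * x) * d`; so `q` divides it iff `q` divides
`star x * w * x` (multiply by `d` and `star d`), iff `x ∣ w * x`. Now `crt_card` with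
`E q = {x | x ∣ w * x}` and `eig_prime`.
-/

namespace Pool.Agent.TQG

open Pool.Agent.TQS Quaternion

private theorem cast_ne {n : ℕ} (hn : 0 < n) : (n : H) ≠ 0 := by
  intro h
  have h1 := congrArg (fun x : H => x.re) h
  simp only [Quaternion.re_natCast, Quaternion.re_zero] at h1
  have : n = 0 := by exact_mod_cast h1
  omega

private theorem egc_dvd {n : ℕ} (hn : 0 < n) {b w : H} (hb : b ∈ QQ n) :
    b ∣ w * b ↔ ∃ u : H, star b * w * b = (n : H) * u := by
  constructor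
  · rintro ⟨u, hu⟩
    refine ⟨u, ?_⟩
    rw [mul_assoc, hu, ← mul_assoc, star_mul_QQ hb]
  · rintro ⟨u, hu⟩
    refine ⟨u, ?_⟩
    apply mul_left_cancel₀ (cast_ne hn)
    have h1 : b * (star b * w * b) = b * ((n : H) * u) := by rw [hu]
    have h2 : b * (star b * w * b) = (n : H) * (w * b) := by
      rw [← mul_star_QQ hb]
      simp only [mul_assoc]
    have h3 : b * ((n : H) * u) = (n : H) * (b * u) := by
      rw [← mul_assoc, ← (Nat.cast_commute n b).eq, mul_assoc]
    rw [h2, h3] at h1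
    exact h1

private theorem egc_step {P : Finset ℕ} (hP : GP P) {w c : H} (hc : c ∈ NN (pp P)) {q : ℕ}
    (hq : q ∈ P) : (∃ u : H, star c * w * c = (q : H) * u) ↔ L {q} c ∣ w * L {q} c := by
  have hS : ({q} : Finset ℕ) ⊆ P := by
    intro x hx
    rw [Finset.mem_singleton] at hx
    rw [hx]
    exact hq
  have hcQ : c ∈ QQ (pp P) := hc.1
  have hx : L {q} c ∈ NN (pp {q}) := L_mem hP hS hcQ
  have hd : R {q} c ∈ QQ (pp (P \ {q})) := R_mem hP hS hcQ
  have he : L {q} c * R {q} c = c := R_eq hP hS hcQ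
  have hnd : ¬ q ∣ pp (P \ {q}) :=
    pp_not_dvd (hP.mono Finset.sdiff_subset) (hP q hq).1 (by simp)
  have hqpos : 0 < q := (hP q hq).1.pos
  rw [pp_single] at hx
  rw [egc_dvd hqpos hx.1]
  generalize L {q} c = x at hx he ⊢
  generalize R {q} c = d at hd he ⊢
  generalize pp (P \ {q}) = n at hd hnd
  have hs : star c * w * c = star d * (star x * w * x) * d := by
    rw [← he, StarMul.star_mul]
    simp only [mul_assoc]
  constructor
  · rintro ⟨u, hu⟩
    rw [hs] at hu
    have h1 : d * (star d * (star x * w * x) * d) * star d = d * ((q : H) * u) * star d := by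
      rw [hu]
    have h2 : d * (star d * (star x * w * x) * d) * star d =
        ((n * n : ℕ) : H) * (star x * w * x) := by
      have h3 : d * (star d * (star x * w * x) * d) * star d =
          (d * star d) * (star x * w * x) * (d * star d) := by simp only [mul_assoc]
      rw [h3, mul_star_QQ hd, mul_assoc, ← (Nat.cast_commute n (star x * w * x)).eq, ← mul_assoc,
        ← Nat.cast_mul]
    have h4 : d * ((q : H) * u) * star d = (q : H) * (d * u * star d) := by
      rw [← mul_assoc d (q : H) u, ← (Nat.cast_commute q d).eq]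
      simp only [mul_assoc]
    rw [h2, h4] at h1
    rw [natdvd_iff]
    have h5 := (natdvd_iff q (((n * n : ℕ) : H) * (star x * w * x))).1 ⟨_, h1⟩
    have hcop : IsCoprime (q : ℤ) ((n * n : ℕ) : ℤ) := by
      rw [Nat.isCoprime_iff_coprime]
      have h6 : Nat.Coprime q n := ((hP q hq).1.coprime_iff_not_dvd).2 hnd
      exact Nat.Coprime.mul_right h6 h6
    have hco : ∀ a : H, (((n * n : ℕ) : H) * a).re = ((n * n : ℕ) : ℤ) * a.re ∧
        (((n * n : ℕ) : H) * a).imI = ((n * n : ℕ) : ℤ) * a.imI ∧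
        (((n * n : ℕ) : H) * a).imJ = ((n * n : ℕ) : ℤ) * a.imJ ∧
        (((n * n : ℕ) : H) * a).imK = ((n * n : ℕ) : ℤ) * a.imK := by
      intro a
      generalize n * n = l
      refine ⟨?_, ?_, ?_, ?_⟩ <;> simp
    obtain ⟨k1, k2, k3, k4⟩ := hco (star x * w * x)
    rw [k1, k2, k3, k4] at h5
    exact ⟨hcop.dvd_of_dvd_mul_left h5.1, hcop.dvd_of_dvd_mul_left h5.2.1,
      hcop.dvd_of_dvd_mul_left h5.2.2.1, hcop.dvd_of_dvd_mul_left h5.2.2.2⟩
  · rintro ⟨u, hu⟩
    refine ⟨star d * u * d, ?_⟩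
    rw [hs, hu, ← mul_assoc (star d) (q : H) u, ← (Nat.cast_commute q (star d)).eq]
    simp only [mul_assoc]

private theorem egc_iff {P : Finset ℕ} (hP : GP P) {w c : H} (hc : c ∈ NN (pp P)) :
    c ∣ w * c ↔ ∀ q ∈ P, L {q} c ∣ w * L {q} c := by
  rw [egc_dvd (pp_pos hP) hc.1]
  constructor
  · rintro ⟨u, hu⟩ q hq
    rw [← egc_step hP hc hq]
    have h1 : q ∣ pp P := Finset.dvd_prod_of_mem _ hq
    obtain ⟨k, hk⟩ := h1
    refine ⟨(k : H) * u, ?_⟩
    rw [hu, hk, Nat.cast_mul, mul_assoc]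
  · intro h
    rw [natdvd_iff]
    have h1 : ∀ q ∈ P, ((q : ℤ) ∣ (star c * w * c).re ∧ (q : ℤ) ∣ (star c * w * c).imI ∧
        (q : ℤ) ∣ (star c * w * c).imJ ∧ (q : ℤ) ∣ (star c * w * c).imK) := by
      intro q hq
      rw [← natdvd_iff]
      exact (egc_step hP hc hq).2 (h q hq)
    exact ⟨pp_dvd_int hP fun q hq => (h1 q hq).1, pp_dvd_int hP fun q hq => (h1 q hq).2.1,
      pp_dvd_int hP fun q hq => (h1 q hq).2.2.1, pp_dvd_int hP fun q hq => (h1 q hq).2.2.2⟩

theorem eig_card {P : Finset ℕ} (hP : GP P) {w : H} (hw : w.re = 0)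
    (hn : ∀ q ∈ P, ¬ (q : ℤ) ∣ normSq w) :
    (Nat.card {c : H | c ∈ NN (pp P) ∧ c ∣ w * c} : ℤ) =
      ∏ q ∈ P, (1 + jacobiSym (-(normSq w)) q) := by
  have h1 : {c : H | c ∈ NN (pp P) ∧ c ∣ w * c} =
      {a : H | a ∈ NN (pp P) ∧ ∀ q ∈ P, L {q} a ∈ (fun _ : ℕ => {x : H | x ∣ w * x}) q} := by
    ext c
    constructor
    · rintro ⟨hc, h⟩
      exact ⟨hc, (egc_iff hP hc).1 h⟩
    · rintro ⟨hc, h⟩
      exact ⟨hc, (egc_iff hP hc).2 h⟩
  rw [h1, crt_card hP (fun _ : ℕ => {x : H | x ∣ w * x}), Nat.cast_prod]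
  apply Finset.prod_congr rfl
  intro q hq
  exact eig_prime (hP q hq).1 (hP q hq).2 hw (hn q hq)

end Pool.Agent.TQG
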