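import Pool.Agent.TQG.Rho

/-!
Project TQG, module FXR: fixed points of a rotation composed with a change of base vertex.

`vv_spec`: cases, `ext`, `simp`. `vv_norm`: cases; it is `1` or `2`.
THE BIJECTION is `(b, c) ↦ nm (b * c)`, `a ↦ (L S a, nm (R S a))`, as in module FXS.
Let `a ∈ NN (pp P)`, `b = L S a`, `c = R S a`, `v = vv g`, `b' = L (P \ S) a`. By `L_act`
`rho P S (act g a) = nm (star (act g b) * act g b')`.
If it equals `a` then `star (act g b) = b` by `left_unique`, i.e. `b ∈ MM g (pp S)`. So let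
`star (act g b) = b`. Then `rho P S (act g a) = a` iff `b * act g b' = ± b * c` iff `act g b' = ± c`
iff `b' = ± act g⁻¹ c` iff `act g⁻¹ c ∣ a = b * c` (`act g⁻¹ (nm c) ∈ NN (pp (P \ S))`, `L_eq`).
Put `c1 = act g⁻¹ c`, so `c * v = v * c1` (`vv_spec`) and `star v * c = c1 * star v`
(multiply `c * v = v * c1` by `star v` on both sides and cancel `normSq v`). If
`b * c = c1 * d` then `v * b * c = v * c1 * d = c * (v * d)`, so `c ∣ v * b * c`. Conversely if
`v * b * c = c * d` then `normSq v * (b * c) = star v * c * d = c1 * (star v * d)`, and also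
`pp (P \ S) * (b * c) = c1 * (star c1 * b * c)`; `normSq v = 1, 2` is prime to the odd number
`pp (P \ S)`, so `c1 ∣ b * c`. Finally `c ∣ v * b * c` iff `nm c ∣ v * b * nm c`.
-/

namespace Pool.Agent.TQG

open Pool.Agent.TQS Quaternion

/-- A quaternion with given coordinates. -/
private def mkq (a b c d : ℤ) : H := ⟨a, b, c, d⟩

private theorem mkq_re (a b c d : ℤ) : (mkq a b c d).re = a := rfl

private theorem mkq_imI (a b c d : ℤ) : (mkq a b c d).imI = b := rfl

private theorem mkq_imJ (a b c d : ℤ) : (mkq a b c d).imJ = c := rfl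

private theorem mkq_imK (a b c d : ℤ) : (mkq a b c d).imK = d := rfl

theorem vv_spec (g : G) (a : H) : act g a * vv g = vv g * a := by
  rcases g with i | i
  · rcases cases4 i with rfl | rfl | rfl | rfl
    · have h : vv (DihedralGroup.r (0 : ZMod 4)) = mkq 1 0 0 0 := rfl
      have h2 : act (DihedralGroup.r (0 : ZMod 4)) a = mkq a.re a.imI a.imJ a.imK := rfl
      rw [h, h2]
      apply Quaternion.ext <;>
        simp only [Quaternion.re_mul, Quaternion.imI_mul, Quaternion.imJ_mul, Quaternion.imK_mul,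
          mkq_re, mkq_imI, mkq_imJ, mkq_imK] <;> ring
    · have h : vv (DihedralGroup.r (1 : ZMod 4)) = mkq 1 1 0 0 := rfl
      have h2 : act (DihedralGroup.r (1 : ZMod 4)) a = mkq a.re a.imI (-a.imK) a.imJ := rfl
      rw [h, h2]
      apply Quaternion.ext <;>
        simp only [Quaternion.re_mul, Quaternion.imI_mul, Quaternion.imJ_mul, Quaternion.imK_mul,
          mkq_re, mkq_imI, mkq_imJ, mkq_imK] <;> ring
    · have h : vv (DihedralGroup.r (2 : ZMod 4)) = mkq 0 1 0 0 := rfl
      have h2 : act (DihedralGroup.r (2 : ZMod 4)) a = mkq a.re a.imI (-a.imJ) (-a.imK) := rfl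
      rw [h, h2]
      apply Quaternion.ext <;>
        simp only [Quaternion.re_mul, Quaternion.imI_mul, Quaternion.imJ_mul, Quaternion.imK_mul,
          mkq_re, mkq_imI, mkq_imJ, mkq_imK] <;> ring
    · have h : vv (DihedralGroup.r (3 : ZMod 4)) = mkq 1 (-1) 0 0 := rfl
      have h2 : act (DihedralGroup.r (3 : ZMod 4)) a = mkq a.re a.imI a.imK (-a.imJ) := rfl
      rw [h, h2]
      apply Quaternion.ext <;>
        simp only [Quaternion.re_mul, Quaternion.imI_mul, Quaternion.imJ_mul, Quaternion.imK_mul,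
          mkq_re, mkq_imI, mkq_imJ, mkq_imK] <;> ring
  · rcases cases4 i with rfl | rfl | rfl | rfl
    · have h : vv (DihedralGroup.sr (0 : ZMod 4)) = mkq 0 0 1 0 := rfl
      have h2 : act (DihedralGroup.sr (0 : ZMod 4)) a = mkq a.re (-a.imI) a.imJ (-a.imK) := rfl
      rw [h, h2]
      apply Quaternion.ext <;>
        simp only [Quaternion.re_mul, Quaternion.imI_mul, Quaternion.imJ_mul, Quaternion.imK_mul,
          mkq_re, mkq_imI, mkq_imJ, mkq_imK] <;> ring
    · have h : vv (DihedralGroup.sr (1 : ZMod 4)) = mkq 0 0 1 (-1) := rfl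
      have h2 : act (DihedralGroup.sr (1 : ZMod 4)) a = mkq a.re (-a.imI) (-a.imK) (-a.imJ) := rfl
      rw [h, h2]
      apply Quaternion.ext <;>
        simp only [Quaternion.re_mul, Quaternion.imI_mul, Quaternion.imJ_mul, Quaternion.imK_mul,
          mkq_re, mkq_imI, mkq_imJ, mkq_imK] <;> ring
    · have h : vv (DihedralGroup.sr (2 : ZMod 4)) = mkq 0 0 0 1 := rfl
      have h2 : act (DihedralGroup.sr (2 : ZMod 4)) a = mkq a.re (-a.imI) (-a.imJ) (- -a.imK) := rfl
      rw [h, h2]
      apply Quaternion.ext <;>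
        simp only [Quaternion.re_mul, Quaternion.imI_mul, Quaternion.imJ_mul, Quaternion.imK_mul,
          mkq_re, mkq_imI, mkq_imJ, mkq_imK] <;> ring
    · have h : vv (DihedralGroup.sr (3 : ZMod 4)) = mkq 0 0 1 1 := rfl
      have h2 : act (DihedralGroup.sr (3 : ZMod 4)) a = mkq a.re (-a.imI) a.imK (- -a.imJ) := rfl
      rw [h, h2]
      apply Quaternion.ext <;>
        simp only [Quaternion.re_mul, Quaternion.imI_mul, Quaternion.imJ_mul, Quaternion.imK_mul,
          mkq_re, mkq_imI, mkq_imJ, mkq_imK] <;> ring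

theorem vv_norm (g : G) : normSq (vv g) = 1 ∨ normSq (vv g) = 2 := by
  rcases g with i | i
  · rcases cases4 i with rfl | rfl | rfl | rfl
    · left
      have h : vv (DihedralGroup.r (0 : ZMod 4)) = mkq 1 0 0 0 := rfl
      rw [h, normSq_eq, mkq_re, mkq_imI, mkq_imJ, mkq_imK]
      norm_num
    · right
      have h : vv (DihedralGroup.r (1 : ZMod 4)) = mkq 1 1 0 0 := rfl
      rw [h, normSq_eq, mkq_re, mkq_imI, mkq_imJ, mkq_imK]
      norm_num
    · left
      have h : vv (DihedralGroup.r (2 : ZMod 4)) = mkq 0 1 0 0 := rfl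
      rw [h, normSq_eq, mkq_re, mkq_imI, mkq_imJ, mkq_imK]
      norm_num
    · right
      have h : vv (DihedralGroup.r (3 : ZMod 4)) = mkq 1 (-1) 0 0 := rfl
      rw [h, normSq_eq, mkq_re, mkq_imI, mkq_imJ, mkq_imK]
      norm_num
  · rcases cases4 i with rfl | rfl | rfl | rfl
    · left
      have h : vv (DihedralGroup.sr (0 : ZMod 4)) = mkq 0 0 1 0 := rfl
      rw [h, normSq_eq, mkq_re, mkq_imI, mkq_imJ, mkq_imK]
      norm_num
    · right
      have h : vv (DihedralGroup.sr (1 : ZMod 4)) = mkq 0 0 1 (-1) := rfl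
      rw [h, normSq_eq, mkq_re, mkq_imI, mkq_imJ, mkq_imK]
      norm_num
    · left
      have h : vv (DihedralGroup.sr (2 : ZMod 4)) = mkq 0 0 0 1 := rfl
      rw [h, normSq_eq, mkq_re, mkq_imI, mkq_imJ, mkq_imK]
      norm_num
    · right
      have h : vv (DihedralGroup.sr (3 : ZMod 4)) = mkq 0 0 1 1 := rfl
      rw [h, normSq_eq, mkq_re, mkq_imI, mkq_imJ, mkq_imK]
      norm_num

private theorem vv_star (g : G) (a : H) : star (vv g) * act g a = a * star (vv g) := by
  have h := congrArg star (vv_spec g (star a))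
  rw [star_mul, star_mul, act_star, star_star, star_star] at h
  exact h

private theorem act_inv_cancel (g : G) (a : H) : act g (act g⁻¹ a) = a := by
  rw [← act_mul, mul_inv_cancel, act_one]

private theorem act_inv_cancel' (g : G) (a : H) : act g⁻¹ (act g a) = a := by
  rw [← act_mul, inv_mul_cancel, act_one]

/-- Two quaternions with positive real part, equal up to sign, are equal. -/
private theorem eq_of_pm {x y : H} (hx : 0 < x.re) (hy : 0 < y.re) (h : x = y ∨ x = -y) :
    x = y := by
  rcases h with h | h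
  · exact h
  · exfalso
    rw [h] at hx
    simp only [Quaternion.re_neg] at hx
    omega

private theorem fix_key {P S : Finset ℕ} (hP : GP P) (hS : S ⊆ P) (g : G) {b c : H}
    (hb : b ∈ NN (pp S)) (hc : c ∈ NN (pp (P \ S))) :
    rho P S (act g (nm (b * c))) = nm (b * c) ↔ (b ∈ MM g (pp S) ∧ c ∣ vv g * b * c) := by
  have hPS : P \ S ⊆ P := Finset.sdiff_subset
  have hbcQ : b * c ∈ QQ (pp P) := by
    rw [← pp_sdiff hS]
    exact mul_QQ hb.1 hc.1
  have haN : nm (b * c) ∈ NN (pp P) := nm_NN (pp_mod hP) hbcQ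
  have hLb : L S (nm (b * c)) = b := by
    rw [L_nm hP hS hbcQ, L_mul hP hS hb.1 hc.1, nm_self hb.2]
  have hb'N : L (P \ S) (nm (b * c)) ∈ NN (pp (P \ S)) := L_mem hP hPS haN.1
  have hb'd : L (P \ S) (nm (b * c)) ∣ nm (b * c) := L_dvd hP hPS haN.1
  have hrho : rho P S (act g (nm (b * c))) =
      nm (star (act g b) * act g (L (P \ S) (nm (b * c)))) := by
    unfold rho
    rw [L_act hP hS haN.1, L_act hP hPS haN.1, hLb]
  have hbne : b ≠ 0 := ne_zero_QQ (pp_pos (hP.mono hS)) hb.1
  obtain ⟨w, hw⟩ : ∃ w, w = L (P \ S) (nm (b * c)) := ⟨_, rfl⟩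
  obtain ⟨a, ha⟩ : ∃ a, a = nm (b * c) := ⟨_, rfl⟩
  rw [← hw] at hb'N hb'd hrho
  constructor
  · intro h
    have hsb : star (act g b) = b := by
      refine left_unique hP hS haN.1 (star_NN (act_NN g hb)) hb ?_ ?_
      · rw [← h, hrho]
        exact (dvd_nm _ _).2 (dvd_mul_right _ _)
      · exact (dvd_nm _ _).2 (dvd_mul_right _ _)
    refine ⟨⟨hb, hsb⟩, ?_⟩
    rw [hrho, hsb] at h
    have hpm : b * act g w = b * c ∨ b * act g w = -(b * c) := by
      clear hw
      rcases nm_or (b * act g w) with h1 | h1 <;> rcases nm_or (b * c) with h2 | h2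
      · left; rw [← h1, h, h2]
      · right; rw [← h1, h, h2]
      · right; rw [← h2, ← h, h1, neg_neg]
      · left; rw [h1, h2] at h; exact neg_injective h
    have hc' : act g w = c := by
      refine eq_of_pm (act_NN g hb'N).2 hc.2 ?_
      rcases hpm with h1 | h1
      · left; exact mul_left_cancel₀ hbne h1
      · right
        rw [← mul_neg] at h1
        exact mul_left_cancel₀ hbne h1
    obtain ⟨d, hd⟩ := (dvd_nm _ _).1 hb'd
    refine ⟨vv g * d, ?_⟩
    calc vv g * b * c = vv g * (b * c) := by rw [mul_assoc]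
      _ = vv g * w * d := by rw [hd, mul_assoc]
      _ = act g w * vv g * d := by rw [vv_spec]
      _ = c * (vv g * d) := by rw [hc', mul_assoc]
  · rintro ⟨⟨_, hsb⟩, d, hd⟩
    have hc1N : act g⁻¹ c ∈ NN (pp (P \ S)) := act_NN _ hc
    have hc1 : w = act g⁻¹ c := by
      rw [hw]
      refine L_eq hP hPS haN.1 hc1N ((dvd_nm _ _).2 ?_)
      have e1 : ((normSq (vv g) : ℤ) : H) * (b * c) = act g⁻¹ c * (star (vv g) * d) := by
        calc ((normSq (vv g) : ℤ) : H) * (b * c) = star (vv g) * vv g * (b * c) := by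
              rw [Quaternion.star_mul_self]
              rfl
          _ = star (vv g) * (vv g * b * c) := by simp only [mul_assoc]
          _ = star (vv g) * act g (act g⁻¹ c) * d := by
              rw [hd, act_inv_cancel, mul_assoc]
          _ = act g⁻¹ c * (star (vv g) * d) := by rw [vv_star, mul_assoc]
      have e2 : (pp (P \ S) : H) * (b * c) = act g⁻¹ c * (star (act g⁻¹ c) * (b * c)) := by
        rw [← mul_assoc (act g⁻¹ c), mul_star_QQ hc1N.1]
      rcases vv_norm g with hv | hv
      · rw [hv, Int.cast_one, one_mul] at e1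
        exact ⟨_, e1⟩
      · rw [hv] at e1
        obtain ⟨k, hk⟩ : ∃ k : ℕ, pp (P \ S) = 2 * k + 1 := by
          have := pp_odd (hP.mono hPS)
          exact ⟨pp (P \ S) / 2, by omega⟩
        refine ⟨star (act g⁻¹ c) * (b * c) - (k : H) * (star (vv g) * d), ?_⟩
        rw [mul_sub, ← e2, ← mul_assoc _ (k : H), ← (Nat.cast_commute k (act g⁻¹ c)).eq, mul_assoc,
          ← e1, hk]
        push_cast
        rw [add_mul, one_mul, ← mul_assoc (k : H), (Nat.cast_commute k (2 : H)).eq]
        abel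
    rw [hrho, hsb, hc1, act_inv_cancel]

theorem fix_rho {P S : Finset ℕ} (hP : GP P) (hS : S ⊆ P) (g : G) :
    Nat.card {a : H | a ∈ NN (pp P) ∧ rho P S (act g a) = a} =
      Nat.card {x : H × H | x.1 ∈ MM g (pp S) ∧ x.2 ∈ NN (pp (P \ S)) ∧
        x.2 ∣ vv g * x.1 * x.2} := by
  have hPS : P \ S ⊆ P := Finset.sdiff_subset
  -- facts on the decomposition
  have hA : ∀ a ∈ NN (pp P), L S a ∈ NN (pp S) ∧ nm (R S a) ∈ NN (pp (P \ S)) ∧
      nm (L S a * nm (R S a)) = a := by
    intro a ha
    refine ⟨L_mem hP hS ha.1, nm_NN (pp_mod (hP.mono hPS)) (R_mem hP hS ha.1), ?_⟩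
    have h1 : L S a * R S a = a := R_eq hP hS ha.1
    have hre : a.re ≠ 0 := ne_of_gt ha.2
    rcases nm_or (R S a) with h | h
    · rw [h, h1, nm_self ha.2]
    · rw [h, mul_neg, h1, nm_neg hre, nm_self ha.2]
  have hB : ∀ b ∈ NN (pp S), ∀ c ∈ NN (pp (P \ S)), nm (b * c) ∈ NN (pp P) ∧
      L S (nm (b * c)) = b ∧ nm (R S (nm (b * c))) = c := by
    intro b hb c hc
    have hbcQ : b * c ∈ QQ (pp P) := by
      rw [← pp_sdiff hS]
      exact mul_QQ hb.1 hc.1
    have haN : nm (b * c) ∈ NN (pp P) := nm_NN (pp_mod hP) hbcQ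
    have hLb : L S (nm (b * c)) = b := by
      rw [L_nm hP hS hbcQ, L_mul hP hS hb.1 hc.1, nm_self hb.2]
    have hbne : b ≠ 0 := ne_zero_QQ (pp_pos (hP.mono hS)) hb.1
    refine ⟨haN, hLb, ?_⟩
    have h1 : b * R S (nm (b * c)) = nm (b * c) := by
      have h2 := R_eq hP hS haN.1
      rwa [hLb] at h2
    have hre : c.re ≠ 0 := ne_of_gt hc.2
    rcases nm_or (b * c) with h | h
    · rw [h] at h1
      have h3 : R S (nm (b * c)) = c := by
        rw [h]; exact mul_left_cancel₀ hbne h1
      rw [h3, nm_self hc.2]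
    · rw [h, ← mul_neg] at h1
      have h3 : R S (nm (b * c)) = -c := by
        rw [h, ← mul_neg]; exact mul_left_cancel₀ hbne h1
      rw [h3, nm_neg hre, nm_self hc.2]
  refine Nat.card_congr
    { toFun := fun a => ⟨(L S a.1, nm (R S a.1)), ?_⟩
      invFun := fun x => ⟨nm (x.1.1 * x.1.2), ?_⟩
      left_inv := fun a => Subtype.ext (hA a.1 a.2.1).2.2
      right_inv := fun x => Subtype.ext (Prod.ext (hB _ x.2.1.1 _ x.2.2.1).2.1
        (hB _ x.2.1.1 _ x.2.2.1).2.2) }
  · obtain ⟨h1, h2, h3⟩ := hA a.1 a.2.1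
    have h4 := a.2.2
    have h5 := (fix_key hP hS g h1 h2).1 (by rw [h3]; exact h4)
    exact ⟨h5.1, h2, h5.2⟩
  · obtain ⟨h1, h2, h3⟩ := x.2
    exact ⟨(hB _ h1.1 _ h2).1, (fix_key hP hS g h1.1 h2).2 ⟨h1, h3⟩⟩

/-- For the reflections `g` (everything except `1`, `r 1`, `r 3`) and `b` in the mirror, `vv g * b`
is a pure quaternion: `star (act g b) = b` gives `star b * vv g = vv g * b`, so
`star (vv g * b) = star b * star (vv g) = - (vv g * b)`. -/
theorem vv_mul_re {m : ℕ} {g : G} (hg : g ≠ 1 ∧ g ≠ DihedralGroup.r 1 ∧ g ≠ DihedralGroup.r 3)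
    {b : H} (hb : b ∈ MM g m) : (vv g * b).re = 0 := by
  have hv : star (vv g) = -vv g := by
    obtain ⟨g1, g2, g3⟩ := hg
    rcases g with i | i
    · rcases cases4 i with rfl | rfl | rfl | rfl
      · exact absurd rfl g1
      · exact absurd rfl g2
      · have h : vv (DihedralGroup.r (2 : ZMod 4)) = mkq 0 1 0 0 := rfl
        rw [h]
        apply Quaternion.ext <;>
          simp only [Quaternion.re_star, Quaternion.imI_star, Quaternion.imJ_star,
            Quaternion.imK_star, Quaternion.re_neg, Quaternion.imI_neg, Quaternion.imJ_neg,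
            Quaternion.imK_neg, mkq_re, mkq_imI, mkq_imJ, mkq_imK, neg_zero]
      · exact absurd rfl g3
    · rcases cases4 i with rfl | rfl | rfl | rfl
      · have h : vv (DihedralGroup.sr (0 : ZMod 4)) = mkq 0 0 1 0 := rfl
        rw [h]
        apply Quaternion.ext <;>
          simp only [Quaternion.re_star, Quaternion.imI_star, Quaternion.imJ_star,
            Quaternion.imK_star, Quaternion.re_neg, Quaternion.imI_neg, Quaternion.imJ_neg,
            Quaternion.imK_neg, mkq_re, mkq_imI, mkq_imJ, mkq_imK, neg_zero]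
      · have h : vv (DihedralGroup.sr (1 : ZMod 4)) = mkq 0 0 1 (-1) := rfl
        rw [h]
        apply Quaternion.ext <;>
          simp only [Quaternion.re_star, Quaternion.imI_star, Quaternion.imJ_star,
            Quaternion.imK_star, Quaternion.re_neg, Quaternion.imI_neg, Quaternion.imJ_neg,
            Quaternion.imK_neg, mkq_re, mkq_imI, mkq_imJ, mkq_imK, neg_zero]
      · have h : vv (DihedralGroup.sr (2 : ZMod 4)) = mkq 0 0 0 1 := rfl
        rw [h]
        apply Quaternion.ext <;>
          simp only [Quaternion.re_star, Quaternion.imI_star, Quaternion.imJ_star,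
            Quaternion.imK_star, Quaternion.re_neg, Quaternion.imI_neg, Quaternion.imJ_neg,
            Quaternion.imK_neg, mkq_re, mkq_imI, mkq_imJ, mkq_imK, neg_zero]
      · have h : vv (DihedralGroup.sr (3 : ZMod 4)) = mkq 0 0 1 1 := rfl
        rw [h]
        apply Quaternion.ext <;>
          simp only [Quaternion.re_star, Quaternion.imI_star, Quaternion.imJ_star,
            Quaternion.imK_star, Quaternion.re_neg, Quaternion.imI_neg, Quaternion.imJ_neg,
            Quaternion.imK_neg, mkq_re, mkq_imI, mkq_imJ, mkq_imK, neg_zero]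
  have h1 : act g b = star b := by
    rw [← hb.2, star_star, hb.2]
  have h2 : star b * vv g = vv g * b := by rw [← h1, vv_spec]
  have h3 : star (vv g * b) = -(vv g * b) := by
    rw [star_mul, hv, mul_neg, h2]
  have h4 : (star (vv g * b)).re = (-(vv g * b)).re := by rw [h3]
  rw [Quaternion.re_star, Quaternion.re_neg] at h4
  omega

end Pool.Agent.TQG
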