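import Pool.Agent.TQG.Fxs
import Pool.Agent.TQG.Fxr
import Pool.Agent.TQG.Egc
import Pool.Agent.TQG.Bur

/-!
Project TQG, module BSM: the Burnside congruence of part II.

`bur` for `X = NN (pp P)`, `r = rho P` (module RHO), `α = act` (TQS/Base.lean: `act_one`, `act_mul`).
Terms (`N S g` = number of fixed points, `fix_rho`; `d = pp S`):
`g = 1`: for `S = ∅` all of `NN (pp P)`, `∏ (q + 1)` (`card_pp`); for `S ≠ ∅` zero (`MM_one_empty`).
`g = r 1, r 3`: for `S ≠ ∅` zero (`MM_r_empty`); for `S = ∅`, `MM g 1 = {1}` and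
`x.2 ∣ (1 ± i) * x.2` iff `x.2 ∣ (± i) * x.2`, so `eig_card` with `w = ± i`: `∏ (1 + J(-1 | q))`.
The five reflections `g = r 2, sr 0, sr 1, sr 2, sr 3`: for every `b ∈ MM g d` the quaternion
`w = vv g * b` is pure (`vv_mul_re`) of norm `d` or `2 d`, prime to `pp (P \ S)`, so `eig_card` gives
`mc g d * ∏_{q ∈ P \ S} (1 + J(- d | q))` (use `J(2 | q) = 1`, `jacobiSym.at_two`/
`ZMod.exists_sq_eq_two_iff`).
`mc_five`: `mc (sr 0) d = mc (sr 2) d = mc gI d` (for `d = 1 mod 8` permute the imaginary coordinates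
`(re, imI, imJ, imK) ↦ (re, imK, imI, imJ)`, this works for all `d`), `mc (sr 3) d = mc gM d`
(`act (r 1)`), so the sum over the five reflections is `TT d`.
-/

namespace Pool.Agent.TQG

open Pool.Agent.TQS

open Quaternion

private def bsmQ (a b c d : ℤ) : H := ⟨a, b, c, d⟩

private theorem bsmQ_re (a b c d : ℤ) : (bsmQ a b c d).re = a := rfl

private theorem bsmQ_I (a b c d : ℤ) : (bsmQ a b c d).imI = b := rfl

private theorem bsmQ_J (a b c d : ℤ) : (bsmQ a b c d).imJ = c := rfl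

private theorem bsmQ_K (a b c d : ℤ) : (bsmQ a b c d).imK = d := rfl

private theorem bsm_star_eq (a b : H) : star a = b ↔
    (a.re = b.re ∧ -a.imI = b.imI ∧ -a.imJ = b.imJ ∧ -a.imK = b.imK) := by
  constructor
  · rintro rfl
    exact ⟨(Quaternion.re_star a).symm, (Quaternion.imI_star a).symm, (Quaternion.imJ_star a).symm,
      (Quaternion.imK_star a).symm⟩
  · rintro ⟨h1, h2, h3, h4⟩
    apply Quaternion.ext
    · rw [Quaternion.re_star]; exact h1
    · rw [Quaternion.imI_star]; exact h2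
    · rw [Quaternion.imJ_star]; exact h3
    · rw [Quaternion.imK_star]; exact h4

private theorem bsm_r2 (m : ℕ) (a : H) : a ∈ MM (DihedralGroup.r 2) m ↔ a ∈ NN m ∧ a.imI = 0 := by
  have h : act (DihedralGroup.r (2 : ZMod 4)) a = ⟨a.re, a.imI, -a.imJ, -a.imK⟩ := rfl
  unfold MM
  rw [Set.mem_ofPred_eq, bsm_star_eq, h]
  constructor
  · rintro ⟨h1, h2, h3, h4, h5⟩
    exact ⟨h1, by simp only at h3; omega⟩
  · rintro ⟨h1, h2⟩
    exact ⟨h1, rfl, by simp only; omega, by simp, by simp⟩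

private theorem bsm_sr0 (m : ℕ) (a : H) : a ∈ MM (DihedralGroup.sr 0) m ↔ a ∈ NN m ∧ a.imJ = 0 := by
  have h : act (DihedralGroup.sr (0 : ZMod 4)) a = ⟨a.re, -a.imI, a.imJ, -a.imK⟩ := rfl
  unfold MM
  rw [Set.mem_ofPred_eq, bsm_star_eq, h]
  constructor
  · rintro ⟨h1, h2, h3, h4, h5⟩
    exact ⟨h1, by simp only at h4; omega⟩
  · rintro ⟨h1, h2⟩
    exact ⟨h1, rfl, by simp, by simp only; omega, by simp⟩

private theorem bsm_sr2 (m : ℕ) (a : H) : a ∈ MM (DihedralGroup.sr 2) m ↔ a ∈ NN m ∧ a.imK = 0 := by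
  have h : act (DihedralGroup.sr (2 : ZMod 4)) a = ⟨a.re, -a.imI, -a.imJ, -(-a.imK)⟩ := rfl
  unfold MM
  rw [Set.mem_ofPred_eq, bsm_star_eq, h]
  constructor
  · rintro ⟨h1, h2, h3, h4, h5⟩
    exact ⟨h1, by simp only at h5; omega⟩
  · rintro ⟨h1, h2⟩
    exact ⟨h1, rfl, by simp, by simp, by simp only; omega⟩

private theorem bsm_sr1 (m : ℕ) (a : H) : a ∈ MM (DihedralGroup.sr 1) m ↔
    a ∈ NN m ∧ a.imJ = a.imK := by
  have h : act (DihedralGroup.sr (1 : ZMod 4)) a = ⟨a.re, -a.imI, -a.imK, -a.imJ⟩ := rfl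
  unfold MM
  rw [Set.mem_ofPred_eq, bsm_star_eq, h]
  constructor
  · rintro ⟨h1, h2, h3, h4, h5⟩
    exact ⟨h1, by simp only at h5; omega⟩
  · rintro ⟨h1, h2⟩
    exact ⟨h1, rfl, by simp, by simp only; omega, by simp only; omega⟩

private theorem bsm_sr3 (m : ℕ) (a : H) : a ∈ MM (DihedralGroup.sr 3) m ↔
    a ∈ NN m ∧ a.imJ = -a.imK := by
  have h : act (DihedralGroup.sr (3 : ZMod 4)) a = ⟨a.re, -a.imI, a.imK, -(-a.imJ)⟩ := rfl
  unfold MM
  rw [Set.mem_ofPred_eq, bsm_star_eq, h]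
  constructor
  · rintro ⟨h1, h2, h3, h4, h5⟩
    exact ⟨h1, by simp only at h5; omega⟩
  · rintro ⟨h1, h2⟩
    exact ⟨h1, rfl, by simp, by simp only; omega, by simp only; omega⟩

private def bsmE : H ≃ H where
  toFun a := ⟨a.re, a.imJ, a.imK, a.imI⟩
  invFun a := ⟨a.re, a.imK, a.imI, a.imJ⟩
  left_inv _ := rfl
  right_inv _ := rfl

private def bsmF : H ≃ H where
  toFun a := ⟨a.re, a.imI, -a.imK, a.imJ⟩
  invFun a := ⟨a.re, a.imI, a.imK, -a.imJ⟩
  left_inv a := by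
    apply Quaternion.ext <;> simp
  right_inv a := by
    apply Quaternion.ext <;> simp

private theorem bsmE_NN (m : ℕ) (a : H) : a ∈ NN m ↔ bsmE a ∈ NN m := by
  unfold NN QQ
  rw [Set.mem_ofPred_eq, Set.mem_ofPred_eq, Set.mem_ofPred_eq, Set.mem_ofPred_eq, normSq_eq,
    normSq_eq]
  change _ ↔ (((a.re + a.imJ) % 2 = 1 ∧ (a.imJ + a.imK) % 2 = 0 ∧ (a.imJ + a.imI) % 2 = 0 ∧
    a.re ^ 2 + a.imJ ^ 2 + a.imK ^ 2 + a.imI ^ 2 = (m : ℤ)) ∧ 0 < a.re)
  have e : a.re ^ 2 + a.imJ ^ 2 + a.imK ^ 2 + a.imI ^ 2 =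
    a.re ^ 2 + a.imI ^ 2 + a.imJ ^ 2 + a.imK ^ 2 := by ring
  rw [e]
  constructor
  · rintro ⟨⟨h1, h2, h3, h4⟩, h5⟩
    exact ⟨⟨by omega, by omega, by omega, h4⟩, h5⟩
  · rintro ⟨⟨h1, h2, h3, h4⟩, h5⟩
    exact ⟨⟨by omega, by omega, by omega, h4⟩, h5⟩

private theorem bsmF_NN (m : ℕ) (a : H) : a ∈ NN m ↔ bsmF a ∈ NN m := by
  constructor
  · intro h; exact act_NN (DihedralGroup.r 1) h
  · intro h
    have := act_NN (DihedralGroup.r 3) h
    have e : act (DihedralGroup.r (3 : ZMod 4)) (bsmF a) = a := by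
      change (⟨a.re, a.imI, a.imJ, -(-a.imK)⟩ : H) = a
      rw [neg_neg]
      rfl
    rwa [e] at this

theorem mc_five (m : ℕ) : mc (DihedralGroup.r 2) m + mc (DihedralGroup.sr 0) m +
    mc (DihedralGroup.sr 1) m + mc (DihedralGroup.sr 2) m + mc (DihedralGroup.sr 3) m = TT m := by
  have h0 : mc (DihedralGroup.sr 0) m = mc (DihedralGroup.r 2) m := by
    refine Nat.card_congr (Equiv.subtypeEquiv bsmE ?_)
    intro a
    rw [bsm_sr0, bsm_r2, ← bsmE_NN]
    rfl
  have h2 : mc (DihedralGroup.sr 2) m = mc (DihedralGroup.sr 0) m := by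
    refine Nat.card_congr (Equiv.subtypeEquiv bsmE ?_)
    intro a
    rw [bsm_sr2, bsm_sr0, ← bsmE_NN]
    rfl
  have h3 : mc (DihedralGroup.sr 3) m = mc (DihedralGroup.sr 1) m := by
    refine Nat.card_congr (Equiv.subtypeEquiv bsmF ?_)
    intro a
    rw [bsm_sr3, bsm_sr1, ← bsmF_NN]
    change _ ↔ a ∈ NN m ∧ -a.imK = a.imJ
    rw [eq_comm]
  have e1 : TT m = 3 * mc (DihedralGroup.r 2) m + 2 * mc (DihedralGroup.sr 1) m := rfl
  rw [e1, h2, h3, h0]
  ring

theorem jac_two {q : ℕ} (hq : q.Prime) (h8 : q % 8 = 1 ∨ q % 8 = 7) (n : ℤ) :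
    jacobiSym (-(2 * n)) q = jacobiSym (-n) q := by
  have h2 : q ≠ 2 := by
    rintro rfl
    omega
  have ho : Odd q := hq.odd_of_ne_two h2
  have e : -(2 * n) = 2 * (-n) := by ring
  rw [e, jacobiSym.mul_left]
  have h : jacobiSym 2 q = 1 := by
    rw [jacobiSym.at_two ho, ZMod.χ₈_nat_eq_if_mod_eight]
    rcases h8 with h | h
    · rw [if_neg (by omega), if_pos (Or.inl h)]
    · rw [if_neg (by omega), if_pos (Or.inr h)]
  rw [h, one_mul]

/-- The number of fixed points. -/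
private noncomputable def bsmC (P S : Finset ℕ) (g : G) : ℕ :=
  Nat.card {x : H × H | x.1 ∈ MM g (pp S) ∧ x.2 ∈ NN (pp (P \ S)) ∧ x.2 ∣ vv g * x.1 * x.2}

private def bsmEq (P S : Finset ℕ) (g : G) :
    {x : H × H | x.1 ∈ MM g (pp S) ∧ x.2 ∈ NN (pp (P \ S)) ∧ x.2 ∣ vv g * x.1 * x.2} ≃
      (b : MM g (pp S)) × {c : H | c ∈ NN (pp (P \ S)) ∧ c ∣ (vv g * (b : H)) * c} where
  toFun x := ⟨⟨x.1.1, x.2.1⟩, ⟨x.1.2, x.2.2⟩⟩
  invFun y := ⟨(y.1, y.2), ⟨y.1.2, y.2.2⟩⟩
  left_inv _ := rfl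
  right_inv _ := rfl

private theorem bsm_fin (g : G) (m : ℕ) : Finite (MM g m) :=
  ((NN_finite m).subset (fun _ h => h.1)).to_subtype

private theorem bsm_fin2 (w : H) (m : ℕ) : Finite {c : H | c ∈ NN m ∧ c ∣ w * c} :=
  ((NN_finite m).subset (fun _ h => h.1)).to_subtype

private theorem bsmC_eq {P S : Finset ℕ} {g : G} {C : ℤ} (h : ∀ b ∈ MM g (pp S),
    (Nat.card {c : H | c ∈ NN (pp (P \ S)) ∧ c ∣ (vv g * (b : H)) * c} : ℤ) = C) :
    (bsmC P S g : ℤ) = mc g (pp S) * C := by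
  have := bsm_fin g (pp S)
  let _ := Fintype.ofFinite (MM g (pp S))
  have h2 : ∀ b : MM g (pp S), Finite {c : H | c ∈ NN (pp (P \ S)) ∧ c ∣ (vv g * (b : H)) * c} :=
    fun b => bsm_fin2 _ _
  unfold bsmC
  rw [Nat.card_congr (bsmEq P S g), Nat.card_sigma]
  push_cast
  rw [Finset.sum_congr rfl (fun (b : MM g (pp S)) _ => h (b : H) b.property), Finset.sum_const,
    nsmul_eq_mul, mc, Nat.card_eq_fintype_card]
  rfl

/-- The five reflections. -/
private theorem bsm_refl {P S : Finset ℕ} (hP : GP P) (hS : S ⊆ P) {g : G}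
    (hg : g ≠ 1 ∧ g ≠ DihedralGroup.r 1 ∧ g ≠ DihedralGroup.r 3) :
    (bsmC P S g : ℤ) = mc g (pp S) * ∏ q ∈ P \ S, (1 + jacobiSym (-(pp S : ℤ)) q) := by
  refine bsmC_eq fun b hb => ?_
  have hre := vv_mul_re hg hb
  have hn : normSq (vv g * b) = normSq (vv g) * (pp S : ℤ) := by
    rw [map_mul, hb.1.1.2.2.2]
  have hPS : GP (P \ S) := hP.mono Finset.sdiff_subset
  rw [eig_card hPS hre]
  · refine Finset.prod_congr rfl fun q hq => ?_
    rw [hn]
    rcases vv_norm g with h | h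
    · rw [h, one_mul]
    · rw [h, jac_two (hPS q hq).1 (hPS q hq).2]
  · intro q hq hd
    rw [hn] at hd
    have hqp := (hPS q hq).1
    have hqS : q ∉ S := (Finset.mem_sdiff.1 hq).2
    have h1 : ¬ ((q : ℤ) ∣ (pp S : ℤ)) := by
      rw [Int.natCast_dvd_natCast]
      exact pp_not_dvd (hP.mono hS) hqp hqS
    have hpr : Prime (q : ℤ) := Nat.prime_iff_prime_int.1 hqp
    rcases vv_norm g with h | h
    · rw [h, one_mul] at hd
      exact h1 hd
    · rw [h] at hd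
      rcases hpr.dvd_or_dvd hd with h3 | h3
      · have h4 : q ∣ 2 := by exact_mod_cast h3
        have h5 := Nat.le_of_dvd (by norm_num) h4
        have h6 := (hPS q hq).2
        have h7 := hqp.two_le
        have h8 : q = 2 := by omega
        omega
      · exact h1 h3

private theorem bsm_MM_empty {g : G} : MM g (pp ∅) = {1} := by
  rw [pp_empty]
  ext a
  rw [Set.mem_singleton_iff]
  constructor
  · intro h
    have := h.1
    rw [NN_one] at this
    exact this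
  · rintro rfl
    refine ⟨by rw [NN_one]; rfl, ?_⟩
    have h : act g 1 = 1 := by
      rcases g with i | i <;> rcases cases4 i with rfl | rfl | rfl | rfl <;>
        (apply Quaternion.ext <;> simp [act, rot0, rot1, rot2, rot3, flp])
    rw [h, star_one]

private theorem bsm_mc_empty {g : G} : mc g (pp ∅) = 1 := by
  unfold mc
  rw [bsm_MM_empty]
  simp

private theorem bsm_C_zero {P S : Finset ℕ} {g : G} (h : MM g (pp S) = ∅) : bsmC P S g = 0 := by
  unfold bsmC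
  rw [h]
  simp

private theorem bsm_one {P S : Finset ℕ} (hP : GP P) (hS : S ⊆ P) :
    (bsmC P S 1 : ℤ) = if S = ∅ then ∏ q ∈ P, ((q : ℤ) + 1) else 0 := by
  split_ifs with h
  · subst h
    rw [bsmC_eq (C := ∏ q ∈ P, ((q : ℤ) + 1)), bsm_mc_empty]
    · simp
    · intro b hb
      rw [bsm_MM_empty, Set.mem_singleton_iff] at hb
      have e : {c : H | c ∈ NN (pp (P \ ∅)) ∧ c ∣ (vv 1 * (b : H)) * c} = NN (pp P) := by
        ext c
        have hv : vv 1 = 1 := rfl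
        rw [Set.mem_ofPred_eq, hb, hv, one_mul, one_mul, Finset.sdiff_empty]
        simp
      rw [e, card_pp hP]
      push_cast
      rfl
  · rw [bsm_C_zero (MM_one_empty (hP.mono hS) (Finset.nonempty_iff_ne_empty.2 h))]
    rfl

private theorem bsm_rot {P S : Finset ℕ} (hP : GP P) (hS : S ⊆ P) {g : G}
    (hg : g = DihedralGroup.r 1 ∨ g = DihedralGroup.r 3) :
    (bsmC P S g : ℤ) = if S = ∅ then ∏ q ∈ P, (1 + jacobiSym (-1) q) else 0 := by
  split_ifs with h
  · subst h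
    rw [bsmC_eq (C := ∏ q ∈ P, (1 + jacobiSym (-1) q)), bsm_mc_empty]
    · simp
    · intro b hb
      rw [bsm_MM_empty, Set.mem_singleton_iff] at hb
      obtain ⟨w, hw0, hw1, hw2⟩ : ∃ w : H, vv g = 1 + w ∧ w.re = 0 ∧ normSq w = 1 := by
        rcases hg with rfl | rfl
        · refine ⟨bsmQ 0 1 0 0, ?_, rfl, ?_⟩
          · have hv : vv (DihedralGroup.r 1) = bsmQ 1 1 0 0 := rfl
            rw [hv]
            apply Quaternion.ext <;> simp [bsmQ_re, bsmQ_I, bsmQ_J, bsmQ_K]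
          · rw [normSq_eq]; simp [bsmQ_re, bsmQ_I, bsmQ_J, bsmQ_K]
        · refine ⟨bsmQ 0 (-1) 0 0, ?_, rfl, ?_⟩
          · have hv : vv (DihedralGroup.r 3) = bsmQ 1 (-1) 0 0 := rfl
            rw [hv]
            apply Quaternion.ext <;> simp [bsmQ_re, bsmQ_I, bsmQ_J, bsmQ_K]
          · rw [normSq_eq]; simp [bsmQ_re, bsmQ_I, bsmQ_J, bsmQ_K]
      have e : {c : H | c ∈ NN (pp (P \ ∅)) ∧ c ∣ (vv g * (b : H)) * c} =
          {c : H | c ∈ NN (pp P) ∧ c ∣ w * c} := by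
        ext c
        rw [Set.mem_ofPred_eq, Set.mem_ofPred_eq, hb, hw0, mul_one, add_mul, one_mul,
          Finset.sdiff_empty, dvd_add_right (dvd_refl c)]
      rw [e, eig_card hP hw1]
      · rw [hw2]
      · intro q hq hd
        rw [hw2] at hd
        have h4 : q ∣ 1 := by exact_mod_cast hd
        exact (hP q hq).1.one_lt.ne' (Nat.dvd_one.1 h4)
  · rw [bsm_C_zero (MM_r_empty (hP.mono hS) (Finset.nonempty_iff_ne_empty.2 h) g hg)]
    rfl

private theorem bsm_univ (f : G → ℤ) : ∑ g : DihedralGroup 4, f g =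
    f 1 + f (DihedralGroup.r 1) + f (DihedralGroup.r 3) + (f (DihedralGroup.r 2) +
      f (DihedralGroup.sr 0) + f (DihedralGroup.sr 1) + f (DihedralGroup.sr 2) +
      f (DihedralGroup.sr 3)) := by
  have h : (Finset.univ : Finset (DihedralGroup 4)) = {1, DihedralGroup.r 1, DihedralGroup.r 3,
    DihedralGroup.r 2, DihedralGroup.sr 0, DihedralGroup.sr 1, DihedralGroup.sr 2,
    DihedralGroup.sr 3} := by decide
  rw [h, Finset.sum_insert (by decide), Finset.sum_insert (by decide),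
    Finset.sum_insert (by decide), Finset.sum_insert (by decide), Finset.sum_insert (by decide),
    Finset.sum_insert (by decide), Finset.sum_insert (by decide), Finset.sum_singleton]
  ring

private theorem bsm_sum {P S : Finset ℕ} (hP : GP P) (hS : S ⊆ P) :
    (∑ g : DihedralGroup 4, (bsmC P S g : ℤ)) = (if S = ∅ then ∏ q ∈ P, ((q : ℤ) + 1) else 0) +
      2 * (if S = ∅ then ∏ q ∈ P, (1 + jacobiSym (-1) q) else 0) +
      (TT (pp S) : ℤ) * ∏ q ∈ P \ S, (1 + jacobiSym (-(pp S : ℤ)) q) := by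
  rw [bsm_univ (fun g => (bsmC P S g : ℤ)), bsm_one hP hS, bsm_rot hP hS (Or.inl rfl),
    bsm_rot hP hS (Or.inr rfl), bsm_refl hP hS (g := DihedralGroup.r 2) (by decide),
    bsm_refl hP hS (g := DihedralGroup.sr 0) (by decide),
    bsm_refl hP hS (g := DihedralGroup.sr 1) (by decide),
    bsm_refl hP hS (g := DihedralGroup.sr 2) (by decide),
    bsm_refl hP hS (g := DihedralGroup.sr 3) (by decide), ← mc_five]
  push_cast
  ring

private noncomputable def bsmR {P : Finset ℕ} (hP : GP P) (S : Finset ℕ) (a : NN (pp P)) :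
    NN (pp P) := by
  classical exact if h : S ⊆ P then ⟨rho P S a, rho_mem hP h a.2⟩ else a

private theorem bsmR_val {P : Finset ℕ} (hP : GP P) {S : Finset ℕ} (hS : S ⊆ P)
    (a : NN (pp P)) : ((bsmR hP S a : NN (pp P)) : H) = rho P S a := by
  unfold bsmR
  rw [dif_pos hS]

theorem bsm {P : Finset ℕ} (hP : GP P) :
    ((2 ^ (P.card + 3) : ℕ) : ℤ) ∣ ∏ q ∈ P, ((q : ℤ) + 1) + 2 * ∏ q ∈ P, (1 + jacobiSym (-1) q) +
      ∑ S ∈ P.powerset, (TT (pp S) : ℤ) * ∏ q ∈ P \ S, (1 + jacobiSym (-(pp S : ℤ)) q) := by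
  have key := bur (X := NN (pp P)) P (bsmR hP) ?_ ?_
    (fun g a => ⟨act g a, act_NN g a.2⟩) ?_ ?_ ?_
  · have e : ∑ S ∈ P.powerset, ∑ g : DihedralGroup 4, Nat.card {x : NN (pp P) //
        bsmR hP S (⟨act g x, act_NN g x.2⟩ : NN (pp P)) = x} =
        ∑ S ∈ P.powerset, ∑ g : DihedralGroup 4, bsmC P S g := by
      refine Finset.sum_congr rfl fun S hS => Finset.sum_congr rfl fun g _ => ?_
      rw [Finset.mem_powerset] at hS
      unfold bsmC
      rw [← fix_rho hP hS g]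
      refine Nat.card_congr ⟨fun x => ⟨x.1, x.1.2, ?_⟩, fun x => ⟨⟨x.1, x.2.1⟩, ?_⟩, ?_, ?_⟩
      · have h := congrArg Subtype.val x.2
        rw [bsmR_val hP hS] at h
        exact h
      · apply Subtype.ext
        rw [bsmR_val hP hS]
        exact x.2.2
      · intro x; rfl
      · intro x; rfl
    rw [e] at key
    have key2 : ((2 ^ (P.card + 3) : ℕ) : ℤ) ∣
        ((∑ S ∈ P.powerset, ∑ g : DihedralGroup 4, bsmC P S g : ℕ) : ℤ) :=
      Int.natCast_dvd_natCast.2 key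
    have e2 : ((∑ S ∈ P.powerset, ∑ g : DihedralGroup 4, bsmC P S g : ℕ) : ℤ) =
        ∏ q ∈ P, ((q : ℤ) + 1) + 2 * ∏ q ∈ P, (1 + jacobiSym (-1) q) +
      ∑ S ∈ P.powerset, (TT (pp S) : ℤ) * ∏ q ∈ P \ S, (1 + jacobiSym (-(pp S : ℤ)) q) := by
      rw [Nat.cast_sum]
      have e3 : ∀ S ∈ P.powerset, ((∑ g : DihedralGroup 4, bsmC P S g : ℕ) : ℤ) =
          (if S = ∅ then ∏ q ∈ P, ((q : ℤ) + 1) else 0) +
          2 * (if S = ∅ then ∏ q ∈ P, (1 + jacobiSym (-1) q) else 0) +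
          (TT (pp S) : ℤ) * ∏ q ∈ P \ S, (1 + jacobiSym (-(pp S : ℤ)) q) := by
        intro S hS
        rw [Finset.mem_powerset] at hS
        rw [Nat.cast_sum, bsm_sum hP hS]
      rw [Finset.sum_congr rfl e3, Finset.sum_add_distrib, Finset.sum_add_distrib,
        ← Finset.mul_sum, Finset.sum_ite_eq', Finset.sum_ite_eq',
        if_pos (Finset.empty_mem_powerset P), if_pos (Finset.empty_mem_powerset P)]
    rw [← e2]
    exact key2
  · intro a
    apply Subtype.ext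
    rw [bsmR_val hP (Finset.empty_subset P)]
    exact rho_empty hP a.2
  · intro S T hS hT a
    apply Subtype.ext
    have hST : symmDiff S T ⊆ P := by
      intro x hx
      rw [Finset.mem_symmDiff] at hx
      rcases hx with h | h
      · exact hS h.1
      · exact hT h.1
    rw [bsmR_val hP hT, bsmR_val hP hS, bsmR_val hP hST]
    exact rho_rho hP hS hT a.2
  · intro a
    apply Subtype.ext
    exact act_one _
  · intro g h a
    apply Subtype.ext
    exact act_mul g h _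
  · intro S hS g a
    apply Subtype.ext
    rw [bsmR_val hP hS]
    change rho P S (act g a) = act g ((bsmR hP S a : NN (pp P)) : H)
    rw [bsmR_val hP hS]
    exact rho_act hP hS g a.2

end Pool.Agent.TQG
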