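import Pool.Agent.TQG.Fxs

/-!
Project TQG, module CNT: the numbers `FY g P S` for `g = gI, gM` in terms of mirrors.

MIRRORS (`cnt_cls`). For `m = 1 mod 8` and `x ∈ MM gI m` (`imI = 0`) or `x ∈ MM gM m` (`imJ = imK`),
`type_QQ` gives: `imI = 0 mod 4` and `imJ = imK mod 4`, both in `{0, 2}`.
So `mc g m = mc0 g m + mc1 g m`.
PRODUCTS. By `fix_sw` with `Z = YY`, `FY g P S` is the number of pairs `(b, c)` in
`MM g (pp S) × MM g (pp (P \ S))` with `nm (b * c) ∈ YY`, and (as all imaginary coordinates of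
`b * c ∈ QQ (pp P)` are even) `nm (b * c) ∈ YY` iff `b * c ∈ YY`.
Type V (`pp S = 1 mod 8`, so also `pp (P \ S) = 1 mod 8`): the real parts of `b`, `c` are odd, the
imaginary ones even, so `im (b * c) = im b + im c mod 4`; so `b * c ∈ YY` iff exactly one of `b`, `c`
has `imJ = 2 mod 4`: `FY = mc0 * mc1 + mc1 * mc0`.
Type A (`pp S = 7 mod 8`, `pp (P \ S) = 7 mod 8`): `MM gI` is empty (`imI` is odd). For `gM`:
`imI (b * c) = b0 c1 + b1 c0 + b2 c3 - b3 c2 = b0 c1 + b1 c0 = 2 + 2 = 0 mod 4`, and by `type_QQ`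
`imJ = imK mod 4`, both even, so `b * c ∈ YY` iff `imJ (b * c) = 2 mod 4`. The involution
`c ↦ c' = star (act gI c)` (`imI ↦ - imI`) of `MM gM (pp (P \ S))` changes `imJ (b * c)` by
`imJ (b * c') - imJ (b * c) = - 2 c1 b3` or `+ 2 c1 b3`, which is `2 mod 4`; so it exchanges the pairs
with `imJ (b * c) = 0` and `2` mod 4, exactly half of all pairs: `2 * FY = mc * mc`.
-/

namespace Pool.Agent.TQG

open Pool.Agent.TQS

private lemma star_act_gI (x : H) : star (act gI x) = ⟨x.re, -x.imI, x.imJ, x.imK⟩ := by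
  have : act gI x = ⟨x.re, x.imI, -x.imJ, -x.imK⟩ := rfl
  rw [this]
  ext <;> simp

private lemma star_act_gM (x : H) : star (act gM x) = ⟨x.re, x.imI, x.imK, x.imJ⟩ := by
  have : act gM x = ⟨x.re, -x.imI, -x.imK, -x.imJ⟩ := rfl
  rw [this]
  ext <;> simp

private lemma mem_gI {m : ℕ} {x : H} : x ∈ MM gI m ↔ x ∈ NN m ∧ x.imI = 0 := by
  unfold MM
  simp only [Set.mem_ofPred_eq]
  rw [star_act_gI, Quaternion.ext_iff]
  constructor
  · rintro ⟨h, _, h1, _, _⟩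
    simp only at h1
    exact ⟨h, by omega⟩
  · rintro ⟨h, h1⟩
    refine ⟨h, rfl, ?_, rfl, rfl⟩
    simp only
    omega

private lemma mem_gM {m : ℕ} {x : H} : x ∈ MM gM m ↔ x ∈ NN m ∧ x.imJ = x.imK := by
  unfold MM
  simp only [Set.mem_ofPred_eq]
  rw [star_act_gM, Quaternion.ext_iff]
  constructor
  · rintro ⟨h, _, _, h1, _⟩
    simp only at h1
    exact ⟨h, h1.symm⟩
  · rintro ⟨h, h1⟩
    exact ⟨h, rfl, rfl, h1.symm, h1⟩

private lemma MM_sub (g : G) (m : ℕ) : MM g m ⊆ NN m := fun _ h => h.1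

private lemma NN_fin (m : ℕ) : (NN m).Finite := by
  have h : (Set.Icc (-(m : ℤ)) m ×ˢ Set.Icc (-(m : ℤ)) m ×ˢ Set.Icc (-(m : ℤ)) m ×ˢ
      Set.Icc (-(m : ℤ)) m).Finite :=
    (Set.finite_Icc _ _).prod ((Set.finite_Icc _ _).prod
      ((Set.finite_Icc _ _).prod (Set.finite_Icc _ _)))
  refine Set.Finite.of_injOn (f := fun a : H => (a.re, a.imI, a.imJ, a.imK)) ?_ ?_ h
  · intro a ha
    have hn := ha.1.2.2.2
    rw [Quaternion.normSq_def'] at hn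
    simp only [Set.mem_prod, Set.mem_Icc]
    refine ⟨⟨?_, ?_⟩, ⟨?_, ?_⟩, ⟨?_, ?_⟩, ⟨?_, ?_⟩⟩ <;>
      nlinarith [sq_nonneg a.re, sq_nonneg a.imI, sq_nonneg a.imJ, sq_nonneg a.imK,
        sq_nonneg (a.re - 1), sq_nonneg (a.re + 1), sq_nonneg (a.imI - 1), sq_nonneg (a.imI + 1),
        sq_nonneg (a.imJ - 1), sq_nonneg (a.imJ + 1), sq_nonneg (a.imK - 1),
        sq_nonneg (a.imK + 1)]
  · intro a _ b _ h
    simp only [Prod.mk.injEq] at h
    obtain ⟨h1, h2, h3, h4⟩ := h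
    ext <;> assumption

private lemma MM_fin (g : G) (m : ℕ) : (MM g m).Finite := (NN_fin m).subset (MM_sub g m)

theorem cnt_cls {m : ℕ} (h1 : m % 8 = 1) {g : G} (hg : g = gI ∨ g = gM) {x : H}
    (hx : x ∈ MM g m) : x.imI % 4 = 0 ∧ ((x.imJ % 4 = 0 ∧ x.imK % 4 = 0) ∨
      (x.imJ % 4 = 2 ∧ x.imK % 4 = 2)) := by
  rcases hg with rfl | rfl
  · rw [mem_gI] at hx
    obtain ⟨hx, h⟩ := hx
    obtain ⟨_, t2, t3, t4, t5⟩ := (type_QQ hx.1).1 h1
    omega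
  · rw [mem_gM] at hx
    obtain ⟨hx, h⟩ := hx
    obtain ⟨_, t2, t3, t4, t5⟩ := (type_QQ hx.1).1 h1
    omega

theorem mc_add {m : ℕ} (h1 : m % 8 = 1) {g : G} (hg : g = gI ∨ g = gM) :
    mc g m = mc0 g m + mc1 g m := by
  unfold mc mc0 mc1
  rw [Nat.card_coe_set_eq, Nat.card_coe_set_eq, Nat.card_coe_set_eq]
  rw [← Set.ncard_union_eq ?_ ((MM_fin g m).subset fun _ h => h.1)
    ((MM_fin g m).subset fun _ h => h.1)]
  · congr 1
    ext x
    simp only [Set.mem_union, Set.mem_ofPred_eq]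
    constructor
    · intro hx
      rcases (cnt_cls h1 hg hx).2 with h | h
      · exact Or.inl ⟨hx, h.1⟩
      · exact Or.inr ⟨hx, h.1⟩
    · rintro (h | h)
      · exact h.1
      · exact h.1
  · rw [Set.disjoint_left]
    rintro x ⟨_, hx⟩ ⟨_, hx'⟩
    omega

theorem mc_gI_seven {m : ℕ} (h7 : m % 8 = 7) : mc gI m = 0 := by
  have : MM gI m = ∅ := by
    rw [Set.eq_empty_iff_forall_notMem]
    intro x hx
    rw [mem_gI] at hx
    obtain ⟨hx, h⟩ := hx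
    obtain ⟨_, t2, _⟩ := (type_QQ hx.1).2 h7
    omega
  unfold mc
  rw [this]
  simp

/-- For `m = 1` the mirrors are `{1}`. -/
theorem mc_one (g : G) (hg : g = gI ∨ g = gM) : mc0 g 1 = 1 ∧ mc1 g 1 = 0 ∧ mc g 1 = 1 := by
  have hM : MM g 1 = {1} := by
    ext x
    rw [Set.mem_singleton_iff]
    rcases hg with rfl | rfl
    · rw [mem_gI, NN_one, Set.mem_singleton_iff]
      constructor
      · exact fun h => h.1
      · rintro rfl
        exact ⟨rfl, rfl⟩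
    · rw [mem_gM, NN_one, Set.mem_singleton_iff]
      constructor
      · exact fun h => h.1
      · rintro rfl
        exact ⟨rfl, rfl⟩
  have h0 : {a | a ∈ MM g 1 ∧ a.imJ % 4 = 0} = ({1} : Set H) := by
    ext x
    rw [hM]
    simp only [Set.mem_ofPred_eq, Set.mem_singleton_iff]
    constructor
    · exact fun h => h.1
    · rintro rfl
      exact ⟨rfl, rfl⟩
  have h1 : {a | a ∈ MM g 1 ∧ a.imJ % 4 = 2} = (∅ : Set H) := by
    rw [Set.eq_empty_iff_forall_notMem]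
    rintro x ⟨hx, h⟩
    rw [hM, Set.mem_singleton_iff] at hx
    rw [hx] at h
    have h5 : (1 : H).imJ = 0 := rfl
    rw [h5] at h
    norm_num at h
  refine ⟨?_, ?_, ?_⟩
  · unfold mc0
    rw [h0]
    simp
  · unfold mc1
    rw [h1]
    simp
  · unfold mc
    rw [hM]
    simp

private lemma nm_YY (w : H) : nm w ∈ YY ↔ w ∈ YY := by
  rcases nm_or w with h | h
  · rw [h]
  · rw [h]
    unfold YY
    simp only [Set.mem_ofPred_eq, Quaternion.imI_neg, Quaternion.imJ_neg, Quaternion.imK_neg]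
    omega

private lemma cof_one {P S : Finset ℕ} (hP : GP P) (hS : S ⊆ P) (h1 : pp P % 8 = 1)
    (h1' : pp S % 8 = 1) : pp (P \ S) % 8 = 1 := by
  have h := pp_sdiff hS
  have h' : GP (P \ S) := hP.mono Finset.sdiff_subset
  rcases pp_mod h' with h2 | h2
  · exact h2
  · rw [← h, Nat.mul_mod, h1', h2] at h1
    omega

private lemma cof_seven {P S : Finset ℕ} (hP : GP P) (hS : S ⊆ P) (h1 : pp P % 8 = 1)
    (h7 : pp S % 8 = 7) : pp (P \ S) % 8 = 7 := by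
  have h := pp_sdiff hS
  have h' : GP (P \ S) := hP.mono Finset.sdiff_subset
  rcases pp_mod h' with h2 | h2
  · rw [← h, Nat.mul_mod, h7, h2] at h1
    omega
  · exact h2

private lemma dvd4_of {x y : ℤ} (hx : x % 2 = 0) (hy : y % 2 = 0) : (4 : ℤ) ∣ x * y := by
  obtain ⟨a, rfl⟩ : (2 : ℤ) ∣ x := by omega
  obtain ⟨b, rfl⟩ : (2 : ℤ) ∣ y := by omega
  exact ⟨a * b, by ring⟩

private lemma odd_mul {x y : ℤ} (hx : x % 2 = 1) (hy : y % 2 = 0) : (4 : ℤ) ∣ x * y - y := by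
  have h := dvd4_of (x := x - 1) (y := y) (by omega) hy
  have e : (x - 1) * y = x * y - y := by ring
  rwa [e] at h

private lemma mul_V {b c : H} (hb0 : b.re % 2 = 1) (hb1 : b.imI % 2 = 0) (hb2 : b.imJ % 2 = 0)
    (hb3 : b.imK % 2 = 0) (hc0 : c.re % 2 = 1) (hc1 : c.imI % 2 = 0) (hc2 : c.imJ % 2 = 0)
    (hc3 : c.imK % 2 = 0) :
    (4 : ℤ) ∣ (b * c).imI - (b.imI + c.imI) ∧ (4 : ℤ) ∣ (b * c).imJ - (b.imJ + c.imJ) ∧
      (4 : ℤ) ∣ (b * c).imK - (b.imK + c.imK) := by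
  rw [Quaternion.imI_mul, Quaternion.imJ_mul, Quaternion.imK_mul]
  refine ⟨?_, ?_, ?_⟩
  · have h1 := odd_mul hb0 hc1
    have h2 := odd_mul hc0 hb1
    have h3 := dvd4_of hb2 hc3
    have h4 := dvd4_of hb3 hc2
    have e : b.re * c.imI + b.imI * c.re + b.imJ * c.imK - b.imK * c.imJ - (b.imI + c.imI) =
      (b.re * c.imI - c.imI) + (c.re * b.imI - b.imI) + b.imJ * c.imK - b.imK * c.imJ := by ring
    rw [e]
    exact dvd_sub (dvd_add (dvd_add h1 h2) h3) h4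
  · have h1 := odd_mul hb0 hc2
    have h2 := odd_mul hc0 hb2
    have h3 := dvd4_of hb1 hc3
    have h4 := dvd4_of hb3 hc1
    have e : b.re * c.imJ - b.imI * c.imK + b.imJ * c.re + b.imK * c.imI - (b.imJ + c.imJ) =
      (b.re * c.imJ - c.imJ) + (c.re * b.imJ - b.imJ) + b.imK * c.imI - b.imI * c.imK := by ring
    rw [e]
    exact dvd_sub (dvd_add (dvd_add h1 h2) h4) h3
  · have h1 := odd_mul hb0 hc3
    have h2 := odd_mul hc0 hb3
    have h3 := dvd4_of hb1 hc2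
    have h4 := dvd4_of hb2 hc1
    have e : b.re * c.imK + b.imI * c.imJ - b.imJ * c.imI + b.imK * c.re - (b.imK + c.imK) =
      (b.re * c.imK - c.imK) + (c.re * b.imK - b.imK) + b.imI * c.imJ - b.imJ * c.imI := by ring
    rw [e]
    exact dvd_sub (dvd_add (dvd_add h1 h2) h3) h4

private lemma mem_YY_V {b c : H} {m n : ℕ} (hm : m % 8 = 1) (hn : n % 8 = 1) {g : G}
    (hg : g = gI ∨ g = gM) (hb : b ∈ MM g m) (hc : c ∈ MM g n) :
    nm (b * c) ∈ YY ↔ (b.imJ % 4 = 0 ∧ c.imJ % 4 = 2) ∨ (b.imJ % 4 = 2 ∧ c.imJ % 4 = 0) := by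
  rw [nm_YY]
  obtain ⟨b0, b1, b2, b3, _⟩ := (type_QQ hb.1.1).1 hm
  obtain ⟨c0, c1, c2, c3, _⟩ := (type_QQ hc.1.1).1 hn
  obtain ⟨h1, h2, h3⟩ := mul_V b0 b1 b2 b3 c0 c1 c2 c3
  have hb' := cnt_cls hm hg hb
  have hc' := cnt_cls hn hg hc
  unfold YY
  simp only [Set.mem_ofPred_eq]
  omega

theorem cnt_V {P S : Finset ℕ} (hP : GP P) (hS : S ⊆ P) (h1 : pp P % 8 = 1)
    (h1' : pp S % 8 = 1) {g : G} (hg : g = gI ∨ g = gM) :
    FY g P S = mc0 g (pp S) * mc1 g (pp (P \ S)) + mc1 g (pp S) * mc0 g (pp (P \ S)) := by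
  have h2 := cof_one hP hS h1 h1'
  unfold FY
  rw [fix_sw hP hS g YY]
  have e : {x : H × H | x.1 ∈ MM g (pp S) ∧ x.2 ∈ MM g (pp (P \ S)) ∧ nm (x.1 * x.2) ∈ YY} =
      ({a | a ∈ MM g (pp S) ∧ a.imJ % 4 = 0} ×ˢ {a | a ∈ MM g (pp (P \ S)) ∧ a.imJ % 4 = 2}) ∪
      ({a | a ∈ MM g (pp S) ∧ a.imJ % 4 = 2} ×ˢ {a | a ∈ MM g (pp (P \ S)) ∧ a.imJ % 4 = 0}) := by
    ext ⟨b, c⟩
    simp only [Set.mem_union, Set.mem_prod, Set.mem_ofPred_eq]
    constructor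
    · rintro ⟨hb, hc, h⟩
      rw [mem_YY_V h1' h2 hg hb hc] at h
      rcases h with h | h
      · exact Or.inl ⟨⟨hb, h.1⟩, hc, h.2⟩
      · exact Or.inr ⟨⟨hb, h.1⟩, hc, h.2⟩
    · rintro (⟨⟨hb, h⟩, hc, h'⟩ | ⟨⟨hb, h⟩, hc, h'⟩)
      · exact ⟨hb, hc, (mem_YY_V h1' h2 hg hb hc).2 (Or.inl ⟨h, h'⟩)⟩
      · exact ⟨hb, hc, (mem_YY_V h1' h2 hg hb hc).2 (Or.inr ⟨h, h'⟩)⟩
  have f0 : ∀ m, {a | a ∈ MM g m ∧ a.imJ % 4 = 0}.Finite :=
    fun m => (MM_fin g m).subset fun _ h => h.1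
  have f1 : ∀ m, {a | a ∈ MM g m ∧ a.imJ % 4 = 2}.Finite :=
    fun m => (MM_fin g m).subset fun _ h => h.1
  rw [e, Nat.card_coe_set_eq, Set.ncard_union_eq ?_ ((f0 _).prod (f1 _)) ((f1 _).prod (f0 _)),
    Set.ncard_prod, Set.ncard_prod]
  · unfold mc0 mc1
    rw [Nat.card_coe_set_eq, Nat.card_coe_set_eq, Nat.card_coe_set_eq, Nat.card_coe_set_eq]
  · rw [Set.disjoint_left]
    rintro ⟨b, c⟩ ⟨⟨_, h⟩, _⟩ ⟨⟨_, h'⟩, _⟩
    simp only at h h'
    omega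

theorem cnt_A_gI {P S : Finset ℕ} (hP : GP P) (hS : S ⊆ P) (h7 : pp S % 8 = 7) :
    FY gI P S = 0 := by
  unfold FY
  rw [fix_sw hP hS gI YY]
  have e : {x : H × H | x.1 ∈ MM gI (pp S) ∧ x.2 ∈ MM gI (pp (P \ S)) ∧
      nm (x.1 * x.2) ∈ YY} = ∅ := by
    rw [Set.eq_empty_iff_forall_notMem]
    rintro ⟨b, c⟩ ⟨hb, _⟩
    simp only at hb
    rw [mem_gI] at hb
    obtain ⟨_, t2, _⟩ := (type_QQ hb.1.1).2 h7
    omega
  rw [e]
  simp

private lemma prod_two {x y : ℤ} (hx : x % 4 = 2) (hy : y % 2 = 1) : (4 : ℤ) ∣ x * y - 2 := by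
  obtain ⟨a, ha⟩ : ∃ a, x = 4 * a + 2 := ⟨x / 4, by omega⟩
  obtain ⟨b, hb⟩ : ∃ b, y = 2 * b + 1 := ⟨y / 2, by omega⟩
  subst ha hb
  exact ⟨2 * a * b + a + b, by ring⟩

private lemma odd_odd {x y : ℤ} (hx : x % 2 = 1) (hy : y % 2 = 1) : (x * y) % 2 = 1 := by
  rw [Int.mul_emod, hx, hy]
  norm_num

private lemma mem_YY_A {b c : H} {m n : ℕ} (hm : m % 8 = 7) (hn : n % 8 = 7)
    (hb : b ∈ MM gM m) (hc : c ∈ MM gM n) :
    nm (b * c) ∈ YY ↔ (b.imK * c.imI - b.imI * c.imK) % 4 = 2 := by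
  rw [nm_YY]
  rw [mem_gM] at hb hc
  obtain ⟨hb, eb⟩ := hb
  obtain ⟨hc, ec⟩ := hc
  obtain ⟨b0, b1, b2, b3⟩ := (type_QQ hb.1).2 hm
  obtain ⟨c0, c1, c2, c3⟩ := (type_QQ hc.1).2 hn
  have i1 := prod_two b0 c1
  have i2 := prod_two c0 b1
  have i3 := prod_two b0 c3
  have i4 := prod_two c0 b3
  have j1 := odd_odd b3 c1
  have j2 := odd_odd b1 c3
  unfold YY
  simp only [Set.mem_ofPred_eq]
  rw [Quaternion.imI_mul, Quaternion.imJ_mul, Quaternion.imK_mul, eb, ec]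
  have e1 : b.re * c.imI + b.imI * c.re + b.imK * c.imK - b.imK * c.imK =
    b.re * c.imI + c.re * b.imI := by ring
  have e2 : b.re * c.imK - b.imI * c.imK + b.imK * c.re + b.imK * c.imI =
    b.re * c.imK + c.re * b.imK + (b.imK * c.imI - b.imI * c.imK) := by ring
  have e3 : b.re * c.imK + b.imI * c.imK - b.imK * c.imI + b.imK * c.re =
    b.re * c.imK + c.re * b.imK - (b.imK * c.imI - b.imI * c.imK) := by ring
  rw [e1, e2, e3]
  generalize b.re * c.imI = u1 at *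
  generalize c.re * b.imI = u2 at *
  generalize b.re * c.imK = u3 at *
  generalize c.re * b.imK = u4 at *
  generalize b.imK * c.imI = u5 at *
  generalize b.imI * c.imK = u6 at *
  omega

/-- the involution -/
private def iv (c : H) : H := ⟨c.re, -c.imI, c.imJ, c.imK⟩

private lemma iv_iv (c : H) : iv (iv c) = c := by
  unfold iv
  ext <;> simp

private lemma iv_mem {m : ℕ} {c : H} (hc : c ∈ MM gM m) : iv c ∈ MM gM m := by
  rw [mem_gM] at hc ⊢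
  refine ⟨?_, hc.2⟩
  have h := star_NN (act_NN gI hc.1)
  rwa [star_act_gI] at h

private lemma iv_YY {b c : H} {m n : ℕ} (hm : m % 8 = 7) (hn : n % 8 = 7)
    (hb : b ∈ MM gM m) (hc : c ∈ MM gM n) :
    nm (b * iv c) ∈ YY ↔ ¬ nm (b * c) ∈ YY := by
  rw [mem_YY_A hm hn hb hc, mem_YY_A hm hn hb (iv_mem hc)]
  rw [mem_gM] at hb hc
  obtain ⟨b0, b1, b2, b3⟩ := (type_QQ hb.1.1).2 hm
  obtain ⟨c0, c1, c2, c3⟩ := (type_QQ hc.1.1).2 hn
  have j1 := odd_odd b3 c1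
  have j2 := odd_odd b1 c3
  have e : (iv c).imI = -c.imI := rfl
  have e' : (iv c).imK = c.imK := rfl
  rw [e, e', mul_neg]
  generalize b.imK * c.imI = u5 at *
  generalize b.imI * c.imK = u6 at *
  omega

theorem cnt_A_gM {P S : Finset ℕ} (hP : GP P) (hS : S ⊆ P) (h1 : pp P % 8 = 1)
    (h7 : pp S % 8 = 7) : 2 * FY gM P S = mc gM (pp S) * mc gM (pp (P \ S)) := by
  have h2 := cof_seven hP hS h1 h7
  unfold FY mc
  rw [fix_sw hP hS gM YY]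
  rw [Nat.card_coe_set_eq, Nat.card_coe_set_eq, Nat.card_coe_set_eq, ← Set.ncard_prod]
  set X : Set (H × H) := MM gM (pp S) ×ˢ MM gM (pp (P \ S)) with hX
  set A : Set (H × H) := {x | x.1 ∈ MM gM (pp S) ∧ x.2 ∈ MM gM (pp (P \ S)) ∧
    nm (x.1 * x.2) ∈ YY} with hA
  set B : Set (H × H) := {x | x.1 ∈ MM gM (pp S) ∧ x.2 ∈ MM gM (pp (P \ S)) ∧
    ¬ nm (x.1 * x.2) ∈ YY} with hB
  have hXf : X.Finite := (MM_fin _ _).prod (MM_fin _ _)
  have hAX : A ⊆ X := fun x hx => ⟨hx.1, hx.2.1⟩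
  have hBX : B ⊆ X := fun x hx => ⟨hx.1, hx.2.1⟩
  have hU : A ∪ B = X := by
    ext x
    constructor
    · rintro (h | h)
      · exact hAX h
      · exact hBX h
    · intro h
      by_cases hn : nm (x.1 * x.2) ∈ YY
      · exact Or.inl ⟨h.1, h.2, hn⟩
      · exact Or.inr ⟨h.1, h.2, hn⟩
  have hD : Disjoint A B := by
    rw [Set.disjoint_left]
    intro x hx hx'
    exact hx'.2.2 hx.2.2
  have hAB : A.ncard = B.ncard := by
    refine Set.ncard_congr (fun x _ => (x.1, iv x.2)) ?_ ?_ ?_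
    · rintro ⟨b, c⟩ ⟨hb, hc, h⟩
      exact ⟨hb, iv_mem hc, fun h' => (iv_YY h7 h2 hb hc).1 h' h⟩
    · rintro ⟨b, c⟩ ⟨b', c'⟩ _ _ h
      simp only [Prod.mk.injEq] at h
      have : c = c' := by rw [← iv_iv c, h.2, iv_iv]
      rw [h.1, this]
    · rintro ⟨b, c⟩ ⟨hb, hc, h⟩
      exact ⟨(b, iv c), ⟨hb, iv_mem hc, (iv_YY h7 h2 hb hc).2 h⟩, by simp [iv_iv]⟩
  rw [← hU, Set.ncard_union_eq hD (hXf.subset hAX) (hXf.subset hBX), ← hAB]
  ring

end Pool.Agent.TQG
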