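import Pool.Agent.TQG.Bas
import Pool.Agent.TQS.Card

/-!
Project TQG, module CRD: the size of `NN m` (Jacobi). Model: `card_VV`, `card_AA` of TQS/Card.lean.

`card_eight 1 m` (for `m = 1 mod 8`) and `card_eight 0 m` (for `m = 7 mod 8`), `card_four`:
`Nat.card (cardQ m) = 8 sigma(m) = 8 Nat.card (cardP r m)`, and `NN m = cardP r m`.
`card_pp`: `sigma` is multiplicative (`ArithmeticFunction.isMultiplicative_sigma`), induction on `P`.
-/

namespace Pool.Agent.TQG

open Pool.Agent.TQS

theorem NN_finite (m : ℕ) : (NN m).Finite :=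
  (cardQ_finite m).subset (fun _ ha => ha.1.2.2.2)

instance (m : ℕ) : Finite (NN m) := (NN_finite m).to_subtype

theorem card_NN (m : ℕ) (hm : m % 8 = 1 ∨ m % 8 = 7) :
    Nat.card (NN m) = ArithmeticFunction.sigma 1 m := by
  have h3 := card_four m (by omega)
  rcases hm with h | h
  · have h1 : NN m = cardP 1 m := by
      ext a
      simp only [NN, cardP, Set.mem_ofPred_eq, sub_self]
      constructor
      · rintro ⟨hq, h0⟩
        obtain ⟨t1, t2, t3, t4, _⟩ := (type_QQ hq).1 h
        exact ⟨h0, t1, t2, t3, t4, hq.2.2.2⟩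
      · rintro ⟨h0, t1, t2, t3, t4, h5⟩
        exact ⟨⟨by omega, by omega, by omega, h5⟩, h0⟩
    have h2 := card_eight 1 m (Or.inr rfl) (by
      intro a b c d he
      rcases card_sq_mod a with ⟨ha, ha'⟩ | ⟨ha, ha'⟩ <;>
        rcases card_sq_mod b with ⟨hb, hb'⟩ | ⟨hb, hb'⟩ <;>
        rcases card_sq_mod c with ⟨hc, hc'⟩ | ⟨hc, hc'⟩ <;>
        rcases card_sq_mod d with ⟨hd, hd'⟩ | ⟨hd, hd'⟩ <;> simp [ha, hb, hc, hd] <;> omega)
      (by
        intro b c d _ _ _ _ h0
        norm_num at h0)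
    rw [h1]
    omega
  · have h1 : NN m = cardP 0 m := by
      ext a
      simp only [NN, cardP, Set.mem_ofPred_eq, sub_zero]
      constructor
      · rintro ⟨hq, h0⟩
        obtain ⟨t1, t2, t3, t4⟩ := (type_QQ hq).2 h
        exact ⟨h0, by omega, t2, t3, t4, hq.2.2.2⟩
      · rintro ⟨h0, t1, t2, t3, t4, h5⟩
        exact ⟨⟨by omega, by omega, by omega, h5⟩, h0⟩
    have h2 := card_eight 0 m (Or.inl rfl) (by
      intro a b c d he
      rcases card_sq_mod a with ⟨ha, ha'⟩ | ⟨ha, ha'⟩ <;>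
        rcases card_sq_mod b with ⟨hb, hb'⟩ | ⟨hb, hb'⟩ <;>
        rcases card_sq_mod c with ⟨hc, hc'⟩ | ⟨hc, hc'⟩ <;>
        rcases card_sq_mod d with ⟨hd, hd'⟩ | ⟨hd, hd'⟩ <;> simp [ha, hb, hc, hd] <;> omega)
      (by
        intro b c d he hb hc hd _
        rcases card_sq_mod b with ⟨hb', _⟩ | ⟨_, hb'⟩
        · omega
        rcases card_sq_mod c with ⟨hc', _⟩ | ⟨_, hc'⟩
        · omega
        rcases card_sq_mod d with ⟨hd', _⟩ | ⟨_, hd'⟩
        · omega
        omega)
    rw [h1]
    omega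

theorem card_pp {P : Finset ℕ} (hP : GP P) : Nat.card (NN (pp P)) = ∏ q ∈ P, (q + 1) := by
  rw [card_NN _ (pp_mod hP)]
  induction P using Finset.induction_on with
  | empty =>
    rw [pp_empty]
    simp
  | insert q P hq ih =>
    have hP' : GP P := hP.mono (Finset.subset_insert q P)
    have hq1 : GP {q} := hP.mono (by simp)
    have hqp : q.Prime := (hP q (Finset.mem_insert_self q P)).1
    have hd : Disjoint {q} P := Finset.disjoint_singleton_left.2 hq
    have e : pp (insert q P) = q * pp P := by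
      rw [Finset.insert_eq, pp_union hd, pp_single]
    have hc : Nat.Coprime q (pp P) := by
      have := pp_coprime hq1 hP' hd
      rwa [pp_single] at this
    rw [e, (ArithmeticFunction.isMultiplicative_sigma (k := 1)).map_mul_of_coprime hc, ih hP',
      Finset.prod_insert hq, ArithmeticFunction.sigma_one_apply, hqp.sum_divisors]

end Pool.Agent.TQG
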