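import Pool.Agent.TQG.Ldv

/-!
Project TQG, module CRT: an element of `NN (pp P)` is determined by its left divisors in `NN q`,
`q ∈ P`, and these are arbitrary.

`crt_inj`: for `q ∈ P` let `x = L {q} a = L {q} b`, `a = x * c`, `b = x * c'` (`R_eq`):
`star a * b = star c * star x * x * c' = q * (star c * c')`. So every `q ∈ P` divides the coordinates
of `star a * b`, so does `pp P` (`pp_dvd_int`), and `NN_eq` applies.
`crt_card`: the map `NN (pp P) → ∀ q : P, NN q` is injective by `crt_inj`, both sides have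
`∏ (q + 1)` elements (`card_pp`, `Nat.card_pi`), so it is bijective; now restrict it to the
subtypes (`Nat.card_congr`, `Equiv.subtypeEquiv`, `Nat.card_pi`, `Finset.prod_coe_sort`/`prod_attach`).
-/

namespace Pool.Agent.TQG

open Pool.Agent.TQS

theorem crt_inj {P : Finset ℕ} (hP : GP P) {a b : H} (ha : a ∈ NN (pp P)) (hb : b ∈ NN (pp P))
    (h : ∀ q ∈ P, L {q} a = L {q} b) : a = b := by
  have key : ∀ q ∈ P, ∃ u : H, star a * b = (q : H) * u := by
    intro q hq
    have hS : ({q} : Finset ℕ) ⊆ P := Finset.singleton_subset_iff.2 hq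
    have h1 := R_eq hP hS ha.1
    have h2 := R_eq hP hS hb.1
    have h3 := star_mul_QQ (L_mem hP hS ha.1).1
    rw [pp_single] at h3
    refine ⟨star (R {q} a) * R {q} b, ?_⟩
    rw [← h q hq] at h2
    calc star a * b = star (L {q} a * R {q} a) * (L {q} a * R {q} b) := by rw [h1, h2]
      _ = star (R {q} a) * (star (L {q} a) * L {q} a) * R {q} b := by
          rw [star_mul]; simp only [mul_assoc]
      _ = (q : H) * (star (R {q} a) * R {q} b) := by
          rw [h3, ← (Nat.cast_commute q (star (R {q} a))).eq, mul_assoc]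
  refine NN_eq (pp_pos hP) ha hb ?_
  rw [natdvd_iff]
  have k2 : ∀ q ∈ P, ((q : ℤ) ∣ (star a * b).re ∧ (q : ℤ) ∣ (star a * b).imI ∧
      (q : ℤ) ∣ (star a * b).imJ ∧ (q : ℤ) ∣ (star a * b).imK) := fun q hq =>
    (natdvd_iff q (star a * b)).1 (key q hq)
  exact ⟨pp_dvd_int hP fun q hq => (k2 q hq).1, pp_dvd_int hP fun q hq => (k2 q hq).2.1,
    pp_dvd_int hP fun q hq => (k2 q hq).2.2.1, pp_dvd_int hP fun q hq => (k2 q hq).2.2.2⟩

theorem crt_card {P : Finset ℕ} (hP : GP P) (E : ℕ → Set H) :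
    Nat.card {a : H | a ∈ NN (pp P) ∧ ∀ q ∈ P, L {q} a ∈ E q} =
      ∏ q ∈ P, Nat.card {d : H | d ∈ NN q ∧ d ∈ E q} := by
  classical
  have hmem : ∀ (a : NN (pp P)) (q : P), L {(q : ℕ)} (a : H) ∈ NN (q : ℕ) := by
    intro a q
    have hS : ({(q : ℕ)} : Finset ℕ) ⊆ P := Finset.singleton_subset_iff.2 q.2
    have := L_mem hP hS a.2.1
    rwa [pp_single] at this
  let φ : NN (pp P) → ((q : P) → NN (q : ℕ)) := fun a q => ⟨L {(q : ℕ)} (a : H), hmem a q⟩
  have hinj : Function.Injective φ := by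
    intro a b hab
    apply Subtype.ext
    apply crt_inj hP a.2 b.2
    intro q hq
    have := congrFun hab ⟨q, hq⟩
    exact congrArg Subtype.val this
  have hcard1 : ∀ q ∈ P, Nat.card (NN q) = q + 1 := by
    intro q hq
    have hG : GP {q} := fun r hr => by
      rw [Finset.mem_singleton] at hr
      subst hr
      exact hP r hq
    have := card_pp hG
    rw [pp_single, Finset.prod_singleton] at this
    exact this
  have hcard : Nat.card (NN (pp P)) = Nat.card ((q : P) → NN (q : ℕ)) := by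
    rw [card_pp hP, Nat.card_pi, ← Finset.prod_coe_sort]
    exact Finset.prod_congr rfl fun q _ => (hcard1 q q.2).symm
  have hbij : Function.Bijective φ :=
    (Nat.bijective_iff_injective_and_card φ).2 ⟨hinj, hcard⟩
  let e := Equiv.ofBijective φ hbij
  have e1 : {a : H | a ∈ NN (pp P) ∧ ∀ q ∈ P, L {q} a ∈ E q} ≃
      {a : NN (pp P) // ∀ q : P, ((φ a q : NN (q : ℕ)) : H) ∈ E q} :=
    { toFun := fun a => ⟨⟨a.1, a.2.1⟩, fun q => a.2.2 q q.2⟩
      invFun := fun a => ⟨a.1.1, a.1.2, fun q hq => a.2 ⟨q, hq⟩⟩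
      left_inv := fun a => rfl
      right_inv := fun a => rfl }
  have e2 : {a : NN (pp P) // ∀ q : P, ((φ a q : NN (q : ℕ)) : H) ∈ E q} ≃
      {f : (q : P) → NN (q : ℕ) // ∀ q : P, ((f q : NN (q : ℕ)) : H) ∈ E q} :=
    e.subtypeEquiv fun a => Iff.rfl
  have e3 : {f : (q : P) → NN (q : ℕ) // ∀ q : P, ((f q : NN (q : ℕ)) : H) ∈ E q} ≃
      ((q : P) → {d : NN (q : ℕ) // (d : H) ∈ E q}) :=
    Equiv.subtypePiEquivPi (p := fun (q : P) (d : NN (q : ℕ)) => (d : H) ∈ E q)
  have e4 : ∀ q : P, {d : NN (q : ℕ) // (d : H) ∈ E q} ≃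
      {d : H | d ∈ NN (q : ℕ) ∧ d ∈ E q} := fun q =>
    { toFun := fun d => ⟨d.1.1, d.1.2, d.2⟩
      invFun := fun d => ⟨⟨d.1, d.2.1⟩, d.2.2⟩
      left_inv := fun a => rfl
      right_inv := fun a => rfl }
  rw [Nat.card_congr ((e1.trans e2).trans e3), Nat.card_pi]
  refine Eq.trans ?_ (Finset.prod_coe_sort P fun q => Nat.card {d : H | d ∈ NN q ∧ d ∈ E q})
  exact Finset.prod_congr rfl fun q _ => Nat.card_congr (e4 q)

end Pool.Agent.TQG
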