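import Pool.Agent.TQG.Crd

/-!
Project TQG, module FAC: every `a ∈ QQ (pp P)` has exactly one left divisor in `NN (pp S)`, `S ⊆ P`.

UNIQUENESS. Put `d = pp S`, `e = pp (P \ S)`, coprime. If `a = b * c = b' * c'` with
`b, b' ∈ NN d`, then `c ∈ QQ e` (`cof_QQ`) and multiplying `b' * c' = b * c` by `star c` on the right
and by `star b'` on the left: `d * (c' * star c) = (star b' * b) * e`. As `d, e` are coprime, `d`
divides the coordinates of `star b' * b` (`natdvd_iff`), so `b' = b` by `NN_eq`.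
EXISTENCE (counting). The map `NN d × NN e → NN (pp P)`, `(b, c) ↦ nm (b * c)` (`mul_QQ`, `nm_NN`) is
injective: `b = b'` by uniqueness (`b ∣ nm (b * c)`), then `b * c = ± b * c'`, cancel `b`, and
`c = ± c'` gives `c = c'` as the real parts are positive. Both sides have the same finite
cardinality (`card_pp`, `Finset.prod_sdiff`), so the map is bijective
(`Nat.bijective_iff_injective_and_card`). For `a ∈ QQ (pp P)` apply it to `nm a ∈ NN (pp P)`
(`dvd_nm`).
-/

namespace Pool.Agent.TQG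

open Pool.Agent.TQS

private lemma fac_coord {d e : ℕ} (hde : Nat.Coprime d e) {x u : H}
    (h : x * (e : H) = (d : H) * u) : ∃ v : H, x = (d : H) * v := by
  rw [natdvd_iff]
  have h1 : ∃ v : H, x * (e : H) = (d : H) * v := ⟨u, h⟩
  rw [natdvd_iff] at h1
  have hc : IsCoprime (d : ℤ) (e : ℤ) := Nat.isCoprime_iff_coprime.2 hde
  have e1 : (x * (e : H)).re = x.re * e := by simp
  have e2 : (x * (e : H)).imI = x.imI * e := by simp
  have e3 : (x * (e : H)).imJ = x.imJ * e := by simp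
  have e4 : (x * (e : H)).imK = x.imK * e := by simp
  rw [e1, e2, e3, e4] at h1
  exact ⟨hc.dvd_of_dvd_mul_right h1.1, hc.dvd_of_dvd_mul_right h1.2.1,
    hc.dvd_of_dvd_mul_right h1.2.2.1, hc.dvd_of_dvd_mul_right h1.2.2.2⟩

theorem left_unique {P S : Finset ℕ} (hP : GP P) (hS : S ⊆ P) {a b b' : H} (ha : a ∈ QQ (pp P))
    (hb : b ∈ NN (pp S)) (hb' : b' ∈ NN (pp S)) (h : b ∣ a) (h' : b' ∣ a) : b = b' := by
  have hGS := hP.mono hS
  have hGD : GP (P \ S) := hP.mono Finset.sdiff_subset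
  obtain ⟨c, hc⟩ := h
  obtain ⟨c', hc'⟩ := h'
  rw [← pp_sdiff hS] at ha
  have hcQ : c ∈ QQ (pp (P \ S)) := cof_QQ (pp_odd hGS) ha hb.1 hc
  have e1 : (star b' * b) * ((pp (P \ S) : ℕ) : H) = ((pp S : ℕ) : H) * (c' * star c) := by
    rw [← mul_star_QQ hcQ, ← star_mul_QQ hb'.1]
    have e2 : b * c = b' * c' := by rw [← hc, ← hc']
    calc star b' * b * (c * star c) = star b' * (b * c) * star c := by
          simp only [mul_assoc]
      _ = star b' * (b' * c') * star c := by rw [e2]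
      _ = star b' * b' * (c' * star c) := by simp only [mul_assoc]
  have hcop : Nat.Coprime (pp S) (pp (P \ S)) :=
    pp_coprime hGS hGD Finset.disjoint_sdiff
  exact (NN_eq (pp_pos hGS) hb' hb (fac_coord hcop e1)).symm

theorem left_exists {P S : Finset ℕ} (hP : GP P) (hS : S ⊆ P) {a : H} (ha : a ∈ QQ (pp P)) :
    ∃ b ∈ NN (pp S), b ∣ a := by
  have hGS := hP.mono hS
  have hGD : GP (P \ S) := hP.mono Finset.sdiff_subset
  have hmem : ∀ b ∈ NN (pp S), ∀ c ∈ NN (pp (P \ S)), nm (b * c) ∈ NN (pp P) := by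
    intro b hb c hc
    have h1 := mul_QQ hb.1 hc.1
    rw [pp_sdiff hS] at h1
    exact nm_NN (pp_mod hP) h1
  let f : NN (pp S) × NN (pp (P \ S)) → NN (pp P) :=
    fun x => ⟨nm ((x.1 : H) * (x.2 : H)), hmem x.1 x.1.2 x.2 x.2.2⟩
  have hinj : Function.Injective f := by
    rintro ⟨⟨b, hb⟩, ⟨c, hc⟩⟩ ⟨⟨b', hb'⟩, ⟨c', hc'⟩⟩ h
    have h1 : nm (b * c) = nm (b' * c') := congrArg Subtype.val h
    have hQ : nm (b * c) ∈ QQ (pp P) := (hmem b hb c hc).1
    have hd1 : b ∣ nm (b * c) := (dvd_nm _ _).2 ⟨c, rfl⟩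
    have hd2 : b' ∣ nm (b * c) := by
      rw [h1]
      exact (dvd_nm _ _).2 ⟨c', rfl⟩
    have hbb : b = b' := left_unique hP hS hQ hb hb' hd1 hd2
    subst hbb
    have hb0 : b ≠ 0 := ne_zero_QQ (pp_pos hGS) hb.1
    have hcc : c = c' ∨ c = -c' := by
      rcases nm_or (b * c) with h2 | h2 <;> rcases nm_or (b * c') with h3 | h3
      · rw [h2, h3] at h1
        exact Or.inl (mul_left_cancel₀ hb0 h1)
      · rw [h2, h3, ← mul_neg] at h1
        exact Or.inr (mul_left_cancel₀ hb0 h1)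
      · rw [h2, h3] at h1
        refine Or.inr (mul_left_cancel₀ hb0 ?_)
        rw [mul_neg, ← h1, neg_neg]
      · rw [h2, h3] at h1
        exact Or.inl (mul_left_cancel₀ hb0 (neg_injective h1))
    rcases hcc with h2 | h2
    · subst h2
      rfl
    · exfalso
      have h3 : 0 < c.re := hc.2
      have h4 : 0 < c'.re := hc'.2
      rw [h2, Quaternion.re_neg] at h3
      linarith
  have hcard : Nat.card (NN (pp P)) ≤ Nat.card (NN (pp S) × NN (pp (P \ S))) := by
    rw [Nat.card_prod, card_pp hP, card_pp hGS, card_pp hGD, mul_comm, Finset.prod_sdiff hS]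
  have hbij := hinj.bijective_of_nat_card_le hcard
  obtain ⟨⟨⟨b, hb⟩, ⟨c, hc⟩⟩, h⟩ := hbij.2 ⟨nm a, nm_NN (pp_mod hP) ha⟩
  have h1 : nm (b * c) = nm a := congrArg Subtype.val h
  refine ⟨b, hb, ?_⟩
  rw [← dvd_nm, ← h1, dvd_nm]
  exact ⟨c, rfl⟩

end Pool.Agent.TQG
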