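import Pool.Agent.TQG.Swp

/-!
Project TQG, module FXS: fixed points of a reflection composed with a swap.

The bijection is `(b, c) ↦ nm (b * c)` with inverse `a ↦ (L S a, nm (R S a))`.
Let `a ∈ NN (pp P)`, `a = b * c`, `b = L S a`, `c = R S a`, and `b' = star (act g b)`,
`c' = star (act g c)`. Then `star (act g (sw S a)) = star (act g c * act g b) = b' * c'` with
`b' ∈ NN (pp S)` and `c' ∈ QQ (pp (P \ S))`. If this equals `a = b * c` then `b' = b`
(`left_unique`), hence `c' = c` (cancel), so `b ∈ MM g (pp S)` and `nm c ∈ MM g (pp (P \ S))`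
(`nm_act`, `nm_star`). Conversely clear. `nm (b * c) ∈ Z` is the condition `a ∈ Z`.
-/

namespace Pool.Agent.TQG

open Pool.Agent.TQS

private lemma fxs_core {P S : Finset ℕ} (hP : GP P) (hS : S ⊆ P) (g : G) {a : H}
    (ha : a ∈ NN (pp P)) (h : star (act g (sw S a)) = a) :
    L S a ∈ MM g (pp S) ∧ nm (R S a) ∈ MM g (pp (P \ S)) ∧ nm (L S a * nm (R S a)) = a := by
  have hGS := hP.mono hS
  have hGD : GP (P \ S) := hP.mono Finset.sdiff_subset
  have hb := L_mem hP hS ha.1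
  have hc := R_mem hP hS ha.1
  have he := R_eq hP hS ha.1
  have hd := L_dvd hP hS ha.1
  unfold sw at h
  generalize L S a = b at hb he hd h ⊢
  generalize R S a = c at hc he h ⊢
  rw [act_hmul, star_mul] at h
  have hb' : star (act g b) ∈ NN (pp S) := star_NN (act_NN g hb)
  have hbb : star (act g b) = b :=
    left_unique hP hS ha.1 hb' hb ⟨star (act g c), h.symm⟩ hd
  have hb0 : b ≠ 0 := ne_zero_QQ (pp_pos hGS) hb.1
  have hcc : star (act g c) = c := by
    rw [hbb, ← he] at h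
    exact mul_left_cancel₀ hb0 h
  refine ⟨⟨hb, hbb⟩, ⟨nm_NN (pp_mod hGD) hc, ?_⟩, ?_⟩
  · rw [← nm_act, ← nm_star, hcc]
  · rcases nm_or c with h2 | h2
    · rw [h2, he]
      exact nm_self ha.2
    · rw [h2, mul_neg, he, nm_neg ha.2.ne']
      exact nm_self ha.2

private lemma fxs_inj {P S : Finset ℕ} (hP : GP P) (hS : S ⊆ P) {b b' c c' : H}
    (hb : b ∈ NN (pp S)) (hb' : b' ∈ NN (pp S)) (hc : c ∈ NN (pp (P \ S)))
    (hc' : c' ∈ NN (pp (P \ S))) (h1 : nm (b * c) = nm (b' * c')) : b = b' ∧ c = c' := by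
  have hGS := hP.mono hS
  have hQ : nm (b * c) ∈ QQ (pp P) := by
    have h2 := mul_QQ hb.1 hc.1
    rw [pp_sdiff hS] at h2
    exact (nm_NN (pp_mod hP) h2).1
  have hd1 : b ∣ nm (b * c) := (dvd_nm _ _).2 ⟨c, rfl⟩
  have hd2 : b' ∣ nm (b * c) := by
    rw [h1]
    exact (dvd_nm _ _).2 ⟨c', rfl⟩
  have hbb : b = b' := left_unique hP hS hQ hb hb' hd1 hd2
  subst hbb
  have hb0 : b ≠ 0 := ne_zero_QQ (pp_pos hGS) hb.1
  have hcc : c = c' ∨ c = -c' := by
    rcases nm_or (b * c) with h2 | h2 <;> rcases nm_or (b * c') with h3 | h3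
    · rw [h2, h3] at h1
      exact Or.inl (mul_left_cancel₀ hb0 h1)
    · rw [h2, h3, ← mul_neg] at h1
      exact Or.inr (mul_left_cancel₀ hb0 h1)
    · rw [h2, h3] at h1
      refine Or.inr (mul_left_cancel₀ hb0 ?_)
      rw [mul_neg, ← h1, neg_neg]
    · rw [h2, h3] at h1
      exact Or.inl (mul_left_cancel₀ hb0 (neg_injective h1))
  refine ⟨rfl, ?_⟩
  rcases hcc with h2 | h2
  · exact h2
  · exfalso
    have h3 : 0 < c.re := hc.2
    have h4 : 0 < c'.re := hc'.2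
    rw [h2, Quaternion.re_neg] at h3
    linarith

private lemma fxs_maps {P S : Finset ℕ} (hP : GP P) (hS : S ⊆ P) (g : G) {b c : H}
    (hb : b ∈ MM g (pp S)) (hc : c ∈ MM g (pp (P \ S))) :
    nm (b * c) ∈ NN (pp P) ∧ star (act g (sw S (nm (b * c)))) = nm (b * c) := by
  have h2 := mul_QQ hb.1.1 hc.1.1
  rw [pp_sdiff hS] at h2
  refine ⟨nm_NN (pp_mod hP) h2, ?_⟩
  rcases nm_or (b * c) with h3 | h3
  · rw [h3, sw_mul hP hS hb.1.1 hc.1.1, act_hmul, star_mul, hb.2, hc.2]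
  · rw [h3, ← mul_neg, sw_mul hP hS hb.1.1 (neg_QQ hc.1.1), act_hmul, star_mul, hb.2, act_neg,
      star_neg, hc.2]

theorem fix_sw {P S : Finset ℕ} (hP : GP P) (hS : S ⊆ P) (g : G) (Z : Set H) :
    Nat.card {a : H | a ∈ NN (pp P) ∧ a ∈ Z ∧ star (act g (sw S a)) = a} =
      Nat.card {x : H × H | x.1 ∈ MM g (pp S) ∧ x.2 ∈ MM g (pp (P \ S)) ∧ nm (x.1 * x.2) ∈ Z} := by
  have hbij : Set.BijOn (fun x : H × H => nm (x.1 * x.2))
      {x : H × H | x.1 ∈ MM g (pp S) ∧ x.2 ∈ MM g (pp (P \ S)) ∧ nm (x.1 * x.2) ∈ Z}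
      {a : H | a ∈ NN (pp P) ∧ a ∈ Z ∧ star (act g (sw S a)) = a} := by
    refine ⟨?_, ?_, ?_⟩
    · rintro ⟨b, c⟩ ⟨hb, hc, hz⟩
      have h := fxs_maps hP hS g hb hc
      exact ⟨h.1, hz, h.2⟩
    · rintro ⟨b, c⟩ ⟨hb, hc, hz⟩ ⟨b', c'⟩ ⟨hb', hc', hz'⟩ h
      obtain ⟨h1, h2⟩ := fxs_inj hP hS hb.1 hb'.1 hc.1 hc'.1 h
      exact Prod.ext h1 h2
    · rintro a ⟨ha, hz, h⟩
      obtain ⟨h1, h2, h3⟩ := fxs_core hP hS g ha h
      exact ⟨(L S a, nm (R S a)), ⟨h1, h2, by rw [h3]; exact hz⟩, h3⟩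
  exact (Nat.card_congr (hbij.equiv _)).symm

private lemma fxs_real {P : Finset ℕ} (hP : GP P) (hne : P.Nonempty) {a : H}
    (ha : a ∈ NN (pp P)) (h1 : a.imI = 0) (h2 : a.imJ = 0) (h3 : a.imK = 0) : False := by
  have h4 := ha.1.2.2.2
  rw [normSq_eq, h1, h2, h3] at h4
  refine pp_not_sq hP hne ⟨a.re.natAbs, ?_⟩
  have h5 : ((pp P : ℕ) : ℤ) = ((a.re.natAbs * a.re.natAbs : ℕ) : ℤ) := by
    push_cast
    rw [abs_mul_abs_self, ← h4]
    ring
  exact_mod_cast h5

/-- An element of the mirror of the identity is an integer; its norm is a square. -/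
theorem MM_one_empty {P : Finset ℕ} (hP : GP P) (hne : P.Nonempty) : MM 1 (pp P) = ∅ := by
  rw [Set.eq_empty_iff_forall_notMem]
  rintro a ⟨ha, h⟩
  rw [act_one] at h
  have h1 := congrArg (fun q : H => q.imI) h
  have h2 := congrArg (fun q : H => q.imJ) h
  have h3 := congrArg (fun q : H => q.imK) h
  simp only [Quaternion.imI_star, Quaternion.imJ_star, Quaternion.imK_star] at h1 h2 h3
  exact fxs_real hP hne ha (by omega) (by omega) (by omega)

/-- Also for the rotations by one right angle. -/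
theorem MM_r_empty {P : Finset ℕ} (hP : GP P) (hne : P.Nonempty) (g : G)
    (hg : g = DihedralGroup.r 1 ∨ g = DihedralGroup.r 3) : MM g (pp P) = ∅ := by
  rw [Set.eq_empty_iff_forall_notMem]
  rintro a ⟨ha, h⟩
  have h1 := congrArg (fun q : H => q.imI) h
  have h2 := congrArg (fun q : H => q.imJ) h
  have h3 := congrArg (fun q : H => q.imK) h
  simp only [Quaternion.imI_star, Quaternion.imJ_star, Quaternion.imK_star] at h1 h2 h3
  rcases hg with rfl | rfl
  · have e1 : (act (DihedralGroup.r 1) a).imI = a.imI := rfl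
    have e2 : (act (DihedralGroup.r 1) a).imJ = -a.imK := rfl
    have e3 : (act (DihedralGroup.r 1) a).imK = a.imJ := rfl
    rw [e1] at h1
    rw [e2] at h2
    rw [e3] at h3
    exact fxs_real hP hne ha (by omega) (by omega) (by omega)
  · have e1 : (act (DihedralGroup.r 3) a).imI = a.imI := rfl
    have e2 : (act (DihedralGroup.r 3) a).imJ = a.imK := rfl
    have e3 : (act (DihedralGroup.r 3) a).imK = -a.imJ := rfl
    rw [e1] at h1
    rw [e2] at h2
    rw [e3] at h3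
    exact fxs_real hP hne ha (by omega) (by omega) (by omega)

/-- No fixed points of conjugation composed with a swap (from `fix_sw` with `g = 1` and
`MM_one_empty` for `S` or `P \ S`). -/
theorem fix_star_sw {P S : Finset ℕ} (hP : GP P) (hne : P.Nonempty) (hS : S ⊆ P) {a : H}
    (ha : a ∈ NN (pp P)) : star (sw S a) ≠ a := by
  intro h
  have h0 : star (act 1 (sw S a)) = a := by rw [act_one]; exact h
  obtain ⟨h1, h2, -⟩ := fxs_core hP hS 1 ha h0
  rcases S.eq_empty_or_nonempty with h3 | h3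
  · subst h3
    rw [Finset.sdiff_empty] at h2
    rw [MM_one_empty hP hne] at h2
    exact h2
  · rw [MM_one_empty (hP.mono hS) h3] at h1
    exact h1

end Pool.Agent.TQG
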