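import Pool.Agent.TQG.Defs
import Pool.Agent.H24.Count
import Pool.Agent.H24.Jacobi

/-!
Project TQG, module JAC: the two classes of the mirror of `gI` have the same size.

Let `m = 8 N + 1`. `MM gI m` is the set of `(x, 0, y, z)` with `x > 0` odd, `y, z` even,
`x ^ 2 + y ^ 2 + z ^ 2 = m`; then `y / 2 + z / 2` is even (`y^2 + z^2 = 0 mod 8`), put
`y = 2 (u + v)`, `z = 2 (u - v)`: `x ^ 2 + 8 u ^ 2 + 8 v ^ 2 = m`, and `imJ = y = 0 mod 4` iff
`u + v` even. So `mc0 gI m - mc1 gI m = ∑ (-1) ^ (u + v)` over the solutions with `x > 0`. With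
`x = 2 j + 1`, `tri j = j (j + 1) / 2` (each `x > 0` occurs for `j ≥ 0`; over all integers `j` the
values `j` and `- 1 - j` give the same `tri`), `tri j + u ^ 2 + v ^ 2 = N`:
`2 (mc0 - mc1) = coeff N (ps * thn ^ 2)` (`ps` = sum over all integers `j` of `X ^ tri j`, `thn` = sum of
`(-1) ^ u X ^ (u ^ 2)`), and `ps * thn ^ 2 = ph` (`H24.ph_eq`), whose coefficient at `N` vanishes if
`8 N + 1` is not a square (`H24.coeff_ph_zero`; see `H24.coeff_cardC`, `H24.coeff_r2` for the technique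
`gen_mul`, `coeff_gen_sum`, `gen_equiv`).
-/

namespace Pool.Agent.TQG

open Pool.Agent.TQS PowerSeries Pool.Agent.H24

private theorem jac_fib : Fib (fun p : (ℤ × ℤ) × ℤ => tri p.1.1 + sqN p.1.2 + sqN p.2) :=
  (Fib_tri.prod Fib_sqN).prod Fib_sqN

/-- The solutions of `tri j + u ^ 2 + v ^ 2 = N` with the parity of `u + v` given. -/
private def jacS (N : ℕ) (r : ℤ) : Set ((ℤ × ℤ) × ℤ) :=
  {p | tri p.1.1 + sqN p.1.2 + sqN p.2 = N ∧ (p.1.2 + p.2) % 2 = r}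

private theorem jac_S_fin (N : ℕ) (r : ℤ) : (jacS N r).Finite :=
  (jac_fib N).subset fun _ h => h.1

private theorem jac_ph : ph = gen (fun p : (ℤ × ℤ) × ℤ => tri p.1.1 + sqN p.1.2 + sqN p.2)
    (fun p => sg (p.1.2 + p.2)) := by
  have h1 : ph = ps * thn * thn := by rw [ph_eq]; ring
  rw [h1, ps, thn, gen_mul Fib_tri Fib_sqN, gen_mul (Fib_tri.prod Fib_sqN) Fib_sqN]
  refine gen_congr (fun _ => rfl) (fun p => ?_)
  rw [one_mul, sg_mul]

private theorem jac_card (N : ℕ) (h : ¬ IsSquare (8 * N + 1)) :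
    (jacS N 0).ncard = (jacS N 1).ncard := by
  classical
  have h0 : coeff N ph = 0 := coeff_ph_zero N h _
  have hF : ∀ p : (ℤ × ℤ) × ℤ, p ∈ (jac_fib N).toFinset ↔
      tri p.1.1 + sqN p.1.2 + sqN p.2 = N := fun p => by
    rw [Set.Finite.mem_toFinset]; rfl
  rw [jac_ph, coeff_gen_sum _ N (jac_fib N).toFinset (fun i hi => (hF i).mpr hi)] at h0
  have h1 : ∑ i ∈ (jac_fib N).toFinset, (if tri i.1.1 + sqN i.1.2 + sqN i.2 = N then
      sg (i.1.2 + i.2) else 0) = ∑ i ∈ (jac_fib N).toFinset, (if (i.1.2 + i.2) % 2 = 0 then (1 : ℤ)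
        else 0) - ∑ i ∈ (jac_fib N).toFinset, (if (i.1.2 + i.2) % 2 = 1 then (1 : ℤ) else 0) := by
    rw [← Finset.sum_sub_distrib]
    refine Finset.sum_congr rfl fun i hi => ?_
    rw [if_pos ((hF i).mp hi)]
    unfold sg
    rcases Int.emod_two_eq_zero_or_one (i.1.2 + i.2) with h2 | h2
    · rw [if_pos h2, if_pos h2, if_neg (by omega)]; ring
    · rw [if_neg (by omega), if_neg (by omega), if_pos h2]; ring
  rw [h1, Finset.sum_boole, Finset.sum_boole] at h0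
  have h2 : ∀ r : ℤ, (jacS N r).ncard =
      ((jac_fib N).toFinset.filter fun i => (i.1.2 + i.2) % 2 = r).card := by
    intro r
    rw [← Set.ncard_coe_finset]
    congr 1
    ext p
    rw [Finset.mem_coe, Finset.mem_filter, hF]
    rfl
  rw [h2, h2]
  have h3 : (((jac_fib N).toFinset.filter fun i => (i.1.2 + i.2) % 2 = 0).card : ℤ) =
      (((jac_fib N).toFinset.filter fun i => (i.1.2 + i.2) % 2 = 1).card : ℤ) := by
    linarith
  exact_mod_cast h3

private theorem jac_tri (j : ℤ) : tri (-1 - j) = tri j := by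
  have h1 := two_tri j
  have h2 := two_tri (-1 - j)
  zify
  linarith

private theorem jac_half (N : ℕ) (r : ℤ) :
    (jacS N r).ncard = 2 * {p | p ∈ jacS N r ∧ 0 ≤ p.1.1}.ncard := by
  have h1 : jacS N r = {p | p ∈ jacS N r ∧ 0 ≤ p.1.1} ∪ {p | p ∈ jacS N r ∧ p.1.1 < 0} := by
    ext p
    simp only [Set.mem_union, Set.mem_ofPred_eq]
    constructor
    · intro h
      rcases le_or_gt 0 p.1.1 with h2 | h2
      · exact Or.inl ⟨h, h2⟩
      · exact Or.inr ⟨h, h2⟩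
    · rintro (h | h) <;> exact h.1
  have hf1 : {p | p ∈ jacS N r ∧ 0 ≤ p.1.1}.Finite := (jac_S_fin N r).subset fun _ h => h.1
  have hf2 : {p | p ∈ jacS N r ∧ p.1.1 < 0}.Finite := (jac_S_fin N r).subset fun _ h => h.1
  have hd : Disjoint {p | p ∈ jacS N r ∧ 0 ≤ p.1.1} {p | p ∈ jacS N r ∧ p.1.1 < 0} := by
    rw [Set.disjoint_left]
    rintro p ⟨_, h2⟩ ⟨_, h3⟩
    omega
  have h2 : {p | p ∈ jacS N r ∧ 0 ≤ p.1.1}.ncard = {p | p ∈ jacS N r ∧ p.1.1 < 0}.ncard := by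
    refine Set.ncard_congr (fun p _ => ((-1 - p.1.1, p.1.2), p.2)) ?_ ?_ ?_
    · rintro ⟨⟨j, u⟩, v⟩ ⟨⟨h3, h4⟩, h5⟩
      refine ⟨⟨?_, h4⟩, ?_⟩
      · simp only at h3 ⊢
        rw [jac_tri]
        exact h3
      · simp only at h5 ⊢
        omega
    · rintro ⟨⟨j, u⟩, v⟩ ⟨⟨j', u'⟩, v'⟩ _ _ h
      simp only [Prod.mk.injEq] at h ⊢
      omega
    · rintro ⟨⟨j, u⟩, v⟩ ⟨⟨h3, h4⟩, h5⟩
      refine ⟨((-1 - j, u), v), ⟨⟨?_, h4⟩, ?_⟩, ?_⟩
      · simp only at h3 ⊢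
        rw [jac_tri]
        exact h3
      · simp only at h5 ⊢
        omega
      · simp only [Prod.mk.injEq, and_true]
        omega
  have h3 := Set.ncard_union_eq hd hf1 hf2
  rw [← h1] at h3
  omega

private theorem jac_MM (m : ℕ) (a : H) : a ∈ MM gI m ↔
    (0 < a.re ∧ a.re % 2 = 1 ∧ a.imI = 0 ∧ a.imJ % 2 = 0 ∧ a.imK % 2 = 0 ∧
      a.re ^ 2 + a.imJ ^ 2 + a.imK ^ 2 = (m : ℤ)) := by
  have h1 : star (act gI a) = a ↔ a.imI = 0 := by
    have h2 : act gI a = ⟨a.re, a.imI, -a.imJ, -a.imK⟩ := rot2 a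
    rw [h2]
    constructor
    · intro h
      have h3 := congrArg QuaternionAlgebra.imI h
      rw [Quaternion.imI_star] at h3
      simp only at h3
      omega
    · intro h
      ext
      · rw [Quaternion.re_star]
      · rw [Quaternion.imI_star]
        simp only
        omega
      · rw [Quaternion.imJ_star]
        simp only
        omega
      · rw [Quaternion.imK_star]
        simp only
        omega
  constructor
  · rintro ⟨⟨⟨e1, e2, e3, e4⟩, e5⟩, e6⟩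
    rw [h1] at e6
    rw [TQS.normSq_eq, e6] at e4
    refine ⟨e5, by omega, e6, by omega, by omega, by linarith⟩
  · rintro ⟨e1, e2, e3, e4, e5, e6⟩
    refine ⟨⟨⟨by omega, by omega, by omega, ?_⟩, e1⟩, h1.mpr e3⟩
    rw [TQS.normSq_eq, e3]
    linarith

private theorem jac_par {x s t N : ℤ} (hx : x % 2 = 1)
    (h : x ^ 2 + (2 * s) ^ 2 + (2 * t) ^ 2 = 8 * N + 1) : (s + t) % 2 = 0 := by
  obtain ⟨j, rfl⟩ : ∃ j, x = 2 * j + 1 := ⟨x / 2, by omega⟩
  have h1 := two_tri j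
  have h2 : 2 * (tri j : ℤ) + (s ^ 2 + t ^ 2) = 2 * N := by nlinarith
  by_contra h3
  have h4 : ∃ k, s = k * 2 + (1 - t) + 2 * t := by
    refine ⟨(s - t - 1) / 2, by omega⟩
  obtain ⟨k, rfl⟩ := h4
  ring_nf at h2
  omega

private theorem jac_bij (N : ℕ) (r : ℤ) (hr : r = 0 ∨ r = 1) :
    {p | p ∈ jacS N r ∧ 0 ≤ p.1.1}.ncard =
      {a | a ∈ MM gI (8 * N + 1) ∧ a.imJ % 4 = 2 * r}.ncard := by
  refine Set.ncard_congr (fun p _ => (⟨2 * p.1.1 + 1, 0, 2 * (p.1.2 + p.2), 2 * (p.1.2 - p.2)⟩ : H))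
    ?_ ?_ ?_
  · rintro ⟨⟨j, u⟩, v⟩ ⟨⟨h3, h4⟩, h5⟩
    simp only at h3 h4 h5
    refine ⟨(jac_MM _ _).mpr ⟨?_, ?_, rfl, ?_, ?_, ?_⟩, ?_⟩
    · simp only; omega
    · simp only; omega
    · simp only; omega
    · simp only; omega
    · simp only
      zify at h3
      rw [sqN_cast, sqN_cast] at h3
      have h6 := sq_odd_eq j
      push_cast
      rw [h6]
      linear_combination 8 * h3
    · simp only
      omega
  · rintro ⟨⟨j, u⟩, v⟩ ⟨⟨j', u'⟩, v'⟩ _ _ h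
    have e1 := congrArg QuaternionAlgebra.re h
    have e2 := congrArg QuaternionAlgebra.imJ h
    have e3 := congrArg QuaternionAlgebra.imK h
    simp only at e1 e2 e3
    simp only [Prod.mk.injEq]
    omega
  · rintro a ⟨h1, h2⟩
    obtain ⟨e1, e2, e3, e4, e5, e6⟩ := (jac_MM _ _).mp h1
    obtain ⟨j, hj⟩ : ∃ j, a.re = 2 * j + 1 := ⟨a.re / 2, by omega⟩
    obtain ⟨s, hs⟩ : ∃ s, a.imJ = 2 * s := ⟨a.imJ / 2, by omega⟩
    obtain ⟨t, ht⟩ : ∃ t, a.imK = 2 * t := ⟨a.imK / 2, by omega⟩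
    have hst : (s + t) % 2 = 0 := by
      refine jac_par (N := N) e2 ?_
      rw [← hs, ← ht, e6]
      push_cast
      ring
    obtain ⟨u, hu⟩ : ∃ u, s + t = 2 * u := ⟨(s + t) / 2, by omega⟩
    obtain ⟨v, hv⟩ : ∃ v, s = u + v := ⟨s - u, by ring⟩
    have ht' : t = u - v := by omega
    refine ⟨((j, u), v), ⟨⟨?_, ?_⟩, ?_⟩, ?_⟩
    · simp only
      zify
      rw [sqN_cast, sqN_cast]
      rw [hj, hs, ht, hv, ht'] at e6
      have h6 := sq_odd_eq j
      push_cast at e6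
      rw [h6] at e6
      linarith
    · simp only
      omega
    · simp only
      omega
    · ext
      · exact hj.symm
      · exact e3.symm
      · simp only
        rw [hs, hv]
      · simp only
        rw [ht, ht']

theorem jac {m : ℕ} (h1 : m % 8 = 1) (hsq : ¬ IsSquare m) : mc0 gI m = mc1 gI m := by
  obtain ⟨N, rfl⟩ : ∃ N, m = 8 * N + 1 := ⟨m / 8, by omega⟩
  have h2 := jac_card N hsq
  rw [jac_half, jac_half N 1, jac_bij N 0 (Or.inl rfl), jac_bij N 1 (Or.inr rfl)] at h2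
  rw [mul_zero, mul_one] at h2
  have h3 : {a | a ∈ MM gI (8 * N + 1) ∧ a.imJ % 4 = 0}.ncard =
      {a | a ∈ MM gI (8 * N + 1) ∧ a.imJ % 4 = 2}.ncard := by omega
  exact h3

end Pool.Agent.TQG
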