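import Pool.Agent.TQG.Ari
import Pool.Agent.TQG.Bsm

/-!
Project TQG, module YRC: divisibility of `TT (pp P)` and the recursion for `yy P` modulo 2.

Strong induction on `|P|` for `yrc_dvd`. In `bsm` the term `S = ∅` is `5 * ∏ (1 + J(-1|q))` (`TT 1 = 5`,
`MM g 1 = {1}`), so with `ari` the sum over nonempty `S ⊆ P` of
`TT (pp S) * ∏_{q ∈ P \ S} (1 + J(-pp S | q))` is `- 2 ^ (k + 2) c` modulo `2 ^ (k + 3)`. For
`S ≠ ∅`, `S ≠ P`, induction gives `TT (pp S) = 2 ^ (|S| + 2) yy S`, and `1 + J(-pp S | q)` is `0` or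
`2`, namely `2` iff `ww S q = 1` (`q` does not divide `pp S`, `pp_not_dvd`, so `J = ± 1`); so the term
is `2 ^ (k + 2) * yy S * ∏ ww S q` (lifted to `{0, 1}`). Hence `2 ^ (k + 2) ∣ TT (pp P)`. Divide by
`2 ^ (k + 2)` to get `yrc`.
-/

namespace Pool.Agent.TQG

open Pool.Agent.TQS

private theorem MM_one (g : G) (hg : g = gI ∨ g = gM) : MM g 1 = {1} := by
  ext a
  simp only [MM, Set.mem_ofPred_eq, NN_one, Set.mem_singleton_iff]
  constructor
  · exact fun h => h.1
  · rintro rfl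
    refine ⟨rfl, ?_⟩
    have h1 : (1 : H).imI = 0 := rfl
    have h2 : (1 : H).imJ = 0 := rfl
    have h3 : (1 : H).imK = 0 := rfl
    rcases hg with rfl | rfl
    · change star (rot 2 1) = 1
      rw [rot2]
      ext <;> simp [h1, h2, h3]
    · change star (flp (rot 1 1)) = 1
      rw [rot1, flp]
      ext <;> simp [h1, h2, h3]

theorem TT_one : TT 1 = 5 := by
  have h1 : mc gI 1 = 1 := by
    rw [mc, MM_one gI (Or.inl rfl)]
    simp
  have h2 : mc gM 1 = 1 := by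
    rw [mc, MM_one gM (Or.inr rfl)]
    simp
  rw [TT, h1, h2]

/-- The integer `0` or `1` lifting `ww`. -/
private noncomputable def wz (S : Finset ℕ) (q : ℕ) : ℤ :=
  if jacobiSym (-(pp S : ℤ)) q = 1 then 1 else 0

private theorem wz_cast (S : Finset ℕ) (q : ℕ) : ((wz S q : ℤ) : ZMod 2) = ww S q := by
  unfold wz ww
  split_ifs <;> simp

private theorem one_add_jac {P S : Finset ℕ} (hP : GP P) (hS : S ⊆ P) {q : ℕ} (hq : q ∈ P \ S) :
    1 + jacobiSym (-(pp S : ℤ)) q = 2 * wz S q := by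
  rw [Finset.mem_sdiff] at hq
  have hd := pp_not_dvd (hP.mono hS) (hP q hq.1).1 hq.2
  have hg : (-(pp S : ℤ)).gcd q = 1 := by
    rw [Int.neg_gcd, Int.gcd_natCast_natCast]
    exact (((hP q hq.1).1.coprime_iff_not_dvd).2 hd).symm
  rcases jacobiSym.eq_one_or_neg_one hg with h | h
  · rw [wz, if_pos h, h]
    norm_num
  · rw [wz, if_neg (by rw [h]; norm_num), h]
    norm_num

private theorem prod_eq {P S : Finset ℕ} (hP : GP P) (hS : S ⊆ P) :
    ∏ q ∈ P \ S, (1 + jacobiSym (-(pp S : ℤ)) q) =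
      2 ^ (P.card - S.card) * ∏ q ∈ P \ S, wz S q := by
  rw [Finset.prod_congr rfl (fun q hq => one_add_jac hP hS hq), Finset.prod_mul_distrib,
    Finset.prod_const, Finset.card_sdiff_of_subset hS]

/-- The main congruence. -/
private theorem main {P : Finset ℕ} (hP : GP P) (hne : P.Nonempty) :
    ∃ c : ℕ, (c : ZMod 2) = cc P ∧ ((2 ^ (P.card + 3) : ℕ) : ℤ) ∣
      (∑ S ∈ P.powerset with S.Nonempty, (TT (pp S) : ℤ) * (2 ^ (P.card - S.card) *
        ∏ q ∈ P \ S, wz S q)) - 2 ^ (P.card + 2) * (c : ℤ) := by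
  obtain ⟨c, hc, hd⟩ := ari hP hne
  refine ⟨c, hc, ?_⟩
  have hb := bsm hP
  have hs : ∑ S ∈ P.powerset, (TT (pp S) : ℤ) * ∏ q ∈ P \ S, (1 + jacobiSym (-(pp S : ℤ)) q) =
      5 * ∏ q ∈ P, (1 + jacobiSym (-1) q) +
        ∑ S ∈ P.powerset with S.Nonempty, (TT (pp S) : ℤ) * (2 ^ (P.card - S.card) *
        ∏ q ∈ P \ S, wz S q) := by
    rw [← Finset.sum_filter_add_sum_filter_not P.powerset (fun S => S.Nonempty), add_comm]
    congr 1
    · have he : P.powerset.filter (fun S => ¬ S.Nonempty) = {∅} := by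
        ext S
        simp only [Finset.mem_filter, Finset.mem_powerset, Finset.not_nonempty_iff_eq_empty,
          Finset.mem_singleton]
        constructor
        · exact fun h => h.2
        · rintro rfl
          exact ⟨Finset.empty_subset _, rfl⟩
      rw [he, Finset.sum_singleton, pp_empty, TT_one, Finset.sdiff_empty]
      norm_num
    · refine Finset.sum_congr rfl (fun S hS => ?_)
      rw [Finset.mem_filter, Finset.mem_powerset] at hS
      rw [prod_eq hP hS.1]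
  rw [hs] at hb
  have h := dvd_sub hb hd
  have h2 : ((2 ^ (P.card + 3) : ℕ) : ℤ) ∣ 2 * (2 ^ (P.card + 2) * (c : ℤ)) :=
    ⟨c, by push_cast; ring⟩
  have h3 := dvd_sub h h2
  obtain ⟨z, hz⟩ := h3
  exact ⟨z, by rw [← hz]; ring⟩

private theorem dvd_all : ∀ n : ℕ, ∀ P : Finset ℕ, P.card = n → GP P → P.Nonempty →
    2 ^ (P.card + 2) ∣ TT (pp P) := by
  intro n
  induction n using Nat.strong_induction_on with
  | _ n ih =>
  intro P hcard hP hne
  obtain ⟨c, _, hd⟩ := main hP hne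
  have hmem : P ∈ P.powerset.filter (fun S => S.Nonempty) := by
    rw [Finset.mem_filter, Finset.mem_powerset]
    exact ⟨subset_rfl, hne⟩
  rw [← Finset.add_sum_erase _ _ hmem, Nat.sub_self, Finset.sdiff_self, Finset.prod_empty,
    pow_zero, mul_one, mul_one] at hd
  have hE : ((2 ^ (P.card + 2) : ℕ) : ℤ) ∣
      ∑ S ∈ (P.powerset.filter (fun S => S.Nonempty)).erase P, (TT (pp S) : ℤ) *
        (2 ^ (P.card - S.card) * ∏ q ∈ P \ S, wz S q) := by
    refine Finset.dvd_sum (fun S hS => ?_)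
    rw [Finset.mem_erase, Finset.mem_filter, Finset.mem_powerset] at hS
    obtain ⟨hSP, hS, hSne⟩ := hS
    have hlt : S.card < P.card := Finset.card_lt_card (Finset.ssubset_iff_subset_ne.2 ⟨hS, hSP⟩)
    obtain ⟨t, ht⟩ := ih S.card (by omega) S rfl (hP.mono hS) hSne
    refine ⟨t * ∏ q ∈ P \ S, wz S q, ?_⟩
    rw [ht]
    have he : P.card + 2 = (S.card + 2) + (P.card - S.card) := by omega
    rw [he, show (S.card + 2 + (P.card - S.card)) = (S.card + 2) + (P.card - S.card) from rfl]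
    push_cast
    rw [pow_add 2 (S.card + 2)]
    ring
  have h0 : ((2 ^ (P.card + 2) : ℕ) : ℤ) ∣ ((2 ^ (P.card + 3) : ℕ) : ℤ) := by
    exact_mod_cast pow_dvd_pow 2 (by omega)
  have h1 := h0.trans hd
  have h2 : ((2 ^ (P.card + 2) : ℕ) : ℤ) ∣ 2 ^ (P.card + 2) * (c : ℤ) := ⟨c, by push_cast; ring⟩
  have h3 := dvd_sub (dvd_add h1 h2) hE
  have h4 : ((2 ^ (P.card + 2) : ℕ) : ℤ) ∣ (TT (pp P) : ℤ) := by
    obtain ⟨z, hz⟩ := h3
    exact ⟨z, by rw [← hz]; ring⟩
  exact_mod_cast h4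

theorem yrc_dvd {P : Finset ℕ} (hP : GP P) (hne : P.Nonempty) :
    2 ^ (P.card + 2) ∣ TT (pp P) :=
  dvd_all P.card P rfl hP hne

theorem yrc {P : Finset ℕ} (hP : GP P) (hne : P.Nonempty) :
    ∑ S ∈ P.powerset with S.Nonempty, (yy S : ZMod 2) * ∏ q ∈ P \ S, ww S q = cc P := by
  obtain ⟨c, hc, hd⟩ := main hP hne
  have hs : ∑ S ∈ P.powerset with S.Nonempty, (TT (pp S) : ℤ) * (2 ^ (P.card - S.card) *
        ∏ q ∈ P \ S, wz S q) =
      2 ^ (P.card + 2) * ∑ S ∈ P.powerset with S.Nonempty, (yy S : ℤ) * ∏ q ∈ P \ S, wz S q := by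
    rw [Finset.mul_sum]
    refine Finset.sum_congr rfl (fun S hS => ?_)
    rw [Finset.mem_filter, Finset.mem_powerset] at hS
    have hle : S.card ≤ P.card := Finset.card_le_card hS.1
    have h1 : TT (pp S) = 2 ^ (S.card + 2) * yy S := by
      rw [yy, Nat.mul_div_cancel' (yrc_dvd (hP.mono hS.1) hS.2)]
    have he : P.card + 2 = (S.card + 2) + (P.card - S.card) := by omega
    rw [h1, he]
    push_cast
    rw [pow_add 2 (S.card + 2)]
    ring
  rw [hs, ← mul_sub] at hd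
  obtain ⟨z, hz⟩ := hd
  have h2 : (∑ S ∈ P.powerset with S.Nonempty, (yy S : ℤ) * ∏ q ∈ P \ S, wz S q) - (c : ℤ) =
      2 * z := by
    have h3 : (2 : ℤ) ^ (P.card + 2) ≠ 0 := pow_ne_zero _ (by norm_num)
    apply mul_left_cancel₀ h3
    rw [hz]
    push_cast
    ring
  have h4 : (((∑ S ∈ P.powerset with S.Nonempty, (yy S : ℤ) * ∏ q ∈ P \ S, wz S q) : ℤ) : ZMod 2) =
      ((c : ℤ) : ZMod 2) := by
    rw [← sub_eq_zero, ← Int.cast_sub, h2, Int.cast_mul]
    have : ((2 : ℤ) : ZMod 2) = 0 := by decide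
    rw [this, zero_mul]
  rw [← hc]
  rw [Int.cast_natCast] at h4
  rw [← h4, Int.cast_sum]
  refine Finset.sum_congr rfl (fun S _ => ?_)
  rw [Int.cast_mul, Int.cast_prod, Int.cast_natCast]
  congr 1
  exact Finset.prod_congr rfl (fun q _ => (wz_cast S q).symm)

end Pool.Agent.TQG
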