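import Pool.Agent.TQG.Pri
import Pool.Agent.TQG.Cnt
import Pool.Agent.TQG.Jac
import Pool.Agent.TQG.Yrc

/-!
Project TQG, module IND: `2 (mc0 gM - mc1 gM) = TT` modulo `2 ^ (k + 3)`, `k = |P|`.

Write `h S = mc1 gI (pp S)`, `M S = mc gM (pp S)`, `M0, M1` for `mc0 gM, mc1 gM`.
For `S ≠ ∅`, `pp S = 1 mod 8`: `mc0 gI = mc1 gI = h S` (`jac`, `pp_not_sq`), `mc gI = 2 h S`.
(A) `2 ^ (|P| + 1) ∣ h P` for `P ≠ ∅`, `pp P = 1 mod 8`: strong induction. In the first sum of `pri`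
the terms `S = ∅`, `S = P` are `h P` each (`mc_one`, `cnt_V`), those with `pp S = 7 mod 8` vanish
(`cnt_A_gI`), the others are `2 h S * h (P \ S)`, divisible by `2 ^ (k + 3)`. So
`2 ^ (k + 2) ∣ 2 h P`.
(B) `2 ^ (|P| + 1) ∣ M P` for `P ≠ ∅`: `yrc_dvd`: `2 ^ (k + 2) ∣ 3 mc gI + 2 M P`, and
`mc gI = 2 h P` or `0` (`mc_gI_seven`).
(C) the claim, strong induction. The claim for `S` smaller gives `2 ^ (|S| + 1) ∣ M0 S - M1 S`
(`2 ^ (|S| + 2) ∣ TT`), and `M0 + M1 = M S` is divisible by `2 ^ (|S| + 1)`, so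
`2 ^ |S| ∣ M0 S, M1 S`. In the second sum of `pri` the terms `f S = 2 FY gM P S - FY gI P S`:
`f ∅ = f P = 2 M1 P - h P` (`mc_one`); for other `S` the part `FY gI P S` is divisible by
`2 ^ (k + 3)`; and `e S = 2 FY gM P S` satisfies `e (P \ S) = e S` and `2 ^ (k + 2) ∣ e S`: if
`pp S = 7 mod 8` it is `M S * M (P \ S)` (`cnt_A_gM`), divisible by `2 ^ (|S| + 1 + k - |S| + 1)`; if
`pp S = 1 mod 8` it is `2 (M0 S * M1 (P \ S) + M1 S * M0 (P \ S))`, and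
`M0 M1' + M1 M0' = 2 M0 M0' + M0 (M1' - M0') + (M1 - M0) M0'` is divisible by `2 ^ (k + 1)`. The sum
of `e S` over `S ≠ ∅, P` is twice the sum over those containing a fixed element `p₀` of `P`
(`S ↦ P \ S`), so divisible by `2 ^ (k + 3)`. Hence `2 ^ (k + 3) ∣ 2 (2 M1 P - h P)`. Finally
`2 (M0 - M1) - TT = 2 (M - 2 M1) - 6 h - 2 M = - 2 (2 M1 - h) - 8 h`.
-/

namespace Pool.Agent.TQG

private theorem ind_split (P : Finset ℕ) (hne : P.Nonempty) (f : Finset ℕ → ℤ) :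
    ∑ S ∈ P.powerset, f S = f ∅ + (f P + ∑ S ∈ (P.powerset.erase ∅).erase P, f S) := by
  rw [Finset.add_sum_erase _ f, Finset.add_sum_erase _ f (Finset.empty_mem_powerset P)]
  exact Finset.mem_erase.mpr ⟨hne.ne_empty, Finset.mem_powerset_self P⟩

private theorem ind_mem {P S : Finset ℕ} (h : S ∈ (P.powerset.erase ∅).erase P) :
    S ⊆ P ∧ S.Nonempty ∧ (P \ S).Nonempty ∧ S.card < P.card ∧ (P \ S).card < P.card ∧
      S.card + (P \ S).card = P.card := by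
  rw [Finset.mem_erase, Finset.mem_erase, Finset.mem_powerset] at h
  obtain ⟨h1, h2, h3⟩ := h
  have h4 : S.Nonempty := Finset.nonempty_iff_ne_empty.mpr h2
  have h5 : (P \ S).Nonempty := by
    rw [Finset.sdiff_nonempty]
    intro h6
    exact h1 (Finset.Subset.antisymm h3 h6)
  have h6 : S.card + (P \ S).card = P.card := by
    rw [add_comm]
    exact Finset.card_sdiff_add_card_eq_card h3
  have h7 := h4.card_pos
  have h8 := h5.card_pos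
  exact ⟨h3, h4, h5, by omega, by omega, h6⟩

private theorem ind_mod {P S : Finset ℕ} (hP : GP P) (hS : S ⊆ P) (h1 : pp P % 8 = 1) :
    pp (P \ S) % 8 = pp S % 8 := by
  have h2 := pp_sdiff hS
  have h3 := pp_mod (hP.mono hS)
  have h4 := pp_mod (hP.mono (Finset.sdiff_subset (s := P) (t := S)))
  have h5 : (pp S % 8) * (pp (P \ S) % 8) % 8 = 1 := by
    rw [← Nat.mul_mod, h2, h1]
  rcases h3 with h3 | h3 <;> rcases h4 with h4 | h4 <;> rw [h3, h4] at h5 <;> omega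

/-- the values at `gI` -/
private theorem ind_gI {S : Finset ℕ} (hS : GP S) (hne : S.Nonempty) (h1 : pp S % 8 = 1) :
    mc0 gI (pp S) = mc1 gI (pp S) ∧ mc gI (pp S) = 2 * mc1 gI (pp S) := by
  have h2 := jac h1 (pp_not_sq hS hne)
  have h3 := mc_add h1 (g := gI) (Or.inl rfl)
  exact ⟨h2, by omega⟩

private theorem ind_FY_empty {P : Finset ℕ} (hP : GP P) (h1 : pp P % 8 = 1)
    {g : TQS.G} (hg : g = gI ∨ g = gM) : FY g P ∅ = mc1 g (pp P) := by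
  have h2 := cnt_V hP (Finset.empty_subset P) h1 (by rw [pp_empty]) hg
  rw [pp_empty, Finset.sdiff_empty, (mc_one g hg).1, (mc_one g hg).2.1] at h2
  rw [h2]
  ring

private theorem ind_FY_self {P : Finset ℕ} (hP : GP P) (h1 : pp P % 8 = 1)
    {g : TQS.G} (hg : g = gI ∨ g = gM) : FY g P P = mc1 g (pp P) := by
  have h2 := cnt_V hP (Finset.Subset.refl P) h1 h1 hg
  rw [Finset.sdiff_self, pp_empty, (mc_one g hg).1, (mc_one g hg).2.1] at h2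
  rw [h2]
  ring

private theorem ind_two {a b : ℕ} {x : ℤ} (h : (2 ^ (a + 1) : ℤ) ∣ 2 * x) (hab : a = b) :
    (2 ^ b : ℤ) ∣ x := by
  subst hab
  rw [pow_succ'] at h
  exact (mul_dvd_mul_iff_left (by norm_num)).mp h

private theorem ind_FY_gI {P S : Finset ℕ} (hP : GP P) (h1 : pp P % 8 = 1)
    (hS : S ∈ (P.powerset.erase ∅).erase P)
    (ih : ∀ T : Finset ℕ, T.card < P.card → GP T → T.Nonempty → pp T % 8 = 1 →
      (2 ^ (T.card + 1) : ℤ) ∣ (mc1 gI (pp T) : ℤ)) :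
    (2 ^ (P.card + 3) : ℤ) ∣ (FY gI P S : ℤ) := by
  obtain ⟨h2, h3, h4, h5, h6, h7⟩ := ind_mem hS
  rcases pp_mod (hP.mono h2) with h8 | h8
  · have h9 := ind_mod hP h2 h1
    rw [cnt_V hP h2 h1 h8 (Or.inl rfl), (ind_gI (hP.mono h2) h3 h8).1,
      (ind_gI (hP.mono Finset.sdiff_subset) h4 (h9.trans h8)).1]
    obtain ⟨c, hc⟩ := ih S h5 (hP.mono h2) h3 h8
    obtain ⟨d, hd⟩ := ih (P \ S) h6 (hP.mono Finset.sdiff_subset) h4 (h9.trans h8)
    refine ⟨c * d, ?_⟩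
    push_cast
    rw [hc, hd, ← h7]
    ring
  · rw [cnt_A_gI hP h2 h8]
    simp

private theorem ind_A (n : ℕ) : ∀ P : Finset ℕ, P.card = n → GP P → P.Nonempty → pp P % 8 = 1 →
    (2 ^ (P.card + 1) : ℤ) ∣ (mc1 gI (pp P) : ℤ) := by
  induction n using Nat.strong_induction_on with
  | _ n ih =>
    intro P hn hP hne h1
    subst hn
    have ih' : ∀ T : Finset ℕ, T.card < P.card → GP T → T.Nonempty → pp T % 8 = 1 →
      (2 ^ (T.card + 1) : ℤ) ∣ (mc1 gI (pp T) : ℤ) := fun T hT => ih T.card hT T rfl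
    have h2 := (pri hP hne h1).1
    push_cast at h2
    rw [ind_split P hne (fun S => (FY gI P S : ℤ)), ind_FY_empty hP h1 (Or.inl rfl),
      ind_FY_self hP h1 (Or.inl rfl)] at h2
    have h3 : (2 ^ (P.card + 2) : ℤ) ∣ ∑ S ∈ (P.powerset.erase ∅).erase P, (FY gI P S : ℤ) :=
      Finset.dvd_sum fun S hS => (pow_dvd_pow 2 (by omega)).trans (ind_FY_gI hP h1 hS ih')
    rw [← add_assoc, dvd_add_left h3, ← two_mul] at h2
    exact ind_two h2 rfl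

private theorem ind_hI {P : Finset ℕ} (hP : GP P) (hne : P.Nonempty) (h1 : pp P % 8 = 1) :
    (2 ^ (P.card + 1) : ℤ) ∣ (mc1 gI (pp P) : ℤ) := ind_A _ P rfl hP hne h1

private theorem ind_TT (P : Finset ℕ) :
    (TT (pp P) : ℤ) = 3 * (mc gI (pp P) : ℤ) + 2 * (mc gM (pp P) : ℤ) := by
  unfold TT
  push_cast
  ring

private theorem ind_B {P : Finset ℕ} (hP : GP P) (hne : P.Nonempty) :
    (2 ^ (P.card + 1) : ℤ) ∣ (mc gM (pp P) : ℤ) := by
  have h1 : (2 ^ (P.card + 2) : ℤ) ∣ (TT (pp P) : ℤ) := by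
    exact_mod_cast yrc_dvd hP hne
  rw [ind_TT] at h1
  have h2 : (2 ^ (P.card + 2) : ℤ) ∣ 3 * (mc gI (pp P) : ℤ) := by
    rcases pp_mod hP with h8 | h8
    · rw [(ind_gI hP hne h8).2]
      obtain ⟨c, hc⟩ := ind_hI hP hne h8
      refine ⟨3 * c, ?_⟩
      push_cast
      rw [hc]
      ring
    · rw [mc_gI_seven h8]
      simp
  exact ind_two ((dvd_add_right h2).mp h1) rfl

/-- consequences of the claim for a smaller set -/
private theorem ind_small {S : Finset ℕ} (hS : GP S) (hne : S.Nonempty) (h1 : pp S % 8 = 1)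
    (ih : (2 ^ (S.card + 3) : ℤ) ∣
      2 * ((mc0 gM (pp S) : ℤ) - (mc1 gM (pp S) : ℤ)) - (TT (pp S) : ℤ)) :
    (2 ^ (S.card + 1) : ℤ) ∣ (mc1 gM (pp S) : ℤ) - (mc0 gM (pp S) : ℤ) ∧
      (2 ^ S.card : ℤ) ∣ (mc0 gM (pp S) : ℤ) := by
  have h2 : (2 ^ (S.card + 2) : ℤ) ∣ (TT (pp S) : ℤ) := by
    exact_mod_cast yrc_dvd hS hne
  have h3 : (2 ^ (S.card + 2) : ℤ) ∣ 2 * ((mc0 gM (pp S) : ℤ) - (mc1 gM (pp S) : ℤ)) := by
    have h4 := dvd_add ((pow_dvd_pow 2 (by omega)).trans ih) h2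
    rwa [sub_add_cancel] at h4
  have h4 : (2 ^ (S.card + 1) : ℤ) ∣ (mc0 gM (pp S) : ℤ) - (mc1 gM (pp S) : ℤ) := ind_two h3 rfl
  have h5 : (2 ^ (S.card + 1) : ℤ) ∣ (mc1 gM (pp S) : ℤ) - (mc0 gM (pp S) : ℤ) := by
    rw [← neg_sub]
    exact (dvd_neg).mpr h4
  refine ⟨h5, ?_⟩
  have h6 := ind_B hS hne
  rw [mc_add h1 (Or.inr rfl)] at h6
  push_cast at h6
  have h7 : (2 ^ (S.card + 1) : ℤ) ∣ 2 * (mc0 gM (pp S) : ℤ) := by
    have h8 := dvd_add h4 h6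
    have h9 : (mc0 gM (pp S) : ℤ) - (mc1 gM (pp S) : ℤ) +
        ((mc0 gM (pp S) : ℤ) + (mc1 gM (pp S) : ℤ)) = 2 * (mc0 gM (pp S) : ℤ) := by ring
    rwa [h9] at h8
  exact ind_two h7 rfl

private theorem ind_e_symm {P S : Finset ℕ} (hP : GP P) (h1 : pp P % 8 = 1) (hS : S ⊆ P) :
    2 * FY gM P (P \ S) = 2 * FY gM P S := by
  have h9 := ind_mod hP hS h1
  have hSS : P \ (P \ S) = S := Finset.sdiff_sdiff_eq_self hS
  rcases pp_mod (hP.mono hS) with h8 | h8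
  · rw [cnt_V hP hS h1 h8 (Or.inr rfl),
      cnt_V hP Finset.sdiff_subset h1 (h9.trans h8) (Or.inr rfl), hSS]
    ring
  · rw [cnt_A_gM hP hS h1 h8, cnt_A_gM hP Finset.sdiff_subset h1 (h9.trans h8), hSS]
    ring

private theorem ind_e_dvd {P S : Finset ℕ} (hP : GP P) (h1 : pp P % 8 = 1)
    (hS : S ∈ (P.powerset.erase ∅).erase P)
    (ih : ∀ T : Finset ℕ, T.card < P.card → GP T → T.Nonempty → pp T % 8 = 1 →
      (2 ^ (T.card + 3) : ℤ) ∣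
        2 * ((mc0 gM (pp T) : ℤ) - (mc1 gM (pp T) : ℤ)) - (TT (pp T) : ℤ)) :
    (2 ^ (P.card + 2) : ℤ) ∣ ((2 * FY gM P S : ℕ) : ℤ) := by
  obtain ⟨h2, h3, h4, h5, h6, h7⟩ := ind_mem hS
  have h9 := ind_mod hP h2 h1
  rcases pp_mod (hP.mono h2) with h8 | h8
  · rw [cnt_V hP h2 h1 h8 (Or.inr rfl)]
    obtain ⟨⟨a, ha⟩, ⟨b, hb⟩⟩ := ind_small (hP.mono h2) h3 h8 (ih S h5 (hP.mono h2) h3 h8)
    obtain ⟨⟨c, hc⟩, ⟨d, hd⟩⟩ := ind_small (hP.mono Finset.sdiff_subset) h4 (h9.trans h8)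
      (ih (P \ S) h6 (hP.mono Finset.sdiff_subset) h4 (h9.trans h8))
    have ha' : (mc1 gM (pp S) : ℤ) = 2 ^ S.card * b + 2 ^ (S.card + 1) * a := by linarith
    have hc' : (mc1 gM (pp (P \ S)) : ℤ) = 2 ^ (P \ S).card * d + 2 ^ ((P \ S).card + 1) * c := by
      linarith
    refine ⟨b * d + b * c + a * d, ?_⟩
    push_cast
    rw [ha', hc', hb, hd, ← h7]
    ring
  · rw [cnt_A_gM hP h2 h1 h8]
    obtain ⟨a, ha⟩ := ind_B (hP.mono h2) h3
    obtain ⟨c, hc⟩ := ind_B (hP.mono (Finset.sdiff_subset (s := P) (t := S))) h4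
    refine ⟨a * c, ?_⟩
    push_cast
    rw [ha, hc, ← h7]
    ring

private theorem ind_e_sum {P : Finset ℕ} (hP : GP P) (hne : P.Nonempty) (h1 : pp P % 8 = 1)
    (ih : ∀ T : Finset ℕ, T.card < P.card → GP T → T.Nonempty → pp T % 8 = 1 →
      (2 ^ (T.card + 3) : ℤ) ∣
        2 * ((mc0 gM (pp T) : ℤ) - (mc1 gM (pp T) : ℤ)) - (TT (pp T) : ℤ)) :
    (2 ^ (P.card + 3) : ℤ) ∣
      ∑ S ∈ (P.powerset.erase ∅).erase P, ((2 * FY gM P S : ℕ) : ℤ) := by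
  obtain ⟨p₀, hp₀⟩ := hne
  set X := (P.powerset.erase ∅).erase P with hX
  have h2 : ∑ S ∈ X with ¬ p₀ ∈ S, ((2 * FY gM P S : ℕ) : ℤ) =
      ∑ S ∈ X with p₀ ∈ S, ((2 * FY gM P S : ℕ) : ℤ) := by
    have hmap : ∀ S ∈ X, P \ S ∈ X := by
      intro S hS
      obtain ⟨h2, h3, h4, h5, h6, h7⟩ := ind_mem hS
      rw [hX, Finset.mem_erase, Finset.mem_erase, Finset.mem_powerset]
      refine ⟨fun h => ?_, h4.ne_empty, Finset.sdiff_subset⟩
      rw [h] at h6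
      exact lt_irrefl _ h6
    refine Finset.sum_bij' (fun S _ => P \ S) (fun S _ => P \ S) ?_ ?_ ?_ ?_ ?_
    · intro S hS
      rw [Finset.mem_filter] at hS ⊢
      exact ⟨hmap S hS.1, Finset.mem_sdiff.mpr ⟨hp₀, hS.2⟩⟩
    · intro S hS
      rw [Finset.mem_filter] at hS ⊢
      exact ⟨hmap S hS.1, fun h => (Finset.mem_sdiff.mp h).2 hS.2⟩
    · intro S hS
      exact Finset.sdiff_sdiff_eq_self (ind_mem (Finset.mem_filter.mp hS).1).1
    · intro S hS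
      exact Finset.sdiff_sdiff_eq_self (ind_mem (Finset.mem_filter.mp hS).1).1
    · intro S hS
      rw [ind_e_symm hP h1 (ind_mem (Finset.mem_filter.mp hS).1).1]
  rw [← Finset.sum_filter_add_sum_filter_not X (fun S => p₀ ∈ S), h2, ← two_mul]
  obtain ⟨c, hc⟩ : (2 ^ (P.card + 2) : ℤ) ∣ ∑ S ∈ X with p₀ ∈ S, ((2 * FY gM P S : ℕ) : ℤ) :=
    Finset.dvd_sum fun S hS => ind_e_dvd hP h1 (Finset.mem_filter.mp hS).1 ih
  refine ⟨c, ?_⟩
  rw [hc]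
  ring

private theorem ind_C (n : ℕ) : ∀ P : Finset ℕ, P.card = n → GP P → P.Nonempty → pp P % 8 = 1 →
    (2 ^ (P.card + 3) : ℤ) ∣
      2 * ((mc0 gM (pp P) : ℤ) - (mc1 gM (pp P) : ℤ)) - (TT (pp P) : ℤ) := by
  induction n using Nat.strong_induction_on with
  | _ n ih =>
    intro P hn hP hne h1
    subst hn
    have ih' : ∀ T : Finset ℕ, T.card < P.card → GP T → T.Nonempty → pp T % 8 = 1 →
        (2 ^ (T.card + 3) : ℤ) ∣
          2 * ((mc0 gM (pp T) : ℤ) - (mc1 gM (pp T) : ℤ)) - (TT (pp T) : ℤ) :=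
      fun T hT => ih T.card hT T rfl
    have h2 := (pri hP hne h1).2
    push_cast at h2
    rw [ind_split P hne (fun S => 2 * (FY gM P S : ℤ) - (FY gI P S : ℤ)),
      ind_FY_empty hP h1 (Or.inl rfl), ind_FY_self hP h1 (Or.inl rfl),
      ind_FY_empty hP h1 (Or.inr rfl), ind_FY_self hP h1 (Or.inr rfl),
      Finset.sum_sub_distrib] at h2
    have h3 : (2 ^ (P.card + 3) : ℤ) ∣ ∑ S ∈ (P.powerset.erase ∅).erase P, (FY gI P S : ℤ) :=
      Finset.dvd_sum fun S hS => ind_FY_gI hP h1 hS (fun T _ => ind_hI)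
    have h4 : (2 ^ (P.card + 3) : ℤ) ∣
        ∑ S ∈ (P.powerset.erase ∅).erase P, (2 * (FY gM P S : ℤ)) := by
      have h5 := ind_e_sum hP hne h1 ih'
      push_cast at h5
      exact h5
    have h5 : (2 ^ (P.card + 3) : ℤ) ∣
        2 * (2 * (mc1 gM (pp P) : ℤ) - (mc1 gI (pp P) : ℤ)) := by
      have h6 := dvd_sub h2 (dvd_sub h4 h3)
      refine h6.trans (dvd_of_eq ?_)
      ring
    obtain ⟨c, hc⟩ := h5
    obtain ⟨d, hd⟩ := ind_hI hP hne h1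
    refine ⟨-c - 2 * d, ?_⟩
    rw [ind_TT, (ind_gI hP hne h1).2, mc_add h1 (Or.inr rfl)]
    push_cast
    have h7 : (2 : ℤ) ^ (P.card + 3) * (-c - 2 * d) =
        -(2 ^ (P.card + 3) * c) - 8 * (2 ^ (P.card + 1) * d) := by ring
    rw [h7, ← hc, ← hd]
    ring

theorem ind {P : Finset ℕ} (hP : GP P) (hne : P.Nonempty) (h1 : pp P % 8 = 1) :
    ((2 ^ (P.card + 3) : ℕ) : ℤ) ∣
      2 * ((mc0 gM (pp P) : ℤ) - (mc1 gM (pp P) : ℤ)) - (TT (pp P) : ℤ) := by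
  push_cast
  exact ind_C _ P rfl hP hne h1

end Pool.Agent.TQG
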