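import Pool.Agent.TQG.Swp

/-!
Project TQG, module INV: for `pp P = 1 mod 8` the swaps preserve `YY` and `YP`.

Let `a = b * c`, `b = L S a`, `c = R S a`, `sw S a = c * b`.
Case `pp S = 1 mod 8` (then `pp (P \ S) = 1 mod 8`): by `type_QQ` the imaginary coordinates of `b`
and `c` are even, and `c * b - b * c` has imaginary coordinates `± 2 (b_2 c_3 - b_3 c_2)` etc.,
divisible by 8. Case `pp S = 7 mod 8` (then `pp (P \ S) = 7 mod 8`): `re b = re c = 2 mod 4` and the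
imaginary coordinates are odd; the imaginary coordinates of `b * c + c * b` are
`2 (b_0 c_i + b_i c_0)`, and `b_0 c_i + b_i c_0 = 2 (odd + odd) = 0 mod 4`, so divisible by 8.
So `im (sw S a) = ± im a mod 8` with one sign for all coordinates; the claims follow.
-/

namespace Pool.Agent.TQG

open Pool.Agent.TQS

private lemma inv_even {x y z w : ℤ} (hx : x % 2 = 0) (hy : y % 2 = 0) (hz : z % 2 = 0)
    (hw : w % 2 = 0) : (2 * (x * y - z * w)) % 8 = 0 := by
  obtain ⟨x', rfl⟩ := Int.dvd_of_emod_eq_zero hx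
  obtain ⟨y', rfl⟩ := Int.dvd_of_emod_eq_zero hy
  obtain ⟨z', rfl⟩ := Int.dvd_of_emod_eq_zero hz
  obtain ⟨w', rfl⟩ := Int.dvd_of_emod_eq_zero hw
  exact Int.emod_eq_zero_of_dvd ⟨x' * y' - z' * w', by ring⟩

private lemma inv_odd {x y z w : ℤ} (hx : x % 4 = 2) (hy : y % 2 = 1) (hz : z % 2 = 1)
    (hw : w % 4 = 2) : (2 * (x * y + z * w)) % 8 = 0 := by
  obtain ⟨x', rfl⟩ : ∃ k, x = 4 * k + 2 := ⟨x / 4, by omega⟩
  obtain ⟨y', rfl⟩ : ∃ k, y = 2 * k + 1 := ⟨y / 2, by omega⟩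
  obtain ⟨z', rfl⟩ : ∃ k, z = 2 * k + 1 := ⟨z / 2, by omega⟩
  obtain ⟨w', rfl⟩ : ∃ k, w = 4 * k + 2 := ⟨w / 4, by omega⟩
  exact Int.emod_eq_zero_of_dvd
    ⟨x' * (2 * y' + 1) + y' + z' + 1 + w' * (2 * z' + 1), by ring⟩

theorem sw_im {P S : Finset ℕ} (hP : GP P) (h1 : pp P % 8 = 1) (hS : S ⊆ P) {a : H}
    (ha : a ∈ NN (pp P)) :
    (((sw S a).imI - a.imI) % 8 = 0 ∧ ((sw S a).imJ - a.imJ) % 8 = 0 ∧
      ((sw S a).imK - a.imK) % 8 = 0) ∨
    (((sw S a).imI + a.imI) % 8 = 0 ∧ ((sw S a).imJ + a.imJ) % 8 = 0 ∧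
      ((sw S a).imK + a.imK) % 8 = 0) := by
  have hGS := hP.mono hS
  have hGD : GP (P \ S) := hP.mono Finset.sdiff_subset
  have hb := (L_mem hP hS ha.1).1
  have hc := R_mem hP hS ha.1
  have he := R_eq hP hS ha.1
  have hpp := pp_sdiff hS
  unfold sw
  generalize L S a = b at hb he ⊢
  generalize R S a = c at hc he ⊢
  subst he
  have hm := Nat.mul_mod (pp S) (pp (P \ S)) 8
  rw [hpp, h1] at hm
  rcases pp_mod hGS with h2 | h2
  · rcases pp_mod hGD with h3 | h3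
    · left
      obtain ⟨-, b1, b2, b3, -⟩ := (type_QQ hb).1 h2
      obtain ⟨-, c1, c2, c3, -⟩ := (type_QQ hc).1 h3
      refine ⟨?_, ?_, ?_⟩
      · have e : (c * b).imI - (b * c).imI = 2 * (c.imJ * b.imK - c.imK * b.imJ) := by
          rw [Quaternion.imI_mul, Quaternion.imI_mul]
          ring
        rw [e]
        exact inv_even c2 b3 c3 b2
      · have e : (c * b).imJ - (b * c).imJ = 2 * (c.imK * b.imI - c.imI * b.imK) := by
          rw [Quaternion.imJ_mul, Quaternion.imJ_mul]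
          ring
        rw [e]
        exact inv_even c3 b1 c1 b3
      · have e : (c * b).imK - (b * c).imK = 2 * (c.imI * b.imJ - c.imJ * b.imI) := by
          rw [Quaternion.imK_mul, Quaternion.imK_mul]
          ring
        rw [e]
        exact inv_even c1 b2 c2 b1
    · rw [h2, h3] at hm
      norm_num at hm
  · rcases pp_mod hGD with h3 | h3
    · rw [h2, h3] at hm
      norm_num at hm
    · right
      obtain ⟨b0, b1, b2, b3⟩ := (type_QQ hb).2 h2
      obtain ⟨c0, c1, c2, c3⟩ := (type_QQ hc).2 h3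
      refine ⟨?_, ?_, ?_⟩
      · have e : (c * b).imI + (b * c).imI = 2 * (c.re * b.imI + c.imI * b.re) := by
          rw [Quaternion.imI_mul, Quaternion.imI_mul]
          ring
        rw [e]
        exact inv_odd c0 b1 c1 b0
      · have e : (c * b).imJ + (b * c).imJ = 2 * (c.re * b.imJ + c.imJ * b.re) := by
          rw [Quaternion.imJ_mul, Quaternion.imJ_mul]
          ring
        rw [e]
        exact inv_odd c0 b2 c2 b0
      · have e : (c * b).imK + (b * c).imK = 2 * (c.re * b.imK + c.imK * b.re) := by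
          rw [Quaternion.imK_mul, Quaternion.imK_mul]
          ring
        rw [e]
        exact inv_odd c0 b3 c3 b0

theorem sw_YY {P S : Finset ℕ} (hP : GP P) (h1 : pp P % 8 = 1) (hS : S ⊆ P) {a : H}
    (ha : a ∈ NN (pp P)) (hy : a ∈ YY) : sw S a ∈ YY := by
  obtain ⟨y1, y2, y3⟩ := hy
  rcases sw_im hP h1 hS ha with ⟨e1, e2, e3⟩ | ⟨e1, e2, e3⟩
  · exact ⟨by omega, by omega, by omega⟩
  · exact ⟨by omega, by omega, by omega⟩

theorem sw_YP {P S : Finset ℕ} (hP : GP P) (h1 : pp P % 8 = 1) (hS : S ⊆ P) {a : H}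
    (ha : a ∈ NN (pp P)) (hy : a ∈ YP) : sw S a ∈ YP := by
  refine ⟨sw_YY hP h1 hS ha hy.1, ?_⟩
  obtain ⟨⟨y1, y2, y3⟩, y4⟩ := hy
  rcases sw_im hP h1 hS ha with ⟨-, e2, e3⟩ | ⟨-, e2, e3⟩
  · obtain ⟨u, hu⟩ := Int.dvd_of_emod_eq_zero e2
    obtain ⟨v, hv⟩ := Int.dvd_of_emod_eq_zero e3
    obtain ⟨j, hj⟩ : ∃ k, a.imJ = 2 * k := ⟨a.imJ / 2, by omega⟩
    obtain ⟨k, hk⟩ : ∃ k, a.imK = 2 * k := ⟨a.imK / 2, by omega⟩
    have h2 : (sw S a).imJ = a.imJ + 8 * u := by linarith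
    have h3 : (sw S a).imK = a.imK + 8 * v := by linarith
    have h4 : (sw S a).imJ * (sw S a).imK = a.imJ * a.imK + 16 * (u * k + v * j + 4 * u * v) := by
      rw [h2, h3, hj, hk]
      ring
    rw [h4]
    omega
  · obtain ⟨u, hu⟩ := Int.dvd_of_emod_eq_zero e2
    obtain ⟨v, hv⟩ := Int.dvd_of_emod_eq_zero e3
    obtain ⟨j, hj⟩ : ∃ k, a.imJ = 2 * k := ⟨a.imJ / 2, by omega⟩
    obtain ⟨k, hk⟩ : ∃ k, a.imK = 2 * k := ⟨a.imK / 2, by omega⟩
    have h2 : (sw S a).imJ = -a.imJ + 8 * u := by linarith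
    have h3 : (sw S a).imK = -a.imK + 8 * v := by linarith
    have h4 : (sw S a).imJ * (sw S a).imK = a.imJ * a.imK + 16 * (4 * u * v - u * k - v * j) := by
      rw [h2, h3, hj, hk]
      ring
    rw [h4]
    omega

end Pool.Agent.TQG
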