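import Pool.Agent.TQG.Fac

/-!
Project TQG, module LDV: rules for the left divisor `L S a` and the cofactor `R S a`.

`L_mem`, `L_dvd`: `Exists.choose_spec` of `left_exists`. `L_eq`: `left_unique`. `R_eq`: unfold `R`.
`R_mem`: `cof_QQ` with `pp P = pp S * pp (P \ S)`. `L_act`: `act g (L S a)` is in `NN (pp S)` and
divides `act g a` (`act_hmul`), use `L_eq`. `L_LT`: `L S (L T a)` (a left divisor of `L T a ∈ QQ (pp T)`,
`S ⊆ T`) divides `L T a`, which divides `a`. `L_self`: `nm a ∈ NN (pp P)` and `nm a ∣ a`. `L_empty`: `NN_one`. `L_mul`: `nm b ∣ b ∣ b * c`.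
-/

namespace Pool.Agent.TQG

open Pool.Agent.TQS

section

variable {P S : Finset ℕ} (hP : GP P) (hS : S ⊆ P) {a : H} (ha : a ∈ QQ (pp P))

include hP hS ha

theorem L_mem : L S a ∈ NN (pp S) := by
  classical
  have h := left_exists hP hS ha
  unfold L
  rw [dif_pos h]
  exact h.choose_spec.1

theorem L_dvd : L S a ∣ a := by
  classical
  have h := left_exists hP hS ha
  unfold L
  rw [dif_pos h]
  exact h.choose_spec.2

theorem L_eq {b : H} (hb : b ∈ NN (pp S)) (h : b ∣ a) : L S a = b := by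
  exact left_unique hP hS ha (L_mem hP hS ha) hb (L_dvd hP hS ha) h

theorem R_eq : L S a * R S a = a := by
  classical
  have h : ∃ c, a = L S a * c := L_dvd hP hS ha
  have e : R S a = h.choose := by
    unfold R
    rw [dif_pos h]
  rw [e]
  exact h.choose_spec.symm

theorem R_mem : R S a ∈ QQ (pp (P \ S)) := by
  have ha' : a ∈ QQ (pp S * pp (P \ S)) := by
    rw [pp_sdiff hS]
    exact ha
  exact cof_QQ (pp_odd (hP.mono hS)) ha' (L_mem hP hS ha).1 (R_eq hP hS ha).symm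

theorem L_act (g : G) : L S (act g a) = act g (L S a) := by
  refine L_eq hP hS (act_QQ g ha) (act_NN g (L_mem hP hS ha)) ?_
  obtain ⟨c, hc⟩ := L_dvd hP hS ha
  exact ⟨act g c, (congrArg (act g) hc).trans (act_hmul g _ _)⟩

theorem L_nm : L S (nm a) = L S a := by
  exact L_eq hP hS (nm_NN (pp_mod hP) ha).1 (L_mem hP hS ha)
    ((dvd_nm _ _).2 (L_dvd hP hS ha))

theorem L_LT {T : Finset ℕ} (hTS : T ⊆ S) : L T (L S a) = L T a := by
  exact (L_eq hP (hTS.trans hS) ha (L_mem (hP.mono hS) hTS (L_mem hP hS ha).1)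
    (dvd_trans (L_dvd (hP.mono hS) hTS (L_mem hP hS ha).1) (L_dvd hP hS ha))).symm

theorem L_dvd_L {T : Finset ℕ} (hTS : T ⊆ S) : L T a ∣ L S a := by
  rw [← L_LT hP hS ha hTS]
  exact L_dvd (hP.mono hS) hTS (L_mem hP hS ha).1

end

theorem L_empty {P : Finset ℕ} (hP : GP P) {a : H} (ha : a ∈ QQ (pp P)) : L ∅ a = 1 := by
  have h := L_mem hP (Finset.empty_subset P) ha
  rw [pp_empty, NN_one] at h
  exact h

theorem L_self {P : Finset ℕ} (hP : GP P) {a : H} (ha : a ∈ QQ (pp P)) : L P a = nm a := by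
  exact L_eq hP (Finset.Subset.refl P) ha (nm_NN (pp_mod hP) ha) ((nm_dvd a a).2 dvd_rfl)

theorem L_mul {P S : Finset ℕ} (hP : GP P) (hS : S ⊆ P) {b c : H} (hb : b ∈ QQ (pp S))
    (hc : c ∈ QQ (pp (P \ S))) : L S (b * c) = nm b := by
  have h : b * c ∈ QQ (pp P) := by
    rw [← pp_sdiff hS]
    exact mul_QQ hb hc
  exact L_eq hP hS h (nm_NN (pp_mod (hP.mono hS)) hb) ((nm_dvd _ _).2 (dvd_mul_right b c))

/-- If `S` and `T` are disjoint then the left divisor of `L S a * c'` ... : the left divisor of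
`a` for `S ∪ T` is the product of `L S a` and of the left divisor for `T` of the cofactor. -/
theorem L_union {P S T : Finset ℕ} (hP : GP P) (hS : S ⊆ P) (hT : T ⊆ P) (hST : Disjoint S T)
    {a : H} (ha : a ∈ QQ (pp P)) : L (S ∪ T) a = nm (L S a * L T (R S a)) := by
  have hU : S ∪ T ⊆ P := Finset.union_subset hS hT
  have hTP : T ⊆ P \ S := fun x hx =>
    Finset.mem_sdiff.2 ⟨hT hx, fun hxS => (Finset.disjoint_left.1 hST) hxS hx⟩
  have hR := R_mem hP hS ha
  have hPS : GP (P \ S) := hP.mono Finset.sdiff_subset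
  have hb := L_mem hP hS ha
  have hc := L_mem hPS hTP hR
  have hm : L S a * L T (R S a) ∈ QQ (pp (S ∪ T)) := by
    rw [pp_union hST]
    exact mul_QQ hb.1 hc.1
  refine L_eq hP hU ha (nm_NN (pp_mod (hP.mono hU)) hm) ((nm_dvd _ _).2 ?_)
  have h2 := mul_dvd_mul_left (L S a) (L_dvd hPS hTP hR)
  rwa [R_eq hP hS ha] at h2

end Pool.Agent.TQG
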