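import Pool.Agent.TQG.Defs

/-!
Project TQG, module NUM: elementary facts on products of primes and binary divisibility.

`pp_mod`: induction on `P` (`Finset.induction_on`), products of numbers `1, 7` mod 8.
`pp_coprime`: `Nat.Coprime.prod_left / prod_right`, distinct primes are coprime.
`pp_not_sq`: a prime `q` of `P` divides `pp P` exactly once (`pp P = q * pp (P.erase q)`, coprime);
if `pp P = x * x` then `q ∣ x`, so `q * q ∣ pp P`, `q ∣ pp (P.erase q)`, impossible.
`pp_dvd_int`: induction, coprimality (`IsCoprime.mul_dvd` over the integers).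
-/

namespace Pool.Agent.TQG

open Pool.Agent.TQS

theorem GP.mono {P S : Finset ℕ} (hP : GP P) (hS : S ⊆ P) : GP S := fun q hq => hP q (hS hq)

theorem pp_empty : pp ∅ = 1 := by
  unfold pp
  exact Finset.prod_empty

theorem pp_single (q : ℕ) : pp {q} = q := by
  unfold pp
  exact Finset.prod_singleton _ _

theorem pp_union {S T : Finset ℕ} (h : Disjoint S T) : pp (S ∪ T) = pp S * pp T := by
  unfold pp
  exact Finset.prod_union h

theorem pp_sdiff {S P : Finset ℕ} (h : S ⊆ P) : pp S * pp (P \ S) = pp P := by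
  unfold pp
  rw [mul_comm]
  exact Finset.prod_sdiff h

theorem pp_mod {P : Finset ℕ} (hP : GP P) : pp P % 8 = 1 ∨ pp P % 8 = 7 := by
  induction P using Finset.induction_on with
  | empty =>
    left
    rw [pp_empty]
  | insert q S hq ih =>
    have h1 := ih (hP.mono (Finset.subset_insert q S))
    have h2 := (hP q (Finset.mem_insert_self q S)).2
    have h3 : pp (insert q S) = q * pp S := by
      unfold pp
      exact Finset.prod_insert hq
    rw [h3, Nat.mul_mod]
    rcases h1 with h1 | h1 <;> rcases h2 with h2 | h2 <;> rw [h1, h2] <;> norm_num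

theorem pp_odd {P : Finset ℕ} (hP : GP P) : pp P % 2 = 1 := by
  rcases pp_mod hP with h | h <;> omega

theorem pp_pos {P : Finset ℕ} (hP : GP P) : 0 < pp P :=
  Finset.prod_pos fun q hq => (hP q hq).1.pos

theorem pp_coprime {S T : Finset ℕ} (hS : GP S) (hT : GP T) (h : Disjoint S T) :
    Nat.Coprime (pp S) (pp T) := by
  unfold pp
  apply Nat.Coprime.prod_left
  intro q hq
  apply Nat.Coprime.prod_right
  intro r hr
  rw [Nat.coprime_primes (hS q hq).1 (hT r hr).1]
  rintro rfl
  exact (Finset.disjoint_left.1 h hq) hr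

theorem pp_not_dvd {S : Finset ℕ} (hS : GP S) {q : ℕ} (hq : q.Prime) (h : q ∉ S) :
    ¬ q ∣ pp S := by
  intro hd
  unfold pp at hd
  rw [hq.prime.dvd_finset_prod_iff] at hd
  obtain ⟨r, hr, hqr⟩ := hd
  have := (Nat.prime_dvd_prime_iff_eq hq (hS r hr).1).1 hqr
  rw [this] at h
  exact h hr

theorem pp_not_sq {P : Finset ℕ} (hP : GP P) (hne : P.Nonempty) : ¬ IsSquare (pp P) := by
  rintro ⟨x, hx⟩
  obtain ⟨q, hq⟩ := hne
  have hqp := (hP q hq).1
  have h1 : pp P = q * pp (P.erase q) := by
    unfold pp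
    exact (Finset.mul_prod_erase P (fun q => q) hq).symm
  have h2 : q ∣ x := by
    have h3 : q ∣ x * x := by
      rw [← hx, h1]
      exact dvd_mul_right _ _
    rcases hqp.dvd_mul.1 h3 with h | h <;> exact h
  obtain ⟨y, rfl⟩ := h2
  have h3 : pp (P.erase q) = q * (y * y) := by
    have h4 : q * pp (P.erase q) = q * (q * (y * y)) := by
      rw [← h1, hx]
      ring
    exact Nat.eq_of_mul_eq_mul_left hqp.pos h4
  exact pp_not_dvd (hP.mono (Finset.erase_subset q P)) hqp (Finset.notMem_erase q P)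
    (by rw [h3]; exact dvd_mul_right _ _)

theorem pp_one_iff {P : Finset ℕ} (hP : GP P) : pp P = 1 ↔ P = ∅ := by
  constructor
  · intro h
    by_contra hne
    apply pp_not_sq hP (Finset.nonempty_iff_ne_empty.2 hne)
    rw [h]
    exact ⟨1, rfl⟩
  · rintro rfl
    exact pp_empty

theorem pp_dvd_int {P : Finset ℕ} (hP : GP P) {n : ℤ} (h : ∀ q ∈ P, (q : ℤ) ∣ n) :
    (pp P : ℤ) ∣ n := by
  unfold pp
  rw [Nat.cast_prod]
  refine Finset.prod_dvd_of_coprime ?_ h
  intro a ha b hb hab
  change IsCoprime (a : ℤ) (b : ℤ)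
  rw [Nat.isCoprime_iff_coprime]
  exact (Nat.coprime_primes (hP a (Finset.mem_coe.1 ha)).1 (hP b (Finset.mem_coe.1 hb)).1).2 hab

end Pool.Agent.TQG
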