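import Pool.Agent.TQG.Fxs
import Pool.Agent.TQG.Inv
import Pool.Agent.TQG.Abc

/-!
Project TQG, module PRI: part I for the swaps.

PROOF. `X` = the subtype of `a ∈ NN (pp P) ∩ YP` (finite). `s S` = the permutation `sw S` for
`S ⊆ P` (inverse `sw (P \ S)`, `sw_sw`, `sw_self`; preserves `YP` by `sw_YP`), and `1` for other `S`.
`c = star`, `tp a = star (act gP a) = (re, imI, - imK, - imJ)`, `tm a = star (act gM a) =
(re, imI, imK, imJ)`; all preserve `NN (pp P)` and `YP`; `c * tp * tm` is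
`a ↦ star (act gI a) = (re, - imI, imJ, imK)`. They are commuting involutions and invert `s S`:
`sw_act`, `sw_star` (`(s S)⁻¹ = s (P \ S)` because `sw (P \ S) (sw S a) = sw P a = a`).
`hfree` is `fix_star_sw`. Now `abc` gives two divisibilities for the numbers
`F' g S = #{a ∈ NN (pp P) ∩ YP | star (act g (sw S a)) = a}`, `g = gI, gP, gM`.
It remains: `FY gI P S = 2 * F' gI S` and `FY gM P S = F' gM S + F' gP S`. `YY` is the disjoint union
of `YP` and of the set `YM` of `a ∈ YY` with `(imJ * imK) % 16 = 12` (write `imJ = 2 u`,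
`imK = 2 v`, `u, v` odd), and `ρ = act (r 1)`, `(re, imI, imJ, imK) ↦ (re, imI, - imK, imJ)`, is a
bijection of `NN (pp P)` which exchanges `YP` and `YM`, commutes with `sw S` (`sw_act`) and with
`a ↦ star (act gI a)`, and exchanges `a ↦ star (act gM a)` and `a ↦ star (act gP a)`.
-/

namespace Pool.Agent.TQG

open Pool.Agent.TQS

/-- the set on which everything acts -/
private abbrev XX (P : Finset ℕ) : Type := {a : H // a ∈ NN (pp P) ∧ a ∈ YP}

private instance (P : Finset ℕ) : Finite (XX P) :=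
  ((NN_finite (pp P)).subset (fun _ h => h.1 : {a : H | a ∈ NN (pp P) ∧ a ∈ YP} ⊆ NN (pp P))).to_subtype

private lemma pri_inv {P S : Finset ℕ} (hP : GP P) (hS : S ⊆ P) {a : H} (ha : a ∈ NN (pp P)) :
    sw (P \ S) (sw S a) = a := by
  rw [sw_sw hP hS Finset.sdiff_subset Finset.disjoint_sdiff ha,
    Finset.union_sdiff_of_subset hS, sw_self hP ha]

private lemma pri_inv' {P S : Finset ℕ} (hP : GP P) (hS : S ⊆ P) {a : H} (ha : a ∈ NN (pp P)) :
    sw S (sw (P \ S) a) = a := by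
  have h := pri_inv (S := P \ S) hP Finset.sdiff_subset ha
  rwa [Finset.sdiff_sdiff_eq_self hS] at h

/-- the swaps as permutations -/
private noncomputable def sP {P : Finset ℕ} (hP : GP P) (h1 : pp P % 8 = 1) (S : Finset ℕ) :
    Equiv.Perm (XX P) := by
  classical exact if h : S ⊆ P then
    { toFun := fun x => ⟨sw S x.1, sw_mem hP h x.2.1, sw_YP hP h1 h x.2.1 x.2.2⟩
      invFun := fun x => ⟨sw (P \ S) x.1, sw_mem hP Finset.sdiff_subset x.2.1,
        sw_YP hP h1 Finset.sdiff_subset x.2.1 x.2.2⟩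
      left_inv := fun x => Subtype.ext (pri_inv hP h x.2.1)
      right_inv := fun x => Subtype.ext (pri_inv' hP h x.2.1) }
  else 1

private lemma sP_val {P S : Finset ℕ} (hP : GP P) (h1 : pp P % 8 = 1) (h : S ⊆ P) (x : XX P) :
    (sP hP h1 S x).1 = sw S x.1 := by
  unfold sP
  rw [dif_pos h]
  rfl

private lemma sP_inv_val {P S : Finset ℕ} (hP : GP P) (h1 : pp P % 8 = 1) (h : S ⊆ P)
    (x : XX P) : ((sP hP h1 S)⁻¹ x).1 = sw (P \ S) x.1 := by
  unfold sP
  rw [dif_pos h]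
  rfl

private lemma act_inv {g : G} (hg : g * g = 1) (a : H) : star (act g (star (act g a))) = a := by
  rw [act_star, star_star, ← act_mul, hg, act_one]

/-- the mirrors as permutations -/
private def mP (P : Finset ℕ) (g : G) (hg : g * g = 1) (hY : ∀ a ∈ YP, star (act g a) ∈ YP) :
    Equiv.Perm (XX P) where
  toFun x := ⟨star (act g x.1), star_NN (act_NN g x.2.1), hY _ x.2.2⟩
  invFun x := ⟨star (act g x.1), star_NN (act_NN g x.2.1), hY _ x.2.2⟩
  left_inv x := Subtype.ext (act_inv hg x.1)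
  right_inv x := Subtype.ext (act_inv hg x.1)

private lemma mP_val (P : Finset ℕ) (g : G) (hg : g * g = 1)
    (hY : ∀ a ∈ YP, star (act g a) ∈ YP) (x : XX P) : (mP P g hg hY x).1 = star (act g x.1) := rfl

private lemma mP_inv (P : Finset ℕ) (g : G) (hg : g * g = 1)
    (hY : ∀ a ∈ YP, star (act g a) ∈ YP) : (mP P g hg hY)⁻¹ = mP P g hg hY := rfl

private lemma mP_sq (P : Finset ℕ) (g : G) (hg : g * g = 1)
    (hY : ∀ a ∈ YP, star (act g a) ∈ YP) : mP P g hg hY * mP P g hg hY = 1 := by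
  refine Equiv.ext fun x => Subtype.ext ?_
  exact act_inv hg x.1

private lemma mP_comm (P : Finset ℕ) (g h : G) (hg : g * g = 1)
    (hY : ∀ a ∈ YP, star (act g a) ∈ YP) (hh : h * h = 1)
    (hY' : ∀ a ∈ YP, star (act h a) ∈ YP) (hgh : g * h = h * g) :
    mP P g hg hY * mP P h hh hY' = mP P h hh hY' * mP P g hg hY := by
  refine Equiv.ext fun x => Subtype.ext ?_
  change star (act g (star (act h x.1))) = star (act h (star (act g x.1)))
  rw [act_star, act_star, star_star, star_star, ← act_mul, ← act_mul, hgh]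

private lemma mP_conj {P S : Finset ℕ} (hP : GP P) (h1 : pp P % 8 = 1) (hS : S ⊆ P) (g : G)
    (hg : g * g = 1) (hY : ∀ a ∈ YP, star (act g a) ∈ YP) :
    mP P g hg hY * sP hP h1 S * (mP P g hg hY)⁻¹ = (sP hP h1 S)⁻¹ := by
  refine Equiv.ext fun x => Subtype.ext ?_
  rw [sP_inv_val hP h1 hS, mP_inv]
  change star (act g (sP hP h1 S (mP P g hg hY x)).1) = sw (P \ S) x.1
  rw [sP_val hP h1 hS, mP_val]
  have h2 : sw S (star x.1) = star (sw (P \ S) x.1) := by
    have h3 := sw_star (S := P \ S) hP Finset.sdiff_subset x.2.1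
    rwa [Finset.sdiff_sdiff_eq_self hS] at h3
  have h4 : star (act g x.1) = act g (star x.1) := (act_star g x.1).symm
  rw [h4, sw_act hP hS g (star_NN x.2.1), h2, act_star, act_star, star_star, ← act_mul, hg,
    act_one]

private lemma yp_one : ∀ a ∈ YP, star (act 1 a) ∈ YP := by
  rintro a ⟨⟨h1, h2, h3⟩, h4⟩
  rw [act_one]
  refine ⟨⟨?_, ?_, ?_⟩, ?_⟩
  · rw [Quaternion.imI_star]; omega
  · rw [Quaternion.imJ_star]; omega
  · rw [Quaternion.imK_star]; omega
  · rw [Quaternion.imJ_star, Quaternion.imK_star, neg_mul_neg]; exact h4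

private lemma val_gP (a : H) : star (act gP a) = ⟨a.re, a.imI, -a.imK, -a.imJ⟩ := by
  have e1 : (act gP a).re = a.re := rfl
  have e2 : (act gP a).imI = -a.imI := rfl
  have e3 : (act gP a).imJ = a.imK := rfl
  have e4 : (act gP a).imK = -(-a.imJ) := rfl
  ext
  · rw [Quaternion.re_star, e1]
  · rw [Quaternion.imI_star, e2, neg_neg]
  · rw [Quaternion.imJ_star, e3]
  · rw [Quaternion.imK_star, e4, neg_neg]

private lemma val_gM (a : H) : star (act gM a) = ⟨a.re, a.imI, a.imK, a.imJ⟩ := by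
  have e1 : (act gM a).re = a.re := rfl
  have e2 : (act gM a).imI = -a.imI := rfl
  have e3 : (act gM a).imJ = -a.imK := rfl
  have e4 : (act gM a).imK = -a.imJ := rfl
  ext
  · rw [Quaternion.re_star, e1]
  · rw [Quaternion.imI_star, e2, neg_neg]
  · rw [Quaternion.imJ_star, e3, neg_neg]
  · rw [Quaternion.imK_star, e4, neg_neg]

private lemma yp_gP : ∀ a ∈ YP, star (act gP a) ∈ YP := by
  rintro a ⟨⟨h1, h2, h3⟩, h4⟩
  rw [val_gP]
  refine ⟨⟨h1, ?_, ?_⟩, ?_⟩
  · change (-a.imK) % 4 = 2; omega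
  · change (-a.imJ) % 4 = 2; omega
  · change (-a.imK * -a.imJ) % 16 = 4
    rw [neg_mul_neg, mul_comm]; exact h4

private lemma yp_gM : ∀ a ∈ YP, star (act gM a) ∈ YP := by
  rintro a ⟨⟨h1, h2, h3⟩, h4⟩
  rw [val_gM]
  refine ⟨⟨h1, h3, h2⟩, ?_⟩
  change (a.imK * a.imJ) % 16 = 4
  rw [mul_comm]; exact h4

/-- the fixed points in `YP` -/
private def AP (g : G) (P S : Finset ℕ) : Set H :=
  {a : H | (a ∈ NN (pp P) ∧ a ∈ YP) ∧ star (act g (sw S a)) = a}

private lemma pri_count {P S : Finset ℕ} (hP : GP P) (h1 : pp P % 8 = 1) (hS : S ⊆ P) (g : G)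
    (t : Equiv.Perm (XX P)) (ht : ∀ x, (t x).1 = star (act g x.1)) :
    Nat.card {x : XX P // t (sP hP h1 S x) = x} = (AP g P S).ncard := by
  rw [← Nat.card_coe_set_eq]
  have e1 : Nat.card {x : XX P // t (sP hP h1 S x) = x} =
      Nat.card {x : XX P // star (act g (sw S x.1)) = x.1} := by
    refine Nat.card_congr (Equiv.subtypeEquivRight fun x => ?_)
    rw [Subtype.ext_iff, ht, sP_val hP h1 hS]
  rw [e1]
  exact Nat.card_congr (Equiv.subtypeSubtypeEquivSubtypeInter
    (fun a : H => a ∈ NN (pp P) ∧ a ∈ YP) (fun a : H => star (act g (sw S a)) = a))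

/-- the rotation by one right angle -/
private def r1 : G := DihedralGroup.r 1

private lemma r1_val (a : H) : act r1 a = ⟨a.re, a.imI, -a.imK, a.imJ⟩ := rfl

private lemma r1_inj : Function.Injective (act r1) := by
  intro a b h
  have h2 := congrArg (act r1⁻¹) h
  rwa [← act_mul, ← act_mul, inv_mul_cancel, act_one, act_one] at h2

private lemma pri_split {P S : Finset ℕ} (hP : GP P) (hS : S ⊆ P) (g g' : G)
    (hg : g * r1 = r1 * g') : FY g P S = (AP g P S).ncard + (AP g' P S).ncard := by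
  have hfin : ∀ g : G, (AP g P S).Finite := fun g =>
    (NN_finite (pp P)).subset (fun _ h => h.1.1)
  have e1 : {a : H | a ∈ NN (pp P) ∧ a ∈ YY ∧ star (act g (sw S a)) = a} =
      AP g P S ∪ (act r1) '' (AP g' P S) := by
    ext a
    constructor
    · rintro ⟨ha, hy, h⟩
      obtain ⟨y1, y2, y3⟩ := hy
      obtain ⟨j, hj⟩ : ∃ k, a.imJ = 4 * k + 2 := ⟨a.imJ / 4, by omega⟩
      obtain ⟨k, hk⟩ : ∃ k, a.imK = 4 * k + 2 := ⟨a.imK / 4, by omega⟩
      have h3 : a.imJ * a.imK = 16 * (j * k) + 8 * (j + k) + 4 := by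
        rw [hj, hk]; ring
      by_cases h4 : (a.imJ * a.imK) % 16 = 4
      · exact Or.inl ⟨⟨ha, ⟨⟨y1, y2, y3⟩, h4⟩⟩, h⟩
      · right
        have h5 : (a.imJ * a.imK) % 16 = 12 := by
          generalize j * k = u at h3
          omega
        refine ⟨act r1⁻¹ a, ⟨⟨act_NN _ ha, ?_⟩, ?_⟩, ?_⟩
        · have e2 : act r1⁻¹ a = ⟨a.re, a.imI, a.imK, -a.imJ⟩ := rfl
          rw [e2]
          refine ⟨⟨y1, y3, ?_⟩, ?_⟩
          · change (-a.imJ) % 4 = 2
            omega
          · change (a.imK * -a.imJ) % 16 = 4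
            rw [mul_neg, mul_comm]
            omega
        · apply r1_inj
          have e3 : act r1 (act r1⁻¹ a) = a := by
            rw [← act_mul, mul_inv_cancel, act_one]
          rw [act_star, ← act_mul, ← hg, act_mul, ← sw_act hP hS r1 (act_NN _ ha), e3, h]
        · rw [← act_mul, mul_inv_cancel, act_one]
    · rintro (⟨⟨ha, hy⟩, h⟩ | ⟨b, ⟨⟨hb, hy⟩, h⟩, rfl⟩)
      · exact ⟨ha, hy.1, h⟩
      · refine ⟨act_NN _ hb, ?_, ?_⟩
        · obtain ⟨⟨y1, y2, y3⟩, -⟩ := hy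
          rw [r1_val]
          refine ⟨y1, ?_, y2⟩
          change (-b.imK) % 4 = 2
          omega
        · rw [sw_act hP hS r1 hb, ← act_mul, hg, act_mul, ← act_star, h]
  have hdisj : Disjoint (AP g P S) ((act r1) '' (AP g' P S)) := by
    rw [Set.disjoint_left]
    rintro a ⟨⟨-, h1⟩, -⟩ ⟨b, ⟨⟨-, h2⟩, -⟩, rfl⟩
    have h3 := h1.2
    have h4 := h2.2
    rw [r1_val] at h3
    change (-b.imK * b.imJ) % 16 = 4 at h3
    rw [neg_mul, mul_comm] at h3
    omega
  unfold FY
  rw [Nat.card_coe_set_eq, e1, Set.ncard_union_eq hdisj (hfin g) ((hfin g').image _),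
    Set.ncard_image_of_injective _ r1_inj]

theorem pri {P : Finset ℕ} (hP : GP P) (hne : P.Nonempty) (h1 : pp P % 8 = 1) :
    ((2 ^ (P.card + 2) : ℕ) : ℤ) ∣ ∑ S ∈ P.powerset, (FY gI P S : ℤ) ∧
    ((2 ^ (P.card + 3) : ℕ) : ℤ) ∣
      ∑ S ∈ P.powerset, (2 * (FY gM P S : ℤ) - (FY gI P S : ℤ)) := by
  have g1 : (1 : G) * 1 = 1 := one_mul 1
  have g2 : gP * gP = 1 := by decide
  have g3 : gM * gM = 1 := by decide
  have g4 : gP * gM = gM * gP := by decide
  have hval : ∀ x : XX P, ((mP P 1 g1 yp_one * mP P gP g2 yp_gP * mP P gM g3 yp_gM) x).1 =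
      star (act gI x.1) := by
    intro x
    change star (act 1 (star (act gP (star (act gM x.1))))) = star (act gI x.1)
    have g5 : gP * gM = gI := by decide
    rw [act_one, star_star, act_star, ← act_mul, g5]
  obtain ⟨d1, d2⟩ := abc P (sP hP h1)
    (Equiv.ext fun x => Subtype.ext (by
      rw [sP_val hP h1 (Finset.empty_subset P), sw_empty hP x.2.1]; rfl))
    (fun S T hS hT hST => Equiv.ext fun x => Subtype.ext (by
      rw [sP_val hP h1 (Finset.union_subset hS hT), Equiv.Perm.mul_apply, sP_val hP h1 hS,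
        sP_val hP h1 hT, sw_sw hP hT hS hST.symm x.2.1, Finset.union_comm]))
    (mP P 1 g1 yp_one) (mP P gP g2 yp_gP) (mP P gM g3 yp_gM)
    (mP_sq P 1 g1 yp_one) (mP_sq P gP g2 yp_gP) (mP_sq P gM g3 yp_gM)
    (mP_comm P 1 gP g1 yp_one g2 yp_gP (by rw [one_mul, mul_one]))
    (mP_comm P 1 gM g1 yp_one g3 yp_gM (by rw [one_mul, mul_one]))
    (mP_comm P gP gM g2 yp_gP g3 yp_gM g4)
    (fun S hS => mP_conj hP h1 hS 1 g1 yp_one) (fun S hS => mP_conj hP h1 hS gP g2 yp_gP)
    (fun S hS => mP_conj hP h1 hS gM g3 yp_gM)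
    (fun S hS x h => by
      have h2 := congrArg Subtype.val h
      change star (act 1 (sP hP h1 S x).1) = x.1 at h2
      rw [act_one, sP_val hP h1 hS] at h2
      exact fix_star_sw hP hne hS x.2.1 h2)
  have cI : ∀ S ∈ P.powerset, (FY gI P S : ℤ) = 2 * (Nat.card {x : XX P //
      (mP P 1 g1 yp_one * mP P gP g2 yp_gP * mP P gM g3 yp_gM) (sP hP h1 S x) = x} : ℤ) := by
    intro S hS
    rw [Finset.mem_powerset] at hS
    rw [pri_count hP h1 hS gI _ hval, pri_split hP hS gI gI (by decide)]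
    push_cast
    ring
  have cM : ∀ S ∈ P.powerset, (FY gM P S : ℤ) =
      (Nat.card {x : XX P // mP P gP g2 yp_gP (sP hP h1 S x) = x} : ℤ) +
      (Nat.card {x : XX P // mP P gM g3 yp_gM (sP hP h1 S x) = x} : ℤ) := by
    intro S hS
    rw [Finset.mem_powerset] at hS
    rw [pri_count hP h1 hS gP _ (mP_val P gP g2 yp_gP), pri_count hP h1 hS gM _
      (mP_val P gM g3 yp_gM), pri_split hP hS gM gP (by decide)]
    push_cast
    ring
  constructor
  · rw [Finset.sum_congr rfl cI, ← Finset.mul_sum]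
    obtain ⟨u, hu⟩ := d1
    refine ⟨u, ?_⟩
    rw [hu]
    push_cast
    ring
  · have e : ∑ S ∈ P.powerset, (2 * (FY gM P S : ℤ) - (FY gI P S : ℤ)) =
        2 * ∑ S ∈ P.powerset, ((Nat.card {x : XX P // mP P gP g2 yp_gP (sP hP h1 S x) = x} : ℤ) +
        (Nat.card {x : XX P // mP P gM g3 yp_gM (sP hP h1 S x) = x} : ℤ) -
        (Nat.card {x : XX P // (mP P 1 g1 yp_one * mP P gP g2 yp_gP * mP P gM g3 yp_gM)
          (sP hP h1 S x) = x} : ℤ)) := by
      rw [Finset.mul_sum]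
      refine Finset.sum_congr rfl fun S hS => ?_
      rw [cI S hS, cM S hS]
      ring
    rw [e]
    obtain ⟨u, hu⟩ := d2
    refine ⟨u, ?_⟩
    rw [hu]
    push_cast
    ring

end Pool.Agent.TQG
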