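import Pool.Agent.TQG.Ldv

/-!
Project TQG, module RHO: the change of base vertex is an action of the group of subsets of `P`.

`rho P S a = nm (star (L S a) * L (P \ S) a)`. `rho_mem`: `mul_QQ`, `star_QQ`, `nm_NN`.
`L_rho_self`: `star (L S a) ∈ NN (pp S)` divides `rho P S a` on the left (`dvd_nm`), use `L_eq`.
KEY (`L_rho`). Let `S, T ⊆ P`, `A = S \ T`, `B = S ∩ T`, `C = T \ S`, so `S = A ∪ B`,
`symmDiff S T = A ∪ C`. Let `y = L A a`. As `A ⊆ S` and `A ⊆ A ∪ C` we have `L S a = y * b` and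
`L (A ∪ C) a = y * d` (`L_dvd_L`), `b ∈ QQ (pp B)`, `d ∈ QQ (pp C)` (`cof_QQ`). As `C ⊆ A ∪ C` and
`C ⊆ P \ S`: `L (A ∪ C) a = z * e` and `L (P \ S) a = z * f`, `z = L C a`, `e ∈ QQ (pp A)`.
From `y * d = z * e`: multiply by `star y` on the left and `star e` on the right:
`pp A * (d * star e) = star y * z * pp A`, so `d * star e = star y * z`. Hence
`star (L S a) * L (P \ S) a = star b * star y * z * f = (star b * d) * (star e * f)`, so
`star b * d ∈ QQ (pp T)` divides `rho P S a` and `L T (rho P S a) = nm (star b * d)` (`L_eq`, `nm_dvd`).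
And `star (L S a) * L (A ∪ C) a = star b * star y * y * d = pp A * (star b * d)`. So
`pp (S \ T) * L T (rho P S a) = ± star (L S a) * L (symmDiff S T) a`.
GROUP LAW (`rho_rho`). Apply `L_rho` to `T` and to `T' = P \ T` (`S \ T' = S ∩ T`,
`symmDiff S T' = P \ symmDiff S T`):
`pp (S \ T) * pp (S ∩ T) * (star (L T a') * L T' a') = ± star (L W a) * L S a * star (L S a) *
L (P \ W) a = ± pp S * (star (L W a) * L (P \ W) a)` with `a' = rho P S a`, `W = symmDiff S T`;
`pp (S \ T) * pp (S ∩ T) = pp S`, cancel; `nm_congr`.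
-/

namespace Pool.Agent.TQG

open Pool.Agent.TQS

private theorem rho_pre {P S : Finset ℕ} (hP : GP P) (hS : S ⊆ P) {a : H} (ha : a ∈ NN (pp P)) :
    star (L S a) * L (P \ S) a ∈ QQ (pp P) := by
  have h1 := star_QQ (L_mem hP hS ha.1).1
  have h2 := (L_mem hP (Finset.sdiff_subset (s := P) (t := S)) ha.1).1
  have h3 := mul_QQ h1 h2
  rwa [pp_sdiff hS] at h3

theorem rho_mem {P S : Finset ℕ} (hP : GP P) (hS : S ⊆ P) {a : H} (ha : a ∈ NN (pp P)) :
    rho P S a ∈ NN (pp P) :=
  nm_NN (pp_mod hP) (rho_pre hP hS ha)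

theorem L_rho_self {P S : Finset ℕ} (hP : GP P) (hS : S ⊆ P) {a : H} (ha : a ∈ NN (pp P)) :
    L S (rho P S a) = star (L S a) := by
  refine L_eq hP hS (rho_mem hP hS ha).1 (star_NN (L_mem hP hS ha.1)) ?_
  exact (dvd_nm _ _).2 (dvd_mul_right _ _)

private theorem cancel_pp {S : Finset ℕ} (hS : GP S) {x y : H} (h : (pp S : H) * x = (pp S : H) * y) :
    x = y := by
  have hne : (pp S : H) ≠ 0 := by
    intro h0
    have h1 : ((pp S : H)).re = (0 : H).re := by rw [h0]
    rw [Quaternion.re_natCast, Quaternion.re_zero] at h1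
    exact (pp_pos hS).ne' (by exact_mod_cast h1)
  exact mul_left_cancel₀ hne h

theorem L_rho {P S T : Finset ℕ} (hP : GP P) (hS : S ⊆ P) (hT : T ⊆ P) {a : H}
    (ha : a ∈ NN (pp P)) :
    (pp (S \ T) : H) * L T (rho P S a) = star (L S a) * L (symmDiff S T) a ∨
    (pp (S \ T) : H) * L T (rho P S a) = -(star (L S a) * L (symmDiff S T) a) := by
  have hW : symmDiff S T = (S \ T) ∪ (T \ S) := rfl
  have hA : S \ T ⊆ P := Finset.sdiff_subset.trans hS
  have hC : T \ S ⊆ P := Finset.sdiff_subset.trans hT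
  have hWP : symmDiff S T ⊆ P := by
    rw [hW]; exact Finset.union_subset hA hC
  have hAW : S \ T ⊆ symmDiff S T := by rw [hW]; exact Finset.subset_union_left
  have hCW : T \ S ⊆ symmDiff S T := by rw [hW]; exact Finset.subset_union_right
  have hCS : T \ S ⊆ P \ S := Finset.sdiff_subset_sdiff hT (Finset.Subset.refl S)
  have hPS : P \ S ⊆ P := Finset.sdiff_subset
  have hdAC : Disjoint (S \ T) (T \ S) := by
    rw [Finset.disjoint_left]
    intro q h1 h2
    exact (Finset.mem_sdiff.1 h2).2 (Finset.mem_sdiff.1 h1).1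
  have hdAB : Disjoint (S \ T) (S ∩ T) := by
    rw [Finset.disjoint_left]
    intro q h1 h2
    exact (Finset.mem_sdiff.1 h1).2 (Finset.mem_inter.1 h2).2
  have hppS : pp S = pp (S \ T) * pp (S ∩ T) := by
    rw [← pp_union hdAB, Finset.sdiff_union_inter]
  have hppW : pp (symmDiff S T) = pp (S \ T) * pp (T \ S) := by
    rw [hW, pp_union hdAC]
  have hppW' : pp (symmDiff S T) = pp (T \ S) * pp (S \ T) := by
    rw [hppW, mul_comm]
  have hppT : pp T = pp (S ∩ T) * pp (T \ S) := by
    have hd : Disjoint (S ∩ T) (T \ S) := by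
      rw [Finset.disjoint_left]
      intro q h1 h2
      exact (Finset.mem_sdiff.1 h2).2 (Finset.mem_inter.1 h1).1
    rw [← pp_union hd]
    congr 1
    ext q
    simp only [Finset.mem_union, Finset.mem_inter, Finset.mem_sdiff]
    tauto
  -- the elements
  obtain ⟨b, hb⟩ := L_dvd_L hP hS ha.1 (Finset.sdiff_subset : S \ T ⊆ S)
  obtain ⟨d, hd⟩ := L_dvd_L hP hWP ha.1 hAW
  obtain ⟨e, he⟩ := L_dvd_L hP hWP ha.1 hCW
  obtain ⟨f, hf⟩ := L_dvd_L hP hPS ha.1 hCS
  have hy : L (S \ T) a ∈ NN (pp (S \ T)) := L_mem hP hA ha.1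
  have hz : L (T \ S) a ∈ NN (pp (T \ S)) := L_mem hP hC ha.1
  have hbQ : b ∈ QQ (pp (S ∩ T)) := by
    refine cof_QQ (pp_odd (hP.mono hA)) ?_ hy.1 hb
    rw [← hppS]
    exact (L_mem hP hS ha.1).1
  have hdQ : d ∈ QQ (pp (T \ S)) := by
    refine cof_QQ (pp_odd (hP.mono hA)) ?_ hy.1 hd
    rw [← hppW]
    exact (L_mem hP hWP ha.1).1
  have heQ : e ∈ QQ (pp (S \ T)) := by
    refine cof_QQ (pp_odd (hP.mono hC)) ?_ hz.1 he
    rw [← hppW']
    exact (L_mem hP hWP ha.1).1
  have hyy : star (L (S \ T) a) * L (S \ T) a = (pp (S \ T) : H) := star_mul_QQ hy.1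
  have hee : e * star e = (pp (S \ T) : H) := mul_star_QQ heQ
  have hkey : d * star e = star (L (S \ T) a) * L (T \ S) a := by
    apply cancel_pp (hP.mono hA)
    have h1 : star (L (S \ T) a) * (L (S \ T) a * d) * star e =
        star (L (S \ T) a) * (L (T \ S) a * e) * star e := by
      rw [← hd, ← he]
    calc (pp (S \ T) : H) * (d * star e)
        = star (L (S \ T) a) * (L (S \ T) a * d) * star e := by
          rw [← hyy]; simp only [mul_assoc]
      _ = star (L (S \ T) a) * (L (T \ S) a * e) * star e := h1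
      _ = star (L (S \ T) a) * L (T \ S) a * (e * star e) := by simp only [mul_assoc]
      _ = (pp (S \ T) : H) * (star (L (S \ T) a) * L (T \ S) a) := by
          rw [hee]; exact (Nat.cast_commute _ _).eq.symm
  have hbd : star b * d ∈ QQ (pp T) := by
    rw [hppT]
    exact mul_QQ (star_QQ hbQ) hdQ
  have hLT : L T (rho P S a) = nm (star b * d) := by
    refine L_eq hP hT (rho_mem hP hS ha).1 (nm_NN (pp_mod (hP.mono hT)) hbd) ?_
    rw [nm_dvd]
    refine (dvd_nm _ _).2 ?_
    refine ⟨star e * f, ?_⟩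
    calc star (L S a) * L (P \ S) a
        = star b * (star (L (S \ T) a) * L (T \ S) a) * f := by
          rw [hb, hf, star_mul]; simp only [mul_assoc]
      _ = star b * d * (star e * f) := by rw [← hkey]; simp only [mul_assoc]
  have hR : star (L S a) * L (symmDiff S T) a = (pp (S \ T) : H) * (star b * d) := by
    calc star (L S a) * L (symmDiff S T) a
        = star b * (star (L (S \ T) a) * L (S \ T) a) * d := by
          rw [hb, hd, star_mul]; simp only [mul_assoc]
      _ = (pp (S \ T) : H) * (star b * d) := by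
          rw [hyy, ← (Nat.cast_commute (pp (S \ T)) (star b)).eq, mul_assoc]
  rw [hLT, hR]
  rcases nm_or (star b * d) with h | h
  · left; rw [h]
  · right; rw [h, mul_neg]

theorem rho_rho {P S T : Finset ℕ} (hP : GP P) (hS : S ⊆ P) (hT : T ⊆ P) {a : H}
    (ha : a ∈ NN (pp P)) : rho P T (rho P S a) = rho P (symmDiff S T) a := by
  have ha' := rho_mem hP hS ha
  have hW : symmDiff S T = (S \ T) ∪ (T \ S) := rfl
  have hWP : symmDiff S T ⊆ P := by
    rw [hW]
    exact Finset.union_subset (Finset.sdiff_subset.trans hS) (Finset.sdiff_subset.trans hT)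
  have hPT : P \ T ⊆ P := Finset.sdiff_subset
  have e1 : S \ (P \ T) = S ∩ T := by
    ext q
    simp only [Finset.mem_sdiff, Finset.mem_inter]
    constructor
    · rintro ⟨h1, h2⟩
      exact ⟨h1, by by_contra h; exact h2 ⟨hS h1, h⟩⟩
    · rintro ⟨h1, h2⟩
      exact ⟨h1, fun h => h.2 h2⟩
  have e2 : symmDiff S (P \ T) = P \ symmDiff S T := by
    ext q
    simp only [Finset.mem_symmDiff, Finset.mem_sdiff]
    constructor
    · rintro (⟨h1, h2⟩ | ⟨⟨h1, h2⟩, h3⟩)
      · refine ⟨hS h1, ?_⟩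
        rintro (⟨_, h4⟩ | ⟨_, h4⟩)
        · exact h2 ⟨hS h1, h4⟩
        · exact h4 h1
      · refine ⟨h1, ?_⟩
        rintro (⟨h4, _⟩ | ⟨h4, _⟩)
        · exact h3 h4
        · exact h2 h4
    · rintro ⟨h1, h2⟩
      by_cases hq : q ∈ S
      · left
        refine ⟨hq, ?_⟩
        rintro ⟨_, h3⟩
        exact h2 (Or.inl ⟨hq, h3⟩)
      · right
        refine ⟨⟨h1, ?_⟩, hq⟩
        intro h3
        exact h2 (Or.inr ⟨h3, hq⟩)
  have hdAB : Disjoint (S \ T) (S ∩ T) := by
    rw [Finset.disjoint_left]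
    intro q h1 h2
    exact (Finset.mem_sdiff.1 h1).2 (Finset.mem_inter.1 h2).2
  have hppS : (pp S : H) = (pp (S \ T) : H) * (pp (S ∩ T) : H) := by
    rw [← Nat.cast_mul, ← pp_union hdAB, Finset.sdiff_union_inter]
  have h1 := L_rho hP hS hT ha
  have h2 := L_rho hP hS hPT ha
  rw [e1, e2] at h2
  -- signs
  have h1' : ∃ s : ℤ, (s = 1 ∨ s = -1) ∧ (pp (S \ T) : H) * L T (rho P S a) =
      (s : H) * (star (L S a) * L (symmDiff S T) a) := by
    rcases h1 with h | h
    · exact ⟨1, Or.inl rfl, by rw [h]; simp⟩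
    · exact ⟨-1, Or.inr rfl, by rw [h]; simp⟩
  have h2' : ∃ s : ℤ, (s = 1 ∨ s = -1) ∧ (pp (S ∩ T) : H) * L (P \ T) (rho P S a) =
      (s : H) * (star (L S a) * L (P \ symmDiff S T) a) := by
    rcases h2 with h | h
    · exact ⟨1, Or.inl rfl, by rw [h]; simp⟩
    · exact ⟨-1, Or.inr rfl, by rw [h]; simp⟩
  obtain ⟨s, hs, h1⟩ := h1'
  obtain ⟨t, ht, h2⟩ := h2'
  have h1s : (pp (S \ T) : H) * star (L T (rho P S a)) =
      (s : H) * (star (L (symmDiff S T) a) * L S a) := by
    have h3 := congrArg star h1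
    rw [star_mul, star_mul, star_mul, star_star, star_natCast, star_intCast] at h3
    rw [(Nat.cast_commute _ _).eq, h3, (Int.cast_commute _ _).eq]
  have hSS : L S a * star (L S a) = (pp S : H) := mul_star_QQ (L_mem hP hS ha.1).1
  have hfin : star (L T (rho P S a)) * L (P \ T) (rho P S a) =
      ((s * t : ℤ) : H) * (star (L (symmDiff S T) a) * L (P \ symmDiff S T) a) := by
    apply cancel_pp (hP.mono hS)
    calc (pp S : H) * (star (L T (rho P S a)) * L (P \ T) (rho P S a))
        = ((pp (S \ T) : H) * star (L T (rho P S a))) *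
            ((pp (S ∩ T) : H) * L (P \ T) (rho P S a)) := by
          rw [hppS]
          rw [mul_assoc (pp (S \ T) : H) (pp (S ∩ T) : H), ← mul_assoc (pp (S ∩ T) : H),
            (Nat.cast_commute (pp (S ∩ T)) (star (L T (rho P S a)))).eq]
          simp only [mul_assoc]
      _ = ((s : H) * (star (L (symmDiff S T) a) * L S a)) *
            ((t : H) * (star (L S a) * L (P \ symmDiff S T) a)) := by rw [h1s, h2]
      _ = ((s * t : ℤ) : H) * (star (L (symmDiff S T) a) * (L S a * star (L S a)) *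
            L (P \ symmDiff S T) a) := by
          rw [Int.cast_mul, mul_assoc (s : H) _ _, ← mul_assoc _ (t : H) _,
            ← (Int.cast_commute t (star (L (symmDiff S T) a) * L S a)).eq]
          simp only [mul_assoc]
      _ = (pp S : H) * (((s * t : ℤ) : H) *
            (star (L (symmDiff S T) a) * L (P \ symmDiff S T) a)) := by
          rw [hSS, ← (Nat.cast_commute (pp S) (star (L (symmDiff S T) a))).eq, mul_assoc (pp S : H),
            ← mul_assoc _ (pp S : H) _, ← (Nat.cast_commute (pp S) ((s * t : ℤ) : H)).eq, mul_assoc]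
  have hst : s * t = 1 ∨ s * t = -1 := by
    rcases hs with rfl | rfl <;> rcases ht with rfl | rfl <;> simp
  have hre : (star (L T (rho P S a)) * L (P \ T) (rho P S a)).re ≠ 0 :=
    re_ne (pp_mod hP) (rho_pre hP hT ha')
  change nm _ = nm _
  refine nm_congr hre ?_
  rcases hst with h | h
  · left; rw [hfin, h]; simp
  · right; rw [hfin, h]; simp

theorem rho_empty {P : Finset ℕ} (hP : GP P) {a : H} (ha : a ∈ NN (pp P)) : rho P ∅ a = a := by
  unfold rho
  rw [L_empty hP ha.1, star_one, one_mul, Finset.sdiff_empty, L_self hP ha.1, nm_self ha.2,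
    nm_self ha.2]

theorem rho_act {P S : Finset ℕ} (hP : GP P) (hS : S ⊆ P) (g : G) {a : H} (ha : a ∈ NN (pp P)) :
    rho P S (act g a) = act g (rho P S a) := by
  unfold rho
  rw [L_act hP hS ha.1, L_act hP (Finset.sdiff_subset (s := P) (t := S)) ha.1, ← act_star,
    ← act_hmul, nm_act]

end Pool.Agent.TQG
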