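import Pool.Agent.TQG.Ldv

/-!
Project TQG, module SWP: the swaps `sw S`, `b * c ↦ c * b` with `b = L S a`.

`sw_mem`: `re (c * b) = re (b * c)`, `mul_QQ`, `mul_comm` of the norms.
`sw_mul`: `L_mul` gives `L S (b * c) = nm b = ± b`, so the cofactor is `± c` with the same sign
(cancel in the domain `H`), and the product is `c * b`.
`sw_sw`: `a = b * c` with `b = L S a`; `sw S a = c * b`. Let `b' = L T c` (`c ∈ QQ (pp (P \ S))`,
`T ⊆ P \ S`), `c = b' * d`. Then `b' ∣ c * b`, so `sw T (c * b) = sw T (b' * (d * b)) = d * b * b'`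
(`sw_mul`), and `a = (b * b') * d` with `b * b' ∈ QQ (pp (S ∪ T))`, so `sw (S ∪ T) a = d * (b * b')`.
`sw_act`: `act_hmul`. `sw_star`: `star a = star c * star b`, so by `sw_mul`
`sw (P \ S) (star a) = star b * star c = star (c * b)`.
-/

namespace Pool.Agent.TQG

open Pool.Agent.TQS

theorem sw_mul {P S : Finset ℕ} (hP : GP P) (hS : S ⊆ P) {b c : H} (hb : b ∈ QQ (pp S))
    (hc : c ∈ QQ (pp (P \ S))) : sw S (b * c) = c * b := by
  have hbc : b * c ∈ QQ (pp P) := by
    rw [← pp_sdiff hS]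
    exact mul_QQ hb hc
  have hb0 : b ≠ 0 := ne_zero_QQ (pp_pos (hP.mono hS)) hb
  have hL := L_mul hP hS hb hc
  have hR := R_eq hP hS hbc
  unfold sw
  rcases nm_or b with e | e
  · rw [hL, e] at hR
    rw [hL, e, mul_left_cancel₀ hb0 hR]
  · rw [hL, e] at hR
    have h2 : b * (-R S (b * c)) = b * c := by
      rw [mul_neg, ← neg_mul]
      exact hR
    have h3 := mul_left_cancel₀ hb0 h2
    rw [hL, e, mul_neg, ← neg_mul, h3]

theorem sw_mem {P S : Finset ℕ} (hP : GP P) (hS : S ⊆ P) {a : H} (ha : a ∈ NN (pp P)) :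
    sw S a ∈ NN (pp P) := by
  have hb := L_mem hP hS ha.1
  have hc := R_mem hP hS ha.1
  have e := R_eq hP hS ha.1
  have hm : R S a * L S a ∈ QQ (pp P) := by
    rw [← pp_sdiff hS, mul_comm (pp S)]
    exact mul_QQ hc hb.1
  refine ⟨hm, ?_⟩
  have hre : (R S a * L S a).re = (L S a * R S a).re := by
    rw [Quaternion.re_mul, Quaternion.re_mul]
    ring
  change 0 < (R S a * L S a).re
  rw [hre, e]
  exact ha.2

theorem sw_empty {P : Finset ℕ} (hP : GP P) {a : H} (ha : a ∈ NN (pp P)) : sw ∅ a = a := by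
  have e := R_eq hP (Finset.empty_subset P) ha.1
  rw [L_empty hP ha.1, one_mul] at e
  unfold sw
  rw [L_empty hP ha.1, mul_one, e]

theorem sw_self {P : Finset ℕ} (hP : GP P) {a : H} (ha : a ∈ NN (pp P)) : sw P a = a := by
  have hL : L P a = a := by
    rw [L_self hP ha.1]
    exact nm_self ha.2
  have e := R_eq hP (Finset.Subset.refl P) ha.1
  have ha0 : a ≠ 0 := ne_zero_QQ (pp_pos hP) ha.1
  rw [hL] at e
  have h1 : R P a = 1 := mul_left_cancel₀ ha0 (by rw [e, mul_one])
  unfold sw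
  rw [hL, h1, one_mul]

theorem sw_sw {P S T : Finset ℕ} (hP : GP P) (hS : S ⊆ P) (hT : T ⊆ P) (hST : Disjoint S T)
    {a : H} (ha : a ∈ NN (pp P)) : sw T (sw S a) = sw (S ∪ T) a := by
  have hTP : T ⊆ P \ S := fun x hx =>
    Finset.mem_sdiff.2 ⟨hT hx, fun hxS => (Finset.disjoint_left.1 hST) hxS hx⟩
  have hPS : GP (P \ S) := hP.mono Finset.sdiff_subset
  have hb := L_mem hP hS ha.1
  have hc := R_mem hP hS ha.1
  have e := R_eq hP hS ha.1
  have hb' := L_mem hPS hTP hc
  have hd := R_mem hPS hTP hc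
  have e' := R_eq hPS hTP hc
  have hST' : Disjoint (P \ (S ∪ T)) S := by
    rw [Finset.disjoint_left]
    intro x hx hxS
    exact (Finset.mem_sdiff.1 hx).2 (Finset.mem_union_left _ hxS)
  have hun : P \ (S ∪ T) ∪ S = P \ T := by
    ext x
    simp only [Finset.mem_union, Finset.mem_sdiff]
    constructor
    · rintro (⟨h1, h2⟩ | h1)
      · exact ⟨h1, fun h => h2 (Or.inr h)⟩
      · exact ⟨hS h1, fun h => (Finset.disjoint_left.1 hST) h1 h⟩
    · rintro ⟨h1, h2⟩
      by_cases h3 : x ∈ S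
      · exact Or.inr h3
      · exact Or.inl ⟨h1, fun h => h.elim h3 h2⟩
  have hset : (P \ S) \ T = P \ (S ∪ T) := by
    ext x
    simp only [Finset.mem_union, Finset.mem_sdiff]
    tauto
  rw [hset] at hd
  have hdb : R T (R S a) * L S a ∈ QQ (pp (P \ T)) := by
    rw [← hun, pp_union hST']
    exact mul_QQ hd hb.1
  have hbb : L S a * L T (R S a) ∈ QQ (pp (S ∪ T)) := by
    rw [pp_union hST]
    exact mul_QQ hb.1 hb'.1
  have h1 : sw S a = L T (R S a) * (R T (R S a) * L S a) := by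
    unfold sw
    rw [← mul_assoc, e']
  have h2 : a = (L S a * L T (R S a)) * R T (R S a) := by
    rw [mul_assoc, e', e]
  have h3 : sw (S ∪ T) a = R T (R S a) * (L S a * L T (R S a)) := by
    have h4 := sw_mul hP (Finset.union_subset hS hT) hbb hd
    rw [← h2] at h4
    exact h4
  rw [h1, sw_mul hP hT hb'.1 hdb, h3, mul_assoc]

theorem sw_act {P S : Finset ℕ} (hP : GP P) (hS : S ⊆ P) (g : G) {a : H} (ha : a ∈ NN (pp P)) :
    sw S (act g a) = act g (sw S a) := by
  have hb := L_mem hP hS ha.1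
  have hc := R_mem hP hS ha.1
  have e := R_eq hP hS ha.1
  have h1 : act g a = act g (L S a) * act g (R S a) := by
    rw [← act_hmul, e]
  rw [h1, sw_mul hP hS (act_QQ g hb.1) (act_QQ g hc), ← act_hmul]
  rfl

theorem sw_star {P S : Finset ℕ} (hP : GP P) (hS : S ⊆ P) {a : H} (ha : a ∈ NN (pp P)) :
    sw (P \ S) (star a) = star (sw S a) := by
  have hb := L_mem hP hS ha.1
  have hc := R_mem hP hS ha.1
  have e := R_eq hP hS ha.1
  have h1 : star a = star (R S a) * star (L S a) := by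
    rw [← star_mul, e]
  have hset : P \ (P \ S) = S := Finset.sdiff_sdiff_eq_self hS
  have hb' : star (L S a) ∈ QQ (pp (P \ (P \ S))) := by
    rw [hset]
    exact star_QQ hb.1
  rw [h1, sw_mul hP Finset.sdiff_subset (star_QQ hc) hb', ← star_mul]
  rfl

end Pool.Agent.TQG
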